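import Pool.Agent.Work.MP_e3f5d9_al_h92.C3

/-!
# C6 (helper99): the pairs at the points of a cycle of vertices with characteristic point `B`
-/

set_option autoImplicit false
set_option linter.unusedSectionVars false

open Finset

namespace R4

namespace Cut

variable {L : Type} [Fintype L] [DecidableEq L] {D : KS L} {E : Finset (Finset L)}
  {N : Finset L} {kk : L → ℕ}

namespace C6

/-- `C` is in the orbit of `B`. -/
def Orb (D : KS L) (E : Finset (Finset L)) (B C : Finset L) : Prop := ∃ n, (fv D E)^[n] B = C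

/-- The germ `X` at `A` contains `0`, or the critical value, or a point of the orbit of `B`. -/
def KSt (D : KS L) (E : Finset (Finset L)) (B A X : Finset L) : Prop :=
  X = rho D E A ∨ X = Aᶜ ∨ ∃ C, Orb D E B C ∧ C ⊆ X

lemma orb_self (B : Finset L) : Orb D E B B := ⟨0, rfl⟩

lemma orb_fv {B C : Finset L} (h : Orb D E B C) : Orb D E B (fv D E C) := by
  obtain ⟨n, rfl⟩ := h
  exact ⟨n + 1, Function.iterate_succ_apply' _ _ _⟩

lemma orb_vert (h : Std D E) {B C : Finset L} (hB : Vert E B) (hC : Orb D E B C) : Vert E C := by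
  obtain ⟨n, rfl⟩ := hC
  induction n with
  | zero => exact hB
  | succ n ih =>
    rw [Function.iterate_succ_apply']
    exact h.fv_vert ih

/-- The image of a germ different from the germ of `0` contains a point of the orbit. -/
lemma fs_orb (h : Std D E) {B C g : Finset L} (hB : Vert E B)
    (hR : ∀ C, Orb D E B C → C = B ∨ C ⊆ rho D E B) (hax : Fs D ⊂ B) (hC : Orb D E B C)
    (hCB : C ≠ B) (hg : Germ E C g) (hK : KSt D E B C g) (hne : g ≠ rho D E C) :
    ∃ C', Orb D E B C' ∧ C' ⊆ fs D E C g := by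
  have hCE := (orb_vert h hB hC).1
  rcases hK with h1 | h1 | ⟨C', h1, h2⟩
  · exact absurd h1 hne
  · -- `g = Cᶜ`, the vertex `C` is on the axis
    have hCax : Fs D ⊂ C := by
      by_contra h2
      exact hne (by rw [h1, Std.rho_off h2])
    refine ⟨fv D E B, orb_fv (orb_self B), ?_⟩
    have h3 : D.lp (tv D C) (fv D E B) = dn D E B := by
      rw [Std.tv_true hCax.2, ← Std.tv_true hax.2]
      exact h.lp_fv hB.1
    apply h.sub_fs hCE hg hne (h.fv_mem hB.1)
    · rw [h3]
      exact h.dn_nonempty hB.1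
    · rw [h3, h1]
      intro x hx
      rw [dn, mem_compl] at hx
      rw [mem_compl]
      intro h4
      rcases hR C hC with h5 | h5
      · exact hCB h5
      · exact hx (h5 h4)
  · refine ⟨fv D E C', orb_fv h1, ?_⟩
    have hC'E := (orb_vert h hB h1).1
    have hgd := h.germ_subset_dn hg hne
    have hoff : ¬ Fs D ⊂ C' := by
      intro h3
      obtain ⟨x, hx⟩ := h.Fs_nonempty
      have h4 : x ∈ dn D E C := hgd (h2 (h3.1 hx))
      by_cases h5 : Fs D ⊂ C
      · rw [dn, mem_compl] at h4
        exact h4 ((h.rho_child h5).2 hx)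
      · apply h5
        have h6 : C' ⊆ C := by
          have := h2.trans hgd
          rwa [Std.dn_off h5] at this
        exact lt_of_lt_of_le h3 h6
    have h3 : D.lp (tv D C) (fv D E C') = C' := by
      obtain ⟨x, hx⟩ := h.nonempty hC'E
      have h4 : D.side x = tv D C' := h.dn_side hC'E (by rw [Std.dn_off hoff]; exact hx)
      have h5 : D.side x = tv D C := h.dn_side hCE (hgd (h2 hx))
      rw [← h5, h4, h.lp_fv hC'E, Std.dn_off hoff]
    apply h.sub_fs hCE hg hne (h.fv_mem hC'E)
    · rw [h3]
      exact h.nonempty hC'E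
    · rw [h3]
      exact h2

lemma kst_fs (h : Std D E) {B C g : Finset L} (hB : Vert E B)
    (hR : ∀ C, Orb D E B C → C = B ∨ C ⊆ rho D E B) (hax : Fs D ⊂ B) (hC : Orb D E B C)
    (hCB : C ≠ B) (hg : Germ E C g) (hK : KSt D E B C g) :
    KSt D E B (fv D E C) (fs D E C g) := by
  by_cases hne : g = rho D E C
  · right; left
    rw [hne, h.fs_rho]
  · right; right
    exact fs_orb h hB hR hax hC hCB hg hK hne

lemma kst_top (h : Std D E) {B X : Finset L} (hB : Vert E B)
    (hR : ∀ C, Orb D E B C → C = B ∨ C ⊆ rho D E B)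
    (hX : Germ E B X) (hK : KSt D E B B X) : X = rho D E B ∨ X = Bᶜ := by
  rcases hK with h1 | h1 | ⟨C, h1, h2⟩
  · exact Or.inl h1
  · exact Or.inr h1
  · rcases hX with h3 | h3
    · exact Or.inr h3
    · left
      obtain ⟨x, hx⟩ := h.nonempty (orb_vert h hB h1).1
      rcases hR C h1 with h4 | h4
      · exfalso
        subst h4
        exact h3.2.1.2 h2
      · exact h.germ_eq (Or.inr h3) h.rho_germ (h2 hx) (h4 hx)

/-- The pairs of germs in the directions of `0`, `o` and the orbit. -/
lemma pairs (h : Std D E) {K : Finset L → Finset L → Prop} (hK : PairRules D E K)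
    {B : Finset L} (hB : Vert E B) (hR : ∀ C, Orb D E B C → C = B ∨ C ⊆ rho D E B)
    (hax : Fs D ⊂ B) (hown : ∀ C, Orb D E B C → K C {D.o}) (hbase : K (rho D E B) Bᶜ) (m : ℕ) :
    ∀ C, Orb D E B C → (fv D E)^[m] C = B → ∀ g g', Germ E C g → Germ E C g' →
      KSt D E B C g → KSt D E B C g' → g ≠ g' → K g g' := by
  have htop : ∀ g g', Germ E B g → Germ E B g' → KSt D E B B g → KSt D E B B g' → g ≠ g' →
      K g g' := by
    intro g g' hg hg' h1 h2 hne
    have h3 : K Bᶜ (rho D E B) := by
      rcases kst_top h hB hR hg h1 with rfl | rfl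
      · rcases kst_top h hB hR hg' h2 with rfl | rfl
        · exact absurd rfl hne
        · exact hK.symm _ _ (h.germ_disj hg hg' hne) hbase
      · rcases kst_top h hB hR hg' h2 with rfl | rfl
        · exact hK.symm _ _ (h.germ_disj hg' hg (Ne.symm hne)) hbase
        · exact absurd rfl hne
    rcases kst_top h hB hR hg h1 with rfl | rfl
    · rcases kst_top h hB hR hg' h2 with rfl | rfl
      · exact absurd rfl hne
      · exact hbase
    · rcases kst_top h hB hR hg' h2 with rfl | rfl
      · exact h3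
      · exact absurd rfl hne
  induction m with
  | zero =>
    intro C _ h1 g g' hg hg' h2 h3 hne
    have h4 : C = B := h1
    subst h4
    exact htop g g' hg hg' h2 h3 hne
  | succ m ih =>
    intro C hC h1 g g' hg hg' h2 h3 hne
    by_cases hCB : C = B
    · subst hCB
      exact htop g g' hg hg' h2 h3 hne
    · rw [Function.iterate_succ_apply] at h1
      have hCE := (orb_vert h hB hC).1
      have hA := h.fv_mem hCE
      have ih' := ih (fv D E C) (orb_fv hC) h1
      have hAc : ∀ g, Germ E C g → KSt D E B C g → g ≠ rho D E C →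
          K (fv D E C)ᶜ (fs D E C g) := by
        intro g hg h2 hn
        apply ih' _ _ (Or.inl rfl) (h.fs_germ hCE hg) (Or.inr (Or.inl rfl))
          (kst_fs h hB hR hax hC hCB hg h2)
        intro h4
        apply hn
        apply h.fs_inj hCE hg h.rho_germ
        rw [h.fs_rho, h4]
      have hoA : Disjoint ({D.o} : Finset L) (fv D E C) := by
        rw [disjoint_singleton_left]
        exact h.o_notMem hA
      have hKo : ∀ g, Germ E C g → KSt D E B C g → g ≠ rho D E C → K (fs D E C g) {D.o} := by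
        intro g hg h2 hn
        have h4 := (h.fs_spec hCE hg hn).1
        have h5 : K {D.o} (fs D E C g) := by
          apply hK.glue {D.o} (fs D E C g) (fv D E C) _ h4.2.1.1 _ (hAc g hg h2 hn)
          · rw [singleton_subset_iff, mem_compl]
            exact h.o_notMem hA
          · exact hK.symm _ _ hoA.symm (hown _ (orb_fv hC))
        apply hK.symm _ _ _ h5
        rw [disjoint_singleton_left]
        exact h.o_notMem h4.1
      -- one of the germs is the germ of `0`
      have hone : ∀ g, Germ E C g → KSt D E B C g → g ≠ rho D E C → K g (rho D E C) := by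
        intro g hg h2 hn
        obtain ⟨h4, h5⟩ := h.fs_spec hCE hg hn
        have h6 := h.germ_nonempty hCE hg
        have h7 : K (fs D E C g) (fv D E C)ᶜ := by
          apply hK.symm _ _ _ (hAc g hg h2 hn)
          exact h.germ_disj (A := fv D E C) (Or.inl rfl) (Or.inr h4) (by
            intro h8
            apply hn
            apply h.fs_inj hCE hg h.rho_germ
            rw [h.fs_rho, h8])
        have h8 := hK.lift' _ h4.1 _ hA h4.2.1.1 h7 (hown _ (orb_fv hC)) (tv D C)
          (by rw [h5]; exact h6)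
        rw [h5, h.lp_fv hCE, dn, compl_compl] at h8
        exact h8
      by_cases hgr : g = rho D E C
      · subst hgr
        exact hK.symm _ _ (h.germ_disj hg' hg (Ne.symm hne)) (hone g' hg' h3 (Ne.symm hne))
      · by_cases hgr' : g' = rho D E C
        · subst hgr'
          exact hone g hg h2 hgr
        · obtain ⟨h4, h5⟩ := h.fs_spec hCE hg hgr
          obtain ⟨h4', h5'⟩ := h.fs_spec hCE hg' hgr'
          have hn : fs D E C g ≠ fs D E C g' := fun h6 => hne (h.fs_inj hCE hg hg' h6)
          have h6 := ih' _ _ (h.fs_germ hCE hg) (h.fs_germ hCE hg')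
            (kst_fs h hB hR hax hC hCB hg h2) (kst_fs h hB hR hax hC hCB hg' h3) hn
          have h7 := hK.lift _ h4.1 _ h4'.1 (h.child_disj h4 h4' hn) h6 (hKo g hg h2 hgr)
            (hKo g' hg' h3 hgr') (tv D C) (by rw [h5]; exact h.germ_nonempty hCE hg)
            (by rw [h5']; exact h.germ_nonempty hCE hg')
          rw [h5, h5'] at h7
          exact h7

end C6

open C6 in
/-- **C6** -/
theorem Std.cyc_star (h : Std D E) (hk : IsKN D N kk) {K : Finset L → Finset L → Prop}
    (hK : PairRules D E K) {B : Finset L} (hB : Vert E B) {p : ℕ} (hp : 0 < p)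
    (hper : (fv D E)^[p] B = B) (htop : (clN D N kk 1)ᶜ ⊂ B)
    (hR : ∀ n, (fv D E)^[n] B = B ∨ (fv D E)^[n] B ⊆ rho D E B)
    (hown : ∀ n, K ((fv D E)^[n] B) {D.o}) :
    ∀ n g g', Germ E ((fv D E)^[n] B) g → Germ E ((fv D E)^[n] B) g' → g ≠ g' → K g g' := by
  classical
  -- the position of `B`
  have hF1 : Fs D ⊆ (clN D N kk 1)ᶜ := by
    intro i hi
    rw [mem_compl]
    intro h1
    have h2 := IsKN.cl_eq (hk.Fs_sub hi) h1
    have h3 := hk.two_le
    rw [Nat.ModEq, Nat.zero_mod, Nat.mod_eq_of_lt (by omega)] at h2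
    omega
  have hax : Fs D ⊂ B := lt_of_le_of_lt hF1 htop
  have hrho := h.rho_child hax
  have h1rho : (clN D N kk 1)ᶜ ⊆ rho D E B := by
    obtain ⟨C, hC, hsub⟩ := h.exists_child (hk.al_mem h) htop
    obtain ⟨x, hx⟩ := h.Fs_nonempty
    rw [← h.child_eq hC hrho.1 (hsub (hF1 hx)) (hrho.2 hx)]
    exact hsub
  have hR' : ∀ C, Orb D E B C → C = B ∨ C ⊆ rho D E B := by
    rintro C ⟨n, rfl⟩
    exact hR n
  have hown' : ∀ C, Orb D E B C → K C {D.o} := by
    rintro C ⟨n, rfl⟩
    exact hown n
  have hm1 : D.Mono E {D.o} B := by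
    have h1 : D.Mono E Bᶜᶜ {D.o} := by
      apply hk.mono_al h (mem_singleton_self _)
      · rw [singleton_subset_iff, mem_compl]
        exact h.o_notMem hB.1
      · intro x hx
        rw [mem_compl] at hx
        by_contra h2
        exact hx (htop.1 (mem_compl.2 h2))
    rw [compl_compl] at h1
    exact KS.Mono.symm _ _ h1
  have hm2 : D.Mono E (rho D E B) Bᶜ := by
    have h1 : D.Mono E (rho D E B)ᶜᶜ Bᶜ := by
      apply hk.mono_al h
      · rw [mem_compl]
        exact h.o_notMem hB.1
      · exact compl_subset_compl.2 hrho.1.2.1.1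
      · intro x hx
        rw [mem_compl] at hx
        by_contra h2
        exact hx (h1rho (mem_compl.2 h2))
    rwa [compl_compl] at h1
  have hbase : K (rho D E B) Bᶜ := hK.mono _ _ hm2 (h.side_of_mem hrho.1.1) (h.side_compl hB.1)
  -- the cycle
  let ι : Type := {C : Finset L // Orb D E B C}
  let G : Type := {z : Finset L × Finset L // Orb D E B z.1 ∧ Germ E z.1 z.2}
  let σ : ι → ι := fun C => ⟨fv D E C.1, orb_fv C.2⟩
  have hσ : Function.Surjective σ := by
    rintro ⟨C, n, rfl⟩
    obtain ⟨q, rfl⟩ : ∃ q, p = q + 1 := ⟨p - 1, by omega⟩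
    refine ⟨⟨(fv D E)^[n + q] B, n + q, rfl⟩, ?_⟩
    apply Subtype.ext
    show fv D E ((fv D E)^[n + q] B) = (fv D E)^[n] B
    rw [← Function.iterate_succ_apply' (fv D E), Nat.succ_eq_add_one, Nat.add_assoc,
      Function.iterate_add_apply, hper]
  have hσi : Function.Injective σ := Finite.injective_iff_surjective.2 hσ
  have hE : ∀ C, Orb D E B C → C ∈ E := fun C hC => (orb_vert h hB hC).1
  let f0 : G → G := fun z => ⟨(fv D E z.1.1, fs D E z.1.1 z.1.2), orb_fv z.2.1,
    h.fs_germ (hE _ z.2.1) z.2.2⟩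
  have hf0 : Function.Injective f0 := by
    rintro ⟨⟨C, g⟩, hC, hg⟩ ⟨⟨C', g'⟩, hC', hg'⟩ heq
    have h1 : (fv D E C, fs D E C g) = (fv D E C', fs D E C' g') := congrArg Subtype.val heq
    rw [Prod.mk.injEq] at h1
    have h2 : C = C' := by
      have : (⟨C, hC⟩ : ι) = ⟨C', hC'⟩ := hσi (Subtype.ext h1.1)
      exact congrArg Subtype.val this
    subst h2
    have h3 : g = g' := h.fs_inj (hE _ hC) hg hg' h1.2
    subst h3
    rfl
  let fe : G ≃ G := Equiv.ofBijective f0 (Finite.injective_iff_bijective.1 hf0)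
  have hfe : ∀ z, fe z = f0 z := fun z => rfl
  let zz : ι → G := fun C => ⟨(C.1, rho D E C.1), C.2, h.rho_germ⟩
  let oo : ι → G := fun C => ⟨(C.1, C.1ᶜ), C.2, Or.inl rfl⟩
  have hne : ∀ C, Orb D E B C → C ≠ B → ∀ g, Germ E C g → KSt D E B C g →
      KSt D E B (fv D E C) (fs D E C g) := fun C hC hCB g hg hKg =>
    kst_fs h hB hR' hax hC hCB hg hKg
  let CD : Cy.CycData ι G :=
    { σ := σ
      top := ⟨B, orb_self B⟩
      pt := fun z => ⟨z.1.1, z.2.1⟩
      f := fe
      o := oo
      z := zz
      K := {z | (z.1.1 = B ∧ z.1.2 = rho D E B) ∨ (z.1.1 ≠ B ∧ KSt D E B z.1.1 z.1.2)}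
      surj := hσ
      pt_f := fun z => rfl
      pt_o := fun C => rfl
      pt_z := fun C => rfl
      f_z := by
        intro C
        apply Subtype.ext
        show (fv D E C.1, fs D E C.1 (rho D E C.1)) = (fv D E C.1, (fv D E C.1)ᶜ)
        rw [h.fs_rho]
      z_mem := by
        intro C
        by_cases hCB : C.1 = B
        · left
          exact ⟨hCB, by show rho D E C.1 = rho D E B; rw [hCB]⟩
        · right
          exact ⟨hCB, Or.inl rfl⟩
      o_mem := by
        intro C hC
        right
        refine ⟨fun h1 => hC (Subtype.ext h1), Or.inr (Or.inl rfl)⟩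
      K_top := by
        rintro ⟨⟨C, g⟩, hC, hg⟩ hKg hpt
        have hCB : C = B := congrArg Subtype.val hpt
        subst hCB
        rcases hKg with h1 | h1
        · apply Subtype.ext
          exact congrArg (Prod.mk C) h1.2
        · exact absurd rfl h1.1
      o_top := by
        intro h1
        have h2 : (B, Bᶜ) = (B, rho D E B) := congrArg Subtype.val h1
        rw [Prod.mk.injEq] at h2
        obtain ⟨r, hr⟩ := h.nonempty hrho.1.1
        have h3 := hr
        rw [← h2.2, mem_compl] at h3
        exact h3 (hrho.1.2.1.1 hr)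
      K_f := by
        rintro ⟨⟨C, g⟩, hC, hg⟩ hKg hpt
        have hfB : fv D E C ≠ B := fun h1 => hpt (Subtype.ext h1)
        right
        refine ⟨hfB, ?_⟩
        show KSt D E B (fv D E C) (fs D E C g)
        rcases hKg with h1 | h1
        · obtain ⟨h2, h3⟩ := h1
          simp only at h2 h3
          subst h2
          rw [h3, h.fs_rho]
          exact Or.inr (Or.inl rfl)
        · exact hne C hC h1.1 g hg h1.2
      K_f_top := by
        rintro ⟨⟨C, g⟩, hC, hg⟩ hKg hpt
        have hfB : fv D E C = B := congrArg Subtype.val hpt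
        have h1 : fs D E C g = rho D E B ∨ fs D E C g = Bᶜ := by
          by_cases hCB : C = B
          · rcases hKg with h1 | h1
            · obtain ⟨h2, h3⟩ := h1
              simp only at h2 h3
              right
              rw [h3, ← h2, h.fs_rho, hfB, h2]
            · exact absurd hCB h1.1
          · rcases hKg with h1 | h1
            · exact absurd h1.1 hCB
            · apply kst_top h hB hR'
              · have := h.fs_germ (hE _ hC) hg
                rwa [hfB] at this
              · have := hne C hC hCB g hg h1.2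
                rwa [hfB] at this
        rcases h1 with h1 | h1
        · left
          apply Subtype.ext
          show (fv D E C, fs D E C g) = (B, rho D E B)
          rw [hfB, h1]
        · right
          apply Subtype.ext
          show (fv D E C, fs D E C g) = (B, Bᶜ)
          rw [hfB, h1]
      exp := by
        rintro ⟨⟨C, g⟩, hC, hg⟩
        obtain ⟨n, hn⟩ := h.exp (orb_vert h hB hC) hg
        have key : ∀ n, (((fe : G → G)^[n] ⟨⟨C, g⟩, hC, hg⟩ : G)).1 = (stp D E)^[n] (C, g) := by
          intro n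
          induction n with
          | zero => rfl
          | succ n ih =>
            rw [Function.iterate_succ_apply', Function.iterate_succ_apply', ← ih]
            rfl
        refine ⟨n, ⟨_, ((fe : G → G)^[n] ⟨⟨C, g⟩, hC, hg⟩ : G).2.1⟩, ?_⟩
        apply Subtype.ext
        refine Prod.ext rfl ?_
        show (((fe : G → G)^[n] ⟨⟨C, g⟩, hC, hg⟩ : G)).1.2 =
          rho D E (((fe : G → G)^[n] ⟨⟨C, g⟩, hC, hg⟩ : G)).1.1
        rw [key n]
        exact hn }
  have hpairs : ∀ g ∈ CD.K, ∀ g' ∈ CD.K, g ≠ g' → CD.pt g = CD.pt g' → K g.1.2 g'.1.2 := by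
    rintro ⟨⟨C, g⟩, hC, hg⟩ hKg ⟨⟨C', g'⟩, hC', hg'⟩ hKg' hgg hpt
    have hCC : C = C' := congrArg Subtype.val hpt
    subst hCC
    have hgg' : g ≠ g' := by
      rintro rfl
      exact hgg rfl
    have hkst : ∀ g, ((C = B ∧ g = rho D E B) ∨ (C ≠ B ∧ KSt D E B C g)) → KSt D E B C g := by
      rintro g (h1 | h1)
      · left
        rw [h1.2, h1.1]
      · exact h1.2
    obtain ⟨m, hm⟩ : ∃ m, (fv D E)^[m] C = B := by
      obtain ⟨n, hn⟩ : Orb D E B C := hC
      refine ⟨(p - 1) * n, ?_⟩
      rw [← hn, ← Function.iterate_add_apply]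
      have h1 : (p - 1) * n + n = n * p := by
        obtain ⟨q, rfl⟩ : ∃ q, p = q + 1 := ⟨p - 1, by omega⟩
        rw [Nat.add_sub_cancel]
        ring
      rw [h1]
      exact (show Function.IsPeriodicPt (fv D E) p B from hper).const_mul n
    exact pairs h hK hB hR' hax hown' hbase m C hC hm g g' hg hg' (hkst g hKg) (hkst g' hKg') hgg'
  have hfin := hK.cycle CD (fun z => z.1.2) (fun C => tv D C.1)
    (by
      rintro ⟨⟨C, g⟩, hC, hg⟩ ⟨⟨C', g'⟩, hC', hg'⟩ hgg hpt
      have hCC : C = C' := congrArg Subtype.val hpt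
      subst hCC
      apply h.germ_disj hg hg'
      intro h1
      apply hgg
      have h2 : g = g' := h1
      subst h2
      rfl)
    (by
      rintro ⟨⟨C, g⟩, hC, hg⟩
      exact h.germ_nonempty (hE _ hC) hg)
    (by
      rintro ⟨⟨C, g⟩, hC, hg⟩
      exact h.germ_side (hE _ hC) hg)
    (by
      intro C
      show D.o ∈ C.1ᶜ
      rw [mem_compl]
      exact h.o_notMem (hE _ C.2))
    (by
      rintro ⟨⟨C, g⟩, hC, hg⟩ hgz
      have hgr : g ≠ rho D E C := by
        rintro rfl
        exact hgz rfl
      exact (h.fs_spec (hE _ hC) hg hgr).2.symm)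
    (by
      rintro ⟨C, hC⟩
      show rho D E C = (D.lp (tv D C) (fv D E C)ᶜᶜ)ᶜ
      rw [compl_compl, h.lp_fv (hE _ hC), dn, compl_compl])
    (by
      rintro ⟨C, hC⟩
      show K Cᶜᶜ {D.o}
      rw [compl_compl]
      exact hown' C hC)
    (by
      show D.Mono E {D.o} Bᶜᶜ
      rw [compl_compl]
      exact hm1)
    (by
      show D.Mono E (rho D E B) Bᶜ
      exact hm2)
    hpairs
  intro n g g' hg hg' hgg
  exact hfin ⟨⟨(fv D E)^[n] B, g⟩, ⟨n, rfl⟩, hg⟩ ⟨⟨(fv D E)^[n] B, g'⟩, ⟨n, rfl⟩, hg'⟩
    (fun h1 => hgg (congrArg (fun z : G => z.1.2) h1)) rfl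

end Cut

end R4
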