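import Pool.Agent.Work.MP_e3f5d9_al_h92.C5
import Pool.Agent.Work.MP_e3f5d9_al_h92.C6

/-!
# C7: completeness of the pair calculus

`R4.Cut.complete`: for a full class `E` of cuts (with `side o = true`) every relation `K` which is
closed under `PairRules` contains all pairs of disjoint sides of `E`.
-/

set_option autoImplicit false
set_option linter.unusedSectionVars false

open Finset

namespace R4

namespace Cut

variable {L : Type} [Fintype L] [DecidableEq L]

variable {D : KS L} {E : Finset (Finset L)} {N : Finset L} {kk : L → ℕ}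

/-! ### Existence of `N` and `kk` -/

open Classical in
lemma exists_kn (h : Std D E) : ∃ (N : Finset L) (kk : L → ℕ), IsKN D N kk := by
  refine ⟨univ.filter fun i => ∃ n, D.side (D.nxt^[n] i) = false,
    fun i => if hi : ∃ n, D.side (D.nxt^[n] i) = false then Nat.find hi else 0, ?_⟩
  have hshift : ∀ i, D.side i = true → ((∃ n, D.side (D.nxt^[n] i) = false) ↔
      ∃ n, D.side (D.nxt^[n] (D.nxt i)) = false) := by
    intro i hi
    constructor
    · rintro ⟨n, hn⟩
      rcases Nat.eq_zero_or_pos n with rfl | h0
      · rw [Function.iterate_zero, id, hi] at hn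
        exact absurd hn (by simp)
      · obtain ⟨n, rfl⟩ : ∃ m, n = m + 1 := ⟨n - 1, by omega⟩
        exact ⟨n, by rwa [Function.iterate_succ_apply] at hn⟩
    · rintro ⟨n, hn⟩
      exact ⟨n + 1, by rwa [Function.iterate_succ_apply]⟩
  constructor
  · intro i hi
    rw [mem_filter]
    exact ⟨mem_univ _, 0, hi⟩
  · intro i hi
    rw [mem_filter, mem_filter]
    simp only [mem_univ, true_and]
    exact hshift i hi
  · intro i hi
    have hex : ∃ n, D.side (D.nxt^[n] i) = false := ⟨0, hi⟩
    simp only [dif_pos hex]
    rw [Nat.find_eq_zero]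
    exact hi
  · intro i hiN hi
    rw [mem_filter] at hiN
    have hex := hiN.2
    have hex' := (hshift i hi).1 hex
    simp only [dif_pos hex, dif_pos hex']
    rw [Nat.find_eq_iff]
    constructor
    · rw [Function.iterate_succ_apply]
      exact Nat.find_spec hex'
    · intro m hm
      rcases Nat.eq_zero_or_pos m with rfl | h0
      · simp [hi]
      · obtain ⟨m, rfl⟩ : ∃ k, m = k + 1 := ⟨m - 1, by omega⟩
        rw [Function.iterate_succ_apply]
        exact Nat.find_min hex' (by omega)
  · exact h.ho
  · rw [mem_filter]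
    refine ⟨mem_univ _, ?_⟩
    by_contra hcon
    push Not at hcon
    have h1 : D.o = D.nxt D.o := by
      apply h.itin
      intro k
      rw [← Function.iterate_succ_apply]
      have h2 := Bool.eq_true_of_not_eq_false (hcon k)
      have h3 := Bool.eq_true_of_not_eq_false (hcon (k + 1))
      rw [h2, h3]
    exact D.nxt_ne _ h1.symm

lemma IsKN.isKk (hk : IsKN D N kk) : D.IsKk N kk :=
  ⟨hk.oN, hk.mem, hk.iff, hk.zero, hk.succ, hk.ho⟩

/-! ### Tops of the cycles -/

lemma iter_vert (h : Std D E) {A : Finset L} (hA : Vert E A) (n : ℕ) :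
    Vert E ((fv D E)^[n] A) := by
  induction n with
  | zero => exact hA
  | succ n ih => rw [Function.iterate_succ_apply']; exact h.fv_vert ih

/-- The sets `dn` are carried along off-axis vertices. -/
lemma carry (h : Std D E) {A : Finset L} (hA : Vert E A) {m : ℕ}
    (hoff : ∀ j, 0 < j → j < m → ¬ Fs D ⊂ (fv D E)^[j] A) :
    ∀ j ≤ m, ∀ i ∈ dn D E A, (0 < j → D.nxt^[j] i ∈ (fv D E)^[j] A) ∧
      (j < m → D.nxt^[j] i ∈ dn D E ((fv D E)^[j] A)) := by
  intro j
  induction j with
  | zero => intro _ i hi; exact ⟨fun h1 => by omega, fun _ => hi⟩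
  | succ j ih =>
    intro hj i hi
    have h1 := (ih (by omega) i hi).2 (by omega)
    have h2 : D.nxt^[j + 1] i ∈ (fv D E)^[j + 1] A := by
      rw [Function.iterate_succ_apply', Function.iterate_succ_apply']
      exact h.nxt_mem_fv (iter_vert h hA j).1 h1
    refine ⟨fun _ => h2, fun h3 => ?_⟩
    rw [Std.dn_off (hoff (j + 1) (by omega) h3)]
    exact h2

/-- A vertex whose `dn` is carried into itself is impossible. -/
lemma carry_absurd (h : Std D E) {A : Finset L} (hA : Vert E A) {m : ℕ} (hm : 0 < m)
    (hoff : ∀ j, 0 < j → j < m → ¬ Fs D ⊂ (fv D E)^[j] A)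
    (hsub : (fv D E)^[m] A ⊆ dn D E A) : False := by
  obtain ⟨i, hi, j, hj, hij⟩ := h.dn_two hA
  apply hij
  apply h.self_map (M := dn D E A) hm _ _ hi hj
  · intro y hy
    exact hsub ((carry h hA hoff m (le_refl _) y hy).1 hm)
  · intro k hk y hy z hz
    rw [h.dn_side (iter_vert h hA k).1 ((carry h hA hoff k hk.le y hy).2 hk),
      h.dn_side (iter_vert h hA k).1 ((carry h hA hoff k hk.le z hz).2 hk)]

/-- The characteristic point of a cycle of vertices different from `alpha`. -/
lemma exists_top (h : Std D E) (hk : IsKN D N kk) {A : Finset L} (hA : Vert E A) {p : ℕ}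
    (hp : 0 < p) (hper : (fv D E)^[p] A = A) (hal : ¬ IsAl D N kk A) :
    ∃ m, (clN D N kk 1)ᶜ ⊂ (fv D E)^[m] A ∧
      ∀ n, (fv D E)^[n] ((fv D E)^[m] A) = (fv D E)^[m] A ∨
        (fv D E)^[n] ((fv D E)^[m] A) ⊆ rho D E ((fv D E)^[m] A) := by
  have hmul : ∀ c, (fv D E)^[p * c] A = A := by
    intro c
    induction c with
    | zero => rfl
    | succ c ih => rw [Nat.mul_succ, Function.iterate_add_apply, hper, ih]
  have hmod : ∀ n, (fv D E)^[n] A = (fv D E)^[n % p] A := by
    intro n
    conv_lhs => rw [← Nat.mod_add_div n p]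
    rw [Function.iterate_add_apply, hmul]
  have hnal : ∀ n, ¬ IsAl D N kk ((fv D E)^[n] A) := by
    intro n hn
    apply hal
    have h1 : ∀ m, (fv D E)^[m] ((fv D E)^[n] A) = (fv D E)^[n] A := by
      intro m
      induction m with
      | zero => rfl
      | succ m ih => rw [Function.iterate_succ_apply', ih]; exact hk.fv_al h hn
    have h2 : (fv D E)^[n] A = A := by
      have h3 := h1 (p * n - n)
      rw [← Function.iterate_add_apply] at h3
      have h4 : n ≤ p * n := Nat.le_mul_of_pos_left n hp
      rw [show p * n - n + n = p * n by omega, hmul] at h3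
      exact h3.symm
    rw [h2] at hn
    exact hn
  -- there is an axis vertex
  have hax : ∃ n, Fs D ⊂ (fv D E)^[n] A := by
    by_contra hcon
    push Not at hcon
    apply carry_absurd h hA hp (fun j _ _ => hcon j)
    rw [hper, Std.dn_off (by simpa using hcon 0)]
  obtain ⟨m1, hm1⟩ := hax
  obtain ⟨m0, hm0, hm0'⟩ := exists_max_image
    ((range p).filter fun k => Fs D ⊂ (fv D E)^[k] A)
    (fun k => ((fv D E)^[k] A).card) ⟨m1 % p, by
      rw [mem_filter, mem_range, ← hmod]
      exact ⟨Nat.mod_lt _ hp, hm1⟩⟩
  rw [mem_filter, mem_range] at hm0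
  set B := (fv D E)^[m0] A with hB
  have hBv : Vert E B := iter_vert h hA m0
  have hmax : ∀ n, Fs D ⊂ (fv D E)^[n] B → (fv D E)^[n] B ⊆ B := by
    intro n hn
    have h1 : (fv D E)^[n] B = (fv D E)^[(n + m0) % p] A := by
      rw [hB, ← Function.iterate_add_apply]
      exact hmod _
    have h2 := hm0' ((n + m0) % p) (by
      rw [mem_filter, mem_range, ← h1]
      exact ⟨Nat.mod_lt _ hp, hn⟩)
    rw [← h1] at h2
    obtain ⟨f, hf⟩ := h.Fs_nonempty
    rcases h.lam' (iter_vert h hBv n).1 hBv.1 (hn.1 hf) (hm0.2.1 hf) with h3 | h3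
    · exact h3
    · exact (eq_of_subset_of_card_le h3 h2).ge
  refine ⟨m0, ?_, ?_⟩
  · -- `B` is above alpha
    have hF0 : clN D N kk 0 ⊆ (clN D N kk 1)ᶜ := by
      intro i hi
      rw [mem_compl]
      intro h2
      have h3 := IsKN.cl_eq hi h2
      have h4 := hk.two_le
      rw [Nat.ModEq, Nat.zero_mod, Nat.mod_eq_of_lt (show 1 < kk D.o + 1 by omega)] at h3
      omega
    have hbad : B ⊆ clN D N kk 0 → False := by
      intro h1
      have hr := h.rho_child hm0.2
      have h2 : (clN D N kk 0)ᶜ ⊂ dn D E B := by
        rw [dn]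
        exact compl_ssubset_compl.2 (lt_of_lt_of_le hr.1.2.1 h1)
      have h3 := h.lp_fv hBv.1
      rw [Std.tv_true hm0.2.2] at h3
      rw [← h3, ← hk.lp_compl_one] at h2
      have ho : D.o ∈ D.lp true (clN D N kk 1)ᶜ := by
        rw [hk.lp_compl_one, mem_compl]
        exact hk.o_notMem (by omega) (by omega)
      have h4 : (clN D N kk 1)ᶜ ⊂ fv D E B := by
        rcases h.lam' (hk.al_mem h) (h.fv_mem hBv.1) (Std.mem_lp.1 ho).2
          (Std.mem_lp.1 (h2.1 ho)).2 with h5 | h5
        · refine lt_of_le_of_ne h5 ?_
          intro h6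
          rw [← h6] at h2
          exact h2.2 (Subset.refl _)
        · exact absurd (IsKN.lp_mono h5) h2.2
      have h5 : Fs D ⊂ fv D E B := lt_of_le_of_lt (hk.Fs_sub.trans hF0) h4
      have h6 := hmax 1 h5
      exact h4.2 (h6.trans (h1.trans hF0))
    rcases hk.axis_cases h hBv.1 hm0.2 with h1 | h1 | h1
    · exact h1
    · exfalso
      have h2 := hnal m0
      rw [← hB] at h2
      apply hbad
      by_contra h3
      apply h2
      refine ⟨h1, ?_⟩
      rintro h4
      exact h3 (h4 ▸ Subset.refl _)
    · exact absurd h1 (fun h2 => hbad h2)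
  · intro n
    by_cases h1 : (fv D E)^[n] B = B
    · exact Or.inl h1
    · right
      have hCv := iter_vert h hBv n
      by_cases h2 : Fs D ⊂ (fv D E)^[n] B
      · exact axis_sub h hCv.1 h2 hm0.2 (lt_of_le_of_ne (hmax n h2) h1)
      · have hr := h.rho_child hm0.2
        rcases h.full.lam _ hCv.1 _ hr.1.1 with h3 | h3 | h3
        · exfalso
          -- the last axis position before `n`
          have hn0 : 0 < n := by
            rcases Nat.eq_zero_or_pos n with rfl | h4
            · exact absurd rfl h1
            · exact h4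
          obtain ⟨a, ha, ha'⟩ := exists_max_image
            ((range n).filter fun k => Fs D ⊂ (fv D E)^[k] B) id ⟨0, by
              rw [mem_filter, mem_range]
              exact ⟨hn0, hm0.2⟩⟩
          rw [mem_filter, mem_range] at ha
          have hav := iter_vert h hBv a
          apply carry_absurd h hav (m := n - a) (by omega)
          · intro j hj1 hj2 hj3
            rw [← Function.iterate_add_apply] at hj3
            have := ha' (j + a) (by
              rw [mem_filter, mem_range]
              exact ⟨by omega, hj3⟩)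
            simp only [id] at this
            omega
          · rw [← Function.iterate_add_apply, show n - a + a = n by omega]
            have h4 : dn D E B ⊆ dn D E ((fv D E)^[a] B) :=
              dn_axis_sub h hav.1 ha.2 hm0.2 (hmax a ha.2)
            refine Subset.trans ?_ h4
            intro i hi
            rw [dn, mem_compl]
            exact disjoint_left.1 h3 hi
        · exact h3
        · have h4 : Fs D ⊆ (fv D E)^[n] B := hr.2.trans h3
          have h5 : Fs D = (fv D E)^[n] B := by
            by_contra h6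
            exact h2 (lt_of_le_of_ne h4 h6)
          rw [← h5]
          exact hr.2

/-! ### The star of a vertex -/

/-- All pairs of germs at `A` are in `K`. -/
def Star (E : Finset (Finset L)) (K : Finset L → Finset L → Prop) (A : Finset L) : Prop :=
  ∀ g g', Germ E A g → Germ E A g' → g ≠ g' → K g g'

variable {K : Finset L → Finset L → Prop}

/-- The parities at `C`. -/
lemma own_gen (h : Std D E) (hK : PairRules D E K) : ∀ n, ∀ C ∈ E, Fintype.card L - C.card = n →
    (∀ V B, Vert E V → Child E V B → C ⊆ B → ¬ D.Mono E B Vᶜ → Star E K V) → K C {D.o} := by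
  intro n
  induction n using Nat.strong_induction_on with
  | _ n ih =>
    intro C hC hn hV
    by_cases hb : C = ({D.o} : Finset L)ᶜ
    · have hs := h.side_of_mem hC
      have h1 : D.Mono E C Cᶜ := KS.Mono.triv _ hs
      have h2 : Cᶜ = {D.o} := by rw [hb, compl_compl]
      have h3 := hK.mono _ _ h1 hs (h.side_compl hC)
      rwa [h2] at h3
    · have hsub : C ⊂ ({D.o} : Finset L)ᶜ := by
        refine lt_of_le_of_ne ?_ hb
        intro i hi
        rw [mem_compl, mem_singleton]
        rintro rfl
        exact h.o_notMem hC hi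
      obtain ⟨hVE, hch, hmin⟩ := h.par_spec hC h.full.base hsub
      set V := par E C with hVdef
      have hVv : Vert E V := ⟨hVE, C, hC, hch.2.1⟩
      have hcard := card_lt_card hch.2.1
      have hcard' := card_le_univ V
      have h1 : K V {D.o} := by
        apply ih (Fintype.card L - V.card) (by omega) V hVE rfl
        intro V' B hV' hB hVB hM
        exact hV V' B hV' hB (hch.2.1.1.trans hVB) hM
      have h2 : K C Vᶜ := by
        by_cases hM : D.Mono E C Vᶜ
        · exact hK.mono _ _ hM (h.side_of_mem hC) (h.side_compl hVE)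
        · exact hV V C hVv hch (Subset.refl _) hM C Vᶜ (Or.inr hch) (Or.inl rfl)
            (child_ne_compl h hch)
      apply hK.glue C {D.o} Vᶜ
      · rw [compl_compl]; exact hch.2.1.1
      · intro i hi
        rw [mem_singleton] at hi
        rw [hi, mem_compl]
        exact h.o_notMem hVE
      · exact h2
      · rw [compl_compl]; exact h1

lemma own (h : Std D E) (hK : PairRules D E K) {A : Finset L} (hA : A ∈ E)
    (hV : ∀ V, VS D E A V → Star E K V) : K (fv D E A) {D.o} :=
  own_gen h hK _ _ (h.fv_mem hA) rfl fun V B h1 h2 h3 h4 => hV V ⟨h1, B, h2, h3, h4⟩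

/-- The star of a vertex is lifted from the star of its image. -/
lemma star_step (h : Std D E) (hK : PairRules D E K) {A : Finset L} (hA : Vert E A)
    (hs : Star E K (fv D E A)) (ho : K (fv D E A) {D.o}) : Star E K A := by
  have hgo : ∀ g, Germ E A g → g ≠ rho D E A → K (fs D E A g) (fv D E A)ᶜ ∧
      K (fs D E A g) {D.o} := by
    intro g hg hne
    have h1 := (h.fs_spec hA.1 hg hne).1
    have h2 := hs _ _ (Or.inr h1) (Or.inl rfl) (child_ne_compl h h1)
    refine ⟨h2, ?_⟩
    apply hK.glue _ _ (fv D E A)ᶜ
    · rw [compl_compl]; exact h1.2.1.1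
    · intro i hi
      rw [mem_singleton] at hi
      rw [hi, mem_compl]
      exact h.o_notMem (h.fv_mem hA.1)
    · exact h2
    · rw [compl_compl]; exact ho
  have hrho : ∀ g, Germ E A g → g ≠ rho D E A → K g (rho D E A) := by
    intro g hg hne
    have h1 := h.fs_spec hA.1 hg hne
    have h2 := hK.lift' _ h1.1.1 _ (h.fv_mem hA.1) h1.1.2.1.1 (hgo g hg hne).1 ho (tv D A)
      (by rw [h1.2]; exact h.germ_nonempty hA.1 hg)
    rw [h1.2, h.lp_fv hA.1, dn, compl_compl] at h2
    exact h2
  intro g g' hg hg' hne
  by_cases h1 : g = rho D E A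
  · by_cases h2 : g' = rho D E A
    · exact absurd (h1.trans h2.symm) hne
    · rw [h1]
      exact hK.symm _ _ (h.germ_disj hg' h.rho_germ h2) (hrho g' hg' h2)
  · by_cases h2 : g' = rho D E A
    · rw [h2]
      exact hrho g hg h1
    · have h3 := h.fs_spec hA.1 hg h1
      have h4 := h.fs_spec hA.1 hg' h2
      have h5 : fs D E A g ≠ fs D E A g' := fun h6 => hne (h.fs_inj hA.1 hg hg' h6)
      have h6 := hK.lift _ h3.1.1 _ h4.1.1 (h.child_disj h3.1 h4.1 h5)
        (hs _ _ (Or.inr h3.1) (Or.inr h4.1) h5) (hgo g hg h1).2 (hgo g' hg' h2).2 (tv D A)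
        (by rw [h3.2]; exact h.germ_nonempty hA.1 hg)
        (by rw [h4.2]; exact h.germ_nonempty hA.1 hg')
      rw [h3.2, h4.2] at h6
      exact h6

lemma cl_congr {a b : ℕ} (hab : a ≡ b [MOD kk D.o + 1]) : clN D N kk a = clN D N kk b := by
  ext i
  rw [IsKN.mem_cl, IsKN.mem_cl]
  have h1 : kk i + a ≡ kk i + b [MOD kk D.o + 1] := Nat.ModEq.add_left _ hab
  have h2 : kk D.o + 1 ∣ kk i + a ↔ kk D.o + 1 ∣ kk i + b := by
    rw [Nat.dvd_iff_mod_eq_zero, Nat.dvd_iff_mod_eq_zero, h1]
  rw [h2]

/-- The germs at `alpha` are the classes. -/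
lemma germ_al (h : Std D E) (hk : IsKN D N kk) {A g : Finset L} (hA : IsAl D N kk A)
    (hg : Germ E A g) : ∃ j, g = clN D N kk j := by
  rcases hg with hg | hg
  · exact ⟨1, by rw [hg, hA.1, compl_compl]⟩
  · have h2k := hk.two_le
    obtain ⟨j, hj⟩ := hk.arm h hg.1
    rcases hj with hj | hj
    · -- reduce `j`
      have hgn := h.nonempty hg.1
      obtain ⟨x, hx⟩ := hgn
      have hj1 : ¬ j ≡ 1 [MOD kk D.o + 1] := by
        intro h1
        have h2 := hg.2.1.1 hx
        rw [hA.1, mem_compl] at h2
        apply h2
        rw [← cl_congr h1]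
        exact hj hx
      obtain ⟨j', hj'0, hj'1, hjj⟩ : ∃ j', 2 ≤ j' ∧ j' ≤ kk D.o + 1 ∧
          j' ≡ j [MOD kk D.o + 1] := by
        by_cases h0 : j % (kk D.o + 1) = 0
        · refine ⟨kk D.o + 1, by omega, le_refl _, ?_⟩
          rw [Nat.ModEq, Nat.mod_self, h0]
        · refine ⟨j % (kk D.o + 1), ?_, (Nat.mod_lt _ (by omega)).le, Nat.mod_modEq _ _⟩
          by_contra h3
          apply hj1
          rw [Nat.ModEq, Nat.mod_eq_of_lt (show 1 < kk D.o + 1 by omega)]
          omega
      have hE := hk.cl_mem h hj'0 hj'1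
      rw [← cl_congr hjj] at hj
      refine ⟨j', ?_⟩
      by_contra hne
      apply hg.2.2 _ hE (lt_of_le_of_ne hj hne)
      refine lt_of_le_of_ne ?_ ?_
      · rw [hA.1]
        intro i hi
        rw [mem_compl]
        intro h3
        exact hj1 (hjj.symm.trans (IsKN.cl_eq hi h3))
      · intro h3
        by_cases h4 : j' = kk D.o + 1
        · rw [h4, IsKN.cl_zero] at h3
          exact hA.2 h3.symm
        · obtain ⟨f, hf⟩ := h.Fs_nonempty
          have h5 := hk.Fs_sub hf
          have h6 : f ∈ clN D N kk j' := by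
            rw [h3, hA.1, mem_compl]
            intro h7
            have h8 := IsKN.cl_eq h5 h7
            rw [Nat.ModEq, Nat.zero_mod, Nat.mod_eq_of_lt (show 1 < kk D.o + 1 by omega)] at h8
            omega
          have h9 := IsKN.cl_eq h5 h6
          rw [Nat.ModEq, Nat.zero_mod, Nat.mod_eq_of_lt (show j' < kk D.o + 1 by omega)] at h9
          omega
    · exfalso
      have h1 : D.o ∈ clN D N kk j := hj (mem_compl.2 (h.o_notMem hg.1))
      have h2 := IsKN.cl_eq h1 hk.o_mem
      rw [cl_congr h2] at hj
      have h3 : A ⊆ g := by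
        rw [hA.1]
        intro i hi
        by_contra h4
        exact (mem_compl.1 hi) (hj (mem_compl.2 h4))
      exact hg.2.1.2 h3

lemma al_star (h : Std D E) (hk : IsKN D N kk) (hK : PairRules D E K) {A : Finset L}
    (hA : IsAl D N kk A) : Star E K A := by
  intro g g' hg hg' hne
  obtain ⟨a, rfl⟩ := germ_al h hk hA hg
  obtain ⟨b, rfl⟩ := germ_al h hk hA hg'
  exact hK.alpha N kk hk.isKk a b fun h1 => hne (cl_congr h1)

/-! ### The recursion -/

/-- Steps of the dependency graph. -/
def Dep (D : KS L) (E : Finset (Finset L)) (X Y : Finset L) : Prop :=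
  Y = fv D E X ∨ VS D E X Y

lemma dep_vert (h : Std D E) {X Y : Finset L} (hX : Vert E X) (hd : Dep D E X Y) :
    Vert E Y := by
  rcases hd with rfl | hd
  · exact h.fv_vert hX
  · exact hd.1

lemma exists_walk {X Y : Finset L} (hr : Relation.ReflTransGen (Dep D E) X Y) :
    ∃ (n : ℕ) (y : ℕ → Finset L), y 0 = X ∧ y n = Y ∧ ∀ k < n, Dep D E (y k) (y (k + 1)) := by
  induction hr using Relation.ReflTransGen.head_induction_on with
  | refl => exact ⟨0, fun _ => Y, rfl, rfl, fun k hk => by omega⟩
  | @head a c hd _ ih =>
    obtain ⟨n, y, h0, hn, hy⟩ := ih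
    refine ⟨n + 1, fun k => Nat.casesOn k a fun m => y m, rfl, hn, ?_⟩
    intro k hk
    cases k with
    | zero => simpa [h0] using hd
    | succ k => exact hy k (by omega)

lemma closed (h : Std D E) (hk : IsKN D N kk) {X V : Finset L} (hX : Vert E X)
    (hd : Dep D E X V) (hr : Relation.ReflTransGen (Dep D E) V X) :
    V = fv D E X ∧ ∃ p, 0 < p ∧ (fv D E)^[p] X = X := by
  obtain ⟨n, y, h0, hn, hy⟩ := exists_walk hr
  set z : ℕ → Finset L := fun k => Nat.casesOn k X fun m => y m with hz
  have hz0 : z 0 = X := rfl
  have hzs : ∀ k, z (k + 1) = y k := fun k => rfl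
  have hstep : ∀ k < n + 1, Dep D E (z k) (z (k + 1)) := by
    intro k hk
    cases k with
    | zero => rw [hz0, hzs, h0]; exact hd
    | succ k => rw [hzs, hzs]; exact hy k (by omega)
  have hvert : ∀ k ≤ n + 1, Vert E (z k) := by
    intro k
    induction k with
    | zero => intro _; exact hX
    | succ k ih => intro hk; exact dep_vert h (ih (by omega)) (hstep k (by omega))
  set x : ℕ → Finset L := fun k => z (k % (n + 1)) with hx
  have hx1 : ∀ k, x (k + 1) = z (k % (n + 1) + 1) := by
    intro k
    have hlt := Nat.mod_lt k (show 0 < n + 1 by omega)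
    show z ((k + 1) % (n + 1)) = _
    rw [Nat.add_mod]
    rcases Nat.lt_or_ge (k % (n + 1)) n with h1 | h1
    · rw [Nat.mod_eq_of_lt (show 1 < n + 1 by omega), Nat.mod_eq_of_lt (by omega)]
    · have h2 : k % (n + 1) = n := by omega
      rw [h2]
      have h3 : (n + 1 % (n + 1)) % (n + 1) = 0 := by
        rw [Nat.add_mod_mod, Nat.mod_self]
      rw [h3, hz0, hzs, hn]
  have hw : Walk D E x := by
    constructor
    · intro k
      exact hvert _ (Nat.mod_lt _ (by omega)).le
    · intro k
      rw [hx1]
      exact hstep _ (Nat.mod_lt _ (by omega))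
  have hper : ∀ k, x (k + (n + 1)) = x k := by
    intro k
    show z _ = z _
    rw [Nat.add_mod_right]
  have hac := fun k => h.acyclic hk hw (show 0 < n + 1 by omega) hper k
  have hx0 : x 0 = X := by
    show z (0 % (n + 1)) = X
    rw [Nat.zero_mod, hz0]
  refine ⟨?_, n + 1, by omega, ?_⟩
  · have h1 := hx1 0
    rw [hac 0, hx0, Nat.zero_mod, hzs, h0] at h1
    exact h1.symm
  · have h1 : ∀ k, x k = (fv D E)^[k] X := by
      intro k
      induction k with
      | zero => exact hx0
      | succ k ih => rw [hac, ih, Function.iterate_succ_apply']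
    rw [← h1]
    have := hper 0
    rw [zero_add] at this
    rw [this, hx0]

lemma vs_ne {X V : Finset L} (hV : VS D E X V) : V ≠ fv D E X := by
  rintro rfl
  obtain ⟨_, B, hB, hsub, _⟩ := hV
  exact hB.2.1.2 hsub

/-- All pairs of germs at all vertices. -/
theorem star_all (h : Std D E) (hk : IsKN D N kk) (hK : PairRules D E K) :
    ∀ A, Vert E A → Star E K A := by
  classical
  have key : ∀ n, ∀ A, Vert E A →
      (univ.filter fun V => Relation.ReflTransGen (Dep D E) A V).card = n → Star E K A := by
    intro n
    induction n using Nat.strong_induction_on with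
    | _ n ih =>
      intro A hA hn
      -- vertices with smaller reach
      have hsmall : ∀ X V, Relation.ReflTransGen (Dep D E) A X → Vert E V → Dep D E X V →
          ¬ Relation.ReflTransGen (Dep D E) V X → Star E K V := by
        intro X V hAX hV hd hn2
        refine ih _ ?_ V hV rfl
        rw [← hn]
        apply card_lt_card
        rw [Finset.ssubset_iff_of_subset]
        · exact ⟨X, by simpa using hAX, by simpa using hn2⟩
        · intro W hW
          rw [mem_filter] at hW ⊢
          exact ⟨mem_univ _, (hAX.tail hd).trans hW.2⟩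
      by_cases hcyc : Relation.ReflTransGen (Dep D E) (fv D E A) A
      · obtain ⟨_, p, hp, hper⟩ := closed h hk hA (Or.inl rfl) hcyc
        by_cases hal : IsAl D N kk A
        · exact al_star h hk hK hal
        · obtain ⟨m, htop, hR⟩ := exists_top h hk hA hp hper hal
          have hmul : ∀ c, (fv D E)^[p * c] A = A := by
            intro c
            induction c with
            | zero => rfl
            | succ c ih => rw [Nat.mul_succ, Function.iterate_add_apply, hper, ih]
          have hreach : ∀ n, Relation.ReflTransGen (Dep D E) A ((fv D E)^[n] A) := by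
            intro n
            induction n with
            | zero => exact Relation.ReflTransGen.refl
            | succ n ih =>
              rw [Function.iterate_succ_apply']
              exact ih.tail (Or.inl rfl)
          have hownA : ∀ n, K ((fv D E)^[n + 1] A) {D.o} := by
            intro n
            rw [Function.iterate_succ_apply']
            have hXv := iter_vert h hA n
            apply own h hK hXv.1
            intro V hV
            refine hsmall _ V (hreach n) hV.1 (Or.inr hV) ?_
            intro hback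
            exact vs_ne hV (closed h hk hXv (Or.inr hV) hback).1
          have hownA' : ∀ n, K ((fv D E)^[n] A) {D.o} := by
            intro n
            cases n with
            | zero =>
              have h1 := hownA (p - 1)
              rw [show p - 1 + 1 = p by omega, hper] at h1
              exact h1
            | succ n => exact hownA n
          have hperB : (fv D E)^[p] ((fv D E)^[m] A) = (fv D E)^[m] A := by
            rw [← Function.iterate_add_apply, Nat.add_comm, Function.iterate_add_apply, hper]
          have hstar := h.cyc_star hk hK (iter_vert h hA m) hp hperB htop hR (by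
            intro n
            rw [← Function.iterate_add_apply]
            exact hownA' _)
          -- `A` is in the orbit of the top
          have hle : m ≤ p * m := Nat.le_mul_of_pos_left m hp
          have hback : (fv D E)^[p * m - m] ((fv D E)^[m] A) = A := by
            rw [← Function.iterate_add_apply, show p * m - m + m = p * m by omega, hmul]
          have h2 := hstar (p * m - m)
          rw [hback] at h2
          exact h2
      · have h1 : Star E K (fv D E A) :=
          hsmall A _ Relation.ReflTransGen.refl (h.fv_vert hA) (Or.inl rfl) hcyc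
        apply star_step h hK hA h1
        apply own h hK hA.1
        intro V hV
        refine hsmall A V Relation.ReflTransGen.refl hV.1 (Or.inr hV) ?_
        intro hback
        exact vs_ne hV (closed h hk hA (Or.inr hV) hback).1
  intro A hA
  exact key _ A hA rfl

/-- The vertical pairs. -/
lemma vertical (h : Std D E) (hK : PairRules D E K) (hs : ∀ A, Vert E A → Star E K A)
    {B : Finset L} (hB : B ∈ E) : ∀ n, ∀ A ∈ E, Fintype.card L - A.card = n → A ⊂ B →
    K A Bᶜ := by
  intro n
  induction n using Nat.strong_induction_on with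
  | _ n ih =>
    intro A hA hn hAB
    obtain ⟨hVE, hch, hmin⟩ := h.par_spec hA hB hAB
    set V := par E A with hVdef
    have hVv : Vert E V := ⟨hVE, A, hA, hch.2.1⟩
    have h1 : K A Vᶜ := hs V hVv A Vᶜ (Or.inr hch) (Or.inl rfl) (child_ne_compl h hch)
    rcases eq_or_ne V B with h2 | h2
    · rwa [h2] at h1
    · have hVB : V ⊂ B := lt_of_le_of_ne (hmin B hB hAB) h2
      have hcard := card_lt_card hch.2.1
      have hcard' := card_le_univ V
      have h3 := ih (Fintype.card L - V.card) (by omega) V hVE rfl hVB
      apply hK.glue A Bᶜ Vᶜ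
      · rw [compl_compl]; exact hch.2.1.1
      · exact compl_subset_compl.2 hVB.1
      · exact h1
      · rw [compl_compl]; exact h3

end Cut

open Cut in
/-- Completeness of the pair calculus. -/
theorem complete {L : Type} [Fintype L] [DecidableEq L] {D : KS L} {E : Finset (Finset L)}
    (hE : D.Full E) (ho : D.side D.o = true) (K : Finset L → Finset L → Prop)
    (hK : PairRules D E K) :
    (∀ A ∈ E, ∀ B ∈ E, Disjoint A B → K A B) ∧ (∀ A ∈ E, ∀ B ∈ E, A ⊂ B → K A Bᶜ) := by
  have h : Std D E := ⟨hE, ho⟩
  obtain ⟨N, kk, hk⟩ := exists_kn h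
  have hs := star_all h hk hK
  have hv : ∀ A ∈ E, ∀ B ∈ E, A ⊂ B → K A Bᶜ := fun A hA B hB hAB =>
    vertical h hK hs hB _ A hA rfl hAB
  refine ⟨?_, hv⟩
  intro A hA B hB hAB
  have hAn := h.nonempty hA
  have hBn := h.nonempty hB
  have hsub : A ∪ B ⊆ ({D.o} : Finset L)ᶜ := by
    intro i hi
    rw [mem_compl, mem_singleton]
    rintro rfl
    rcases mem_union.1 hi with h1 | h1
    · exact h.o_notMem hA h1
    · exact h.o_notMem hB h1
  obtain ⟨hV, hABV, hmin⟩ := h.up_spec (hAn.mono subset_union_left) h.full.base hsub
  set V := up E (A ∪ B) with hVdef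
  have hAV : A ⊂ V := by
    refine lt_of_le_of_ne (subset_union_left.trans hABV) ?_
    rintro h1
    obtain ⟨b, hb⟩ := hBn
    exact disjoint_left.1 hAB (h1 ▸ hABV (mem_union_right _ hb)) hb
  have hBV : B ⊂ V := by
    refine lt_of_le_of_ne (subset_union_right.trans hABV) ?_
    rintro h1
    obtain ⟨a, ha⟩ := hAn
    exact disjoint_left.1 hAB ha (h1 ▸ hABV (mem_union_left _ ha))
  obtain ⟨a, ha, haA⟩ := h.exists_child hA hAV
  obtain ⟨b, hb, hbB⟩ := h.exists_child hB hBV
  have hab : a ≠ b := by
    rintro rfl
    exact ha.2.1.2 (hmin a ha.1 (union_subset haA hbB))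
  have hdis := h.child_disj ha hb hab
  have hVv : Vert E V := ⟨hV, A, hA, hAV⟩
  have h1 : K a b := hs V hVv a b (Or.inr ha) (Or.inr hb) hab
  have h2 : K A b := by
    rcases eq_or_ne A a with h3 | h3
    · rw [h3]; exact h1
    · apply hK.glue A b aᶜ
      · rw [compl_compl]; exact haA
      · intro i hi
        rw [mem_compl]
        exact fun h4 => disjoint_left.1 hdis h4 hi
      · exact hv A hA a ha.1 (lt_of_le_of_ne haA h3)
      · rw [compl_compl]; exact h1
  have hdis2 : Disjoint A b := disjoint_of_subset_left haA hdis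
  have h3 : K b A := hK.symm _ _ hdis2 h2
  have h4 : K B A := by
    rcases eq_or_ne B b with h5 | h5
    · rw [h5]; exact h3
    · apply hK.glue B A bᶜ
      · rw [compl_compl]; exact hbB
      · intro i hi
        rw [mem_compl]
        exact fun h6 => disjoint_left.1 hdis2 hi h6
      · exact hv B hB b hb.1 (lt_of_le_of_ne hbB h5)
      · rw [compl_compl]; exact h3
  exact hK.symm _ _ hAB.symm h4

end R4
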