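import Pool.Agent.Work.MP_e3f5d9_al_h92.C2

/-!
# C3: the vertex `alpha` and the monotone pairs on the axis

`N` is the set of the letters whose itinerary is not constantly `true`, `kk i` the number of leading
`true` sides of the letter `i` of `N`, `q = kk o + 1`, `cls j` the arm number `j` at `alpha` (`o` is in
the arm `1`).
-/

set_option autoImplicit false
set_option linter.unusedSectionVars false

open Finset

namespace R4

namespace Cut

variable {L : Type} [Fintype L] [DecidableEq L]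

/-- `N` is the set of the letters whose itinerary is not constantly `true`, `kk i` is the number of
leading `true` sides of the itinerary of the letter `i` of `N`. -/
structure IsKN (D : KS L) (N : Finset L) (kk : L → ℕ) : Prop where
  mem : ∀ i, D.side i = false → i ∈ N
  iff : ∀ i, D.side i = true → (i ∈ N ↔ D.nxt i ∈ N)
  zero : ∀ i, D.side i = false → kk i = 0
  succ : ∀ i ∈ N, D.side i = true → kk i = kk (D.nxt i) + 1
  ho : D.side D.o = true
  oN : D.o ∈ N

/-- The arm number `j` at `alpha`. -/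
def clN (D : KS L) (N : Finset L) (kk : L → ℕ) (j : ℕ) : Finset L :=
  N.filter fun i => kk D.o + 1 ∣ kk i + j

/-- Pull-back along the first return of the arm of `o`. -/
def phN (D : KS L) (kk : L → ℕ) (Y : Finset L) : Finset L :=
  (fun X => D.lp true X)^[kk D.o] (D.lp true Yᶜ)ᶜ

variable {D : KS L} {E : Finset (Finset L)} {N : Finset L} {kk : L → ℕ}

namespace IsKN

lemma two_le (hk : IsKN D N kk) : 2 ≤ kk D.o + 1 := by
  have := hk.succ _ hk.oN hk.ho
  omega

lemma mem_cl {i : L} {j : ℕ} : i ∈ clN D N kk j ↔ i ∈ N ∧ kk D.o + 1 ∣ kk i + j := by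
  simp [clN]

lemma cl_mod (j c : ℕ) : clN D N kk (j + c * (kk D.o + 1)) = clN D N kk j := by
  ext i
  rw [mem_cl, mem_cl, ← Nat.add_assoc, Nat.dvd_add_left (Dvd.intro_left c rfl)]

lemma cl_zero : clN D N kk (kk D.o + 1) = clN D N kk 0 := by
  have := cl_mod (D := D) (N := N) (kk := kk) 0 1
  rwa [Nat.zero_add, Nat.one_mul] at this

lemma Fs_sub (hk : IsKN D N kk) : Fs D ⊆ clN D N kk 0 := by
  intro i hi
  rw [Std.mem_Fs] at hi
  rw [mem_cl, hk.zero i hi]
  exact ⟨hk.mem i hi, dvd_zero _⟩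

lemma o_mem (hk : IsKN D N kk) : D.o ∈ clN D N kk 1 := by
  rw [mem_cl]; exact ⟨hk.oN, dvd_refl _⟩

/-- An element of two arms. -/
lemma cl_eq {a b : ℕ} {i : L} (ha : i ∈ clN D N kk a) (hb : i ∈ clN D N kk b) :
    a ≡ b [MOD kk D.o + 1] := by
  rw [mem_cl] at ha hb
  have h1 := (Nat.modEq_zero_iff_dvd.2 ha.2).trans (Nat.modEq_zero_iff_dvd.2 hb.2).symm
  exact Nat.ModEq.add_left_cancel' _ h1

lemma o_notMem (hk : IsKN D N kk) {j : ℕ} (hj : j < kk D.o + 1 + 1) (h1 : j ≠ 1) :
    D.o ∉ clN D N kk j := by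
  intro h2
  have h3 := cl_eq h2 hk.o_mem
  have h4 := hk.two_le
  rw [Nat.ModEq, Nat.mod_eq_of_lt (show 1 < kk D.o + 1 by omega)] at h3
  rcases Nat.lt_or_ge j (kk D.o + 1) with h5 | h5
  · rw [Nat.mod_eq_of_lt h5] at h3; exact h1 h3
  · have : j = kk D.o + 1 := by omega
    rw [this, Nat.mod_self] at h3
    omega

/-- The class goes up by one under `nxt` on the side `true`. -/
lemma lp_cl (hk : IsKN D N kk) (j : ℕ) :
    D.lp true (clN D N kk (j + 1)) = (clN D N kk j).filter fun i => D.side i = true := by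
  ext i
  rw [Std.mem_lp, mem_filter, mem_cl, mem_cl]
  constructor
  · rintro ⟨h1, h2, h3⟩
    have h4 := (hk.iff i h1).2 h2
    refine ⟨⟨h4, ?_⟩, h1⟩
    rw [hk.succ i h4 h1]
    have : kk (D.nxt i) + 1 + j = kk (D.nxt i) + (j + 1) := by ring
    rwa [this]
  · rintro ⟨⟨h1, h2⟩, h3⟩
    refine ⟨h3, (hk.iff i h3).1 h1, ?_⟩
    rw [hk.succ i h1 h3] at h2
    have : kk (D.nxt i) + (j + 1) = kk (D.nxt i) + 1 + j := by ring
    rwa [this]

lemma lp_cl' (hk : IsKN D N kk) {j : ℕ} (h0 : 1 ≤ j) (hj : j < kk D.o + 1) :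
    D.lp true (clN D N kk (j + 1)) = clN D N kk j := by
  rw [hk.lp_cl]
  apply filter_true_of_mem
  intro i hi
  by_contra hs
  have h1 := hk.Fs_sub (Std.mem_Fs.2 (by simpa using hs))
  have h2 := cl_eq h1 hi
  rw [Nat.ModEq, Nat.zero_mod, Nat.mod_eq_of_lt hj] at h2
  omega

lemma lp_mono {t : Bool} {X Y : Finset L} (h : X ⊆ Y) : D.lp t X ⊆ D.lp t Y := by
  intro i hi
  rw [Std.mem_lp] at hi ⊢
  exact ⟨hi.1, h hi.2⟩

lemma lp_compl_one (hk : IsKN D N kk) : D.lp true (clN D N kk 1)ᶜ = (clN D N kk 0)ᶜ := by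
  ext i
  rw [Std.mem_lp, mem_compl, mem_compl]
  constructor
  · rintro ⟨h1, h2⟩ h3
    apply h2
    have : i ∈ (clN D N kk 0).filter fun i => D.side i = true := mem_filter.2 ⟨h3, h1⟩
    rw [← hk.lp_cl, Std.mem_lp] at this
    exact this.2
  · intro h1
    have hs : D.side i = true := by
      by_contra hs
      exact h1 (hk.Fs_sub (Std.mem_Fs.2 (by simpa using hs)))
    refine ⟨hs, fun h2 => h1 ?_⟩
    have : i ∈ D.lp true (clN D N kk (0 + 1)) := Std.mem_lp.2 ⟨hs, h2⟩
    rw [hk.lp_cl] at this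
    exact (mem_filter.1 this).1

lemma iter_lp {m : ℕ} {Z : Finset L} {i : L} :
    i ∈ (fun X => D.lp true X)^[m] Z ↔ (∀ t < m, D.side (D.nxt^[t] i) = true) ∧
      D.nxt^[m] i ∈ Z := by
  induction m generalizing i with
  | zero => simp
  | succ m ih =>
    rw [Function.iterate_succ_apply', Std.mem_lp, ih]
    constructor
    · rintro ⟨h1, h2, h3⟩
      refine ⟨?_, ?_⟩
      · intro t ht
        rcases Nat.eq_zero_or_pos t with rfl | h0
        · exact h1
        · obtain ⟨t, rfl⟩ : ∃ k, t = k + 1 := ⟨t - 1, by omega⟩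
          rw [Function.iterate_succ_apply]
          exact h2 t (by omega)
      · rw [Function.iterate_succ_apply]; exact h3
    · rintro ⟨h1, h2⟩
      refine ⟨h1 0 (by omega), ?_, ?_⟩
      · intro t ht
        have := h1 (t + 1) (by omega)
        rwa [Function.iterate_succ_apply] at this
      · rwa [Function.iterate_succ_apply] at h2

lemma iter_kk (hk : IsKN D N kk) {i : L} (hi : i ∈ N) {m : ℕ} (hm : m ≤ kk i) :
    D.nxt^[m] i ∈ N ∧ kk (D.nxt^[m] i) + m = kk i ∧ ∀ t < m, D.side (D.nxt^[t] i) = true := by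
  induction m with
  | zero => exact ⟨hi, rfl, fun t ht => by omega⟩
  | succ m ih =>
    obtain ⟨h1, h2, h3⟩ := ih (by omega)
    have hs : D.side (D.nxt^[m] i) = true := by
      by_contra hs
      rw [hk.zero _ (by simpa using hs)] at h2
      omega
    rw [Function.iterate_succ_apply']
    refine ⟨(hk.iff _ hs).1 h1, ?_, ?_⟩
    · have := hk.succ _ h1 hs
      omega
    · intro t ht
      rcases Nat.lt_or_ge t m with h4 | h4
      · exact h3 t h4
      · have : t = m := by omega
        rw [this]; exact hs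

lemma mem_ph {Y : Finset L} {i : L} : i ∈ phN D kk Y ↔
    (∀ t < kk D.o, D.side (D.nxt^[t] i) = true) ∧
      ¬ (D.side (D.nxt^[kk D.o] i) = true ∧ D.nxt^[kk D.o + 1] i ∉ Y) := by
  rw [phN, iter_lp, mem_compl, Std.mem_lp, mem_compl, Function.iterate_succ_apply']

lemma o_mem_ph (hk : IsKN D N kk) (Y : Finset L) : D.o ∈ phN D kk Y := by
  have h1 := hk.iter_kk hk.oN (le_refl _)
  rw [mem_ph]
  refine ⟨h1.2.2, fun h2 => ?_⟩
  have h3 := hk.succ _ h1.1 h2.1
  omega

lemma ph_mono {Y Y' : Finset L} (h : Y ⊆ Y') : phN D kk Y ⊆ phN D kk Y' := by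
  intro i hi
  rw [mem_ph] at hi ⊢
  refine ⟨hi.1, fun h1 => hi.2 ⟨h1.1, fun h2 => h1.2 (h h2)⟩⟩

lemma iter_sub (hk : IsKN D N kk) {m : ℕ} (hm : m ≤ kk D.o) {V : Finset L}
    (hV : V ⊆ clN D N kk (m + 1)) : (fun X => D.lp true X)^[m] V ⊆ clN D N kk 1 := by
  induction m generalizing V with
  | zero => exact hV
  | succ m ih =>
    rw [Function.iterate_succ_apply]
    apply ih (by omega)
    rw [← hk.lp_cl' (by omega) (by omega)]
    exact lp_mono hV

lemma zset_sub (hk : IsKN D N kk) {Y : Finset L} (hY : Y ⊆ clN D N kk 1) :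
    (D.lp true Yᶜ)ᶜ ⊆ clN D N kk (kk D.o + 1) := by
  rw [cl_zero, ← compl_compl (clN D N kk 0), ← hk.lp_compl_one, compl_subset_compl]
  exact lp_mono (compl_subset_compl.2 hY)

lemma ph_sub (hk : IsKN D N kk) {Y : Finset L} (hY : Y ⊆ clN D N kk 1) :
    phN D kk Y ⊆ clN D N kk 1 := hk.iter_sub (le_refl _) (hk.zset_sub hY)

lemma mem_ph_iter (hk : IsKN D N kk) {Y : Finset L} (m : ℕ) {i : L} (hi : i ∈ clN D N kk 1)
    (hm : kk i < m * (kk D.o + 1)) : i ∈ (phN D kk)^[m] Y := by
  induction m generalizing i with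
  | zero => omega
  | succ m ih =>
    rw [Function.iterate_succ_apply', mem_ph]
    rw [mem_cl] at hi
    obtain ⟨c, hc⟩ := hi.2
    have hc1 : 1 ≤ c := by
      rcases Nat.eq_zero_or_pos c with rfl | h0
      · omega
      · exact h0
    have hle : kk D.o ≤ kk i := by nlinarith
    have h1 := hk.iter_kk hi.1 hle
    refine ⟨h1.2.2, ?_⟩
    rintro ⟨h2, h3⟩
    apply h3
    have h4 := hk.succ _ h1.1 h2
    have hle' : kk D.o + 1 ≤ kk i := by omega
    have h5 := hk.iter_kk hi.1 hle'
    apply ih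
    · rw [mem_cl]
      refine ⟨h5.1, ?_⟩
      have h6 : kk D.o + 1 ∣ (kk (D.nxt^[kk D.o + 1] i) + 1) + (kk D.o + 1) := by
        have : kk (D.nxt^[kk D.o + 1] i) + 1 + (kk D.o + 1) = kk i + 1 := by
          have := h5.2.1
          omega
        rw [this]; exact hi.2
      exact (Nat.dvd_add_left (dvd_refl _)).1 h6
    · have := h5.2.1
      rw [Nat.add_mul, Nat.one_mul] at hm
      omega

lemma iter_ph_sub (hk : IsKN D N kk) {Y : Finset L} (hY : Y ⊆ clN D N kk 1) (m : ℕ) :
    (phN D kk)^[m] Y ⊆ clN D N kk 1 := by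
  induction m with
  | zero => exact hY
  | succ m ih => rw [Function.iterate_succ_apply']; exact hk.ph_sub ih

lemma iter_top (hk : IsKN D N kk) : ∃ m, ∀ Y, Y ⊆ clN D N kk 1 →
    (phN D kk)^[m] Y = clN D N kk 1 := by
  refine ⟨univ.sup kk + 1, fun Y hY => ?_⟩
  apply Subset.antisymm (hk.iter_ph_sub hY _)
  intro i hi
  apply hk.mem_ph_iter _ hi
  have h3 : kk i ≤ univ.sup kk := le_sup (mem_univ i)
  nlinarith

/-! ### Monotone pairs -/

lemma mono_chain (hk : IsKN D N kk) {m : ℕ} (hm : m ≤ kk D.o) {V W : Finset L}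
    (hV : V ⊆ clN D N kk (m + 1)) (hWV : W ⊆ V)
    (hM : D.Mono E ((fun X => D.lp true X)^[m] V)ᶜ ((fun X => D.lp true X)^[m] W)) :
    D.Mono E Vᶜ W := by
  induction m generalizing V W with
  | zero => exact hM
  | succ m ih =>
    rw [Function.iterate_succ_apply, Function.iterate_succ_apply] at hM
    have h1 : D.lp true V ⊆ clN D N kk (m + 1) := by
      rw [← hk.lp_cl' (by omega) (by omega)]
      exact lp_mono hV
    have h2 := ih (by omega) h1 (lp_mono hWV) hM
    apply KS.Mono.image true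
    · rw [mem_compl]
      intro h3
      exact hk.o_notMem (by omega) (by omega) (hV h3)
    · rw [disjoint_left]
      intro x hx hx'
      rw [mem_compl] at hx
      exact hx (hWV hx')
    · rw [compl_compl]; exact h2

lemma mono_turn (hk : IsKN D N kk) {Y V : Finset L} (ho : D.o ∈ Y) (hYV : Y ⊆ V)
    (hV : V ⊆ clN D N kk 1) (hM : D.Mono E (phN D kk V)ᶜ (phN D kk Y)) : D.Mono E Vᶜ Y := by
  apply KS.Mono.symm
  apply KS.Mono.image true _ _ ho
  · rw [disjoint_left]
    intro x hx hx'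
    rw [mem_compl] at hx'
    exact hx' (hYV hx)
  · apply KS.Mono.symm
    rw [← compl_compl (D.lp true Vᶜ)]
    apply hk.mono_chain (le_refl _) (hk.zset_sub hV) _ hM
    rw [compl_subset_compl]
    exact lp_mono (compl_subset_compl.2 hYV)

/-- The arm of `o` is a side. -/
lemma side_ph (h : Std D E) (hk : IsKN D N kk) {Y : Finset L} (ho : D.o ∈ Y)
    (hY : Y ⊆ clN D N kk 1) (hS : D.Side E Y) : D.Side E (phN D kk Y) := by
  have hYE : Yᶜ ∈ E := by
    rcases Std.side_cases hS with h1 | h1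
    · exact absurd ho h1.1
    · exact h1.2
  have hno : D.nxt D.o ∉ Y := by
    intro h1
    have h2 := hY h1
    have h3 : D.o ∈ D.lp true (clN D N kk (0 + 1)) := Std.mem_lp.2 ⟨h.ho, h2⟩
    rw [hk.lp_cl] at h3
    exact hk.o_notMem (by omega) (by omega) (mem_filter.1 h3).1
  have hoZ : D.o ∈ D.lp true Yᶜ := Std.mem_lp.2 ⟨h.ho, by rw [mem_compl]; exact hno⟩
  have hZ : (D.lp true Yᶜ)ᶜ ∈ E := by
    have := h.full.closed _ hYE true ⟨_, hoZ⟩
    rwa [KS.nm, if_pos hoZ] at this
  have key : ∀ m ≤ kk D.o, ∀ W ∈ E, W ⊆ clN D N kk (m + 1) →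
      D.o ∈ (fun X => D.lp true X)^[m] W → D.Side E ((fun X => D.lp true X)^[m] W) := by
    intro m
    induction m with
    | zero => intro _ W hW _ _; exact h.side_of_mem hW
    | succ m ih =>
      intro hm W hW hWc ho
      rw [Function.iterate_succ_apply] at ho ⊢
      have hne : (D.lp true W).Nonempty := by
        rw [iter_lp] at ho
        exact ⟨_, ho.2⟩
      have h2 := h.full.closed _ hW true hne
      have h3 : D.lp true W ⊆ clN D N kk (m + 1) := by
        rw [← hk.lp_cl' (by omega) (by omega)]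
        exact lp_mono hWc
      rcases Nat.eq_zero_or_pos m with rfl | h0
      · exact h2
      · have h4 : D.o ∉ D.lp true W := fun h5 => hk.o_notMem (by omega) (by omega) (h3 h5)
        rw [KS.nm, if_neg h4] at h2
        exact ih (by omega) _ h2 h3 ho
  exact key _ (le_refl _) _ hZ (hk.zset_sub hY) (hk.o_mem_ph Y)

lemma side_one (h : Std D E) (hk : IsKN D N kk) : D.Side E (clN D N kk 1) := by
  obtain ⟨m, hm⟩ := hk.iter_top
  have ho1 : ({D.o} : Finset L) ⊆ clN D N kk 1 := by simpa using hk.o_mem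
  have key : ∀ m, D.Side E ((phN D kk)^[m] {D.o}) ∧ D.o ∈ (phN D kk)^[m] {D.o} := by
    intro m
    induction m with
    | zero =>
      refine ⟨?_, by simp⟩
      simp only [Function.iterate_zero, id]
      rw [KS.Side, KS.nm, if_pos (mem_singleton_self _)]
      exact h.full.base
    | succ m ih =>
      rw [Function.iterate_succ_apply']
      exact ⟨side_ph h hk ih.2 (hk.iter_ph_sub ho1 m) ih.1, hk.o_mem_ph _⟩
  rw [← hm _ ho1]
  exact (key m).1

/-- The cut at `alpha` next to the critical value. -/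
lemma al_mem (h : Std D E) (hk : IsKN D N kk) : (clN D N kk 1)ᶜ ∈ E := by
  rcases Std.side_cases (hk.side_one h) with h1 | h1
  · exact absurd hk.o_mem h1.1
  · exact h1.2

/-- **S(alpha)** for arbitrary sets. -/
lemma mono_al (h : Std D E) (hk : IsKN D N kk) {Y V : Finset L} (ho : D.o ∈ Y) (hYV : Y ⊆ V)
    (hV : V ⊆ clN D N kk 1) : D.Mono E Vᶜ Y := by
  obtain ⟨m, hm⟩ := hk.iter_top
  have key : ∀ k, ∀ Y V : Finset L, D.o ∈ Y → Y ⊆ V → V ⊆ clN D N kk 1 →
      D.Mono E ((phN D kk)^[k] V)ᶜ ((phN D kk)^[k] Y) → D.Mono E Vᶜ Y := by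
    intro k
    induction k with
    | zero => intro Y V _ _ _ h1; exact h1
    | succ k ih =>
      intro Y V ho hYV hV h1
      rw [Function.iterate_succ_apply, Function.iterate_succ_apply] at h1
      exact hk.mono_turn ho hYV hV (ih _ _ (hk.o_mem_ph _) (ph_mono hYV) (hk.ph_sub hV) h1)
  apply key m Y V ho hYV hV
  rw [hm V hV, hm Y (hYV.trans hV)]
  exact KS.Mono.symm _ _ (KS.Mono.triv _ (hk.side_one h))

/-- Sets between the cut at `0` and the arm of `0`. -/
lemma mono_zero (h : Std D E) (hk : IsKN D N kk) {Z W : Finset L} (hF : Fs D ⊆ W) (hWZ : W ⊆ Z)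
    (hZ : Z ⊆ clN D N kk 0) : D.Mono E Zᶜ W := by
  have h1 := hk.iter_kk hk.oN (le_refl _)
  have hs : D.side (D.nxt^[kk D.o] D.o) = false := by
    by_contra h2
    have := hk.succ _ h1.1 (by simpa using h2)
    omega
  rw [← cl_zero] at hZ
  apply hk.mono_chain (le_refl _) hZ hWZ
  apply hk.mono_al h
  · rw [iter_lp]
    exact ⟨h1.2.2, hF (Std.mem_Fs.2 hs)⟩
  · intro i hi
    rw [iter_lp] at hi ⊢
    exact ⟨hi.1, hWZ hi.2⟩
  · exact hk.iter_sub (le_refl _) hZ

/-- Every cut lies in one arm. -/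
lemma arm (h : Std D E) (hk : IsKN D N kk) {C : Finset L} (hC : C ∈ E) :
    ∃ j, C ⊆ clN D N kk j ∨ Cᶜ ⊆ clN D N kk j := by
  have step : ∀ B C, D.Arrow E B C → (∃ j, B ⊆ clN D N kk j ∨ Bᶜ ⊆ clN D N kk j) →
      ∃ j, C ⊆ clN D N kk j ∨ Cᶜ ⊆ clN D N kk j := by
    rintro B C ⟨hB, hC, s, hs⟩ ⟨j, hj⟩
    -- it is enough that `lp s B` or its complement is in an arm
    have h1 : ∃ j, D.lp s B ⊆ clN D N kk j ∨ (D.lp s B)ᶜ ⊆ clN D N kk j := by
      cases s with
      | false =>
        refine ⟨0, Or.inl ?_⟩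
        intro i hi
        exact hk.Fs_sub (Std.mem_Fs.2 (Std.mem_lp.1 hi).1)
      | true =>
        rcases hj with hj | hj
        · -- `B ⊆ cl j = cl (j' + 1)`
          obtain ⟨j', hj'⟩ : ∃ j', clN D N kk j = clN D N kk (j' + 1) := by
            refine ⟨j + kk D.o, ?_⟩
            have := cl_mod (D := D) (N := N) (kk := kk) j 1
            rw [← this]
            congr 1
            omega
          refine ⟨j', Or.inl ?_⟩
          rw [hj'] at hj
          have := (lp_mono (t := true) (D := D) hj)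
          rw [hk.lp_cl] at this
          exact this.trans (filter_subset _ _)
        · refine ⟨0, Or.inr ?_⟩
          have hoB : D.o ∈ Bᶜ := by rw [mem_compl]; exact h.o_notMem hB
          have hj1 : clN D N kk j = clN D N kk 1 := by
            have h2 := cl_eq (hj hoB) hk.o_mem
            ext i
            rw [mem_cl, mem_cl]
            have h3 : kk i + j ≡ kk i + 1 [MOD kk D.o + 1] := Nat.ModEq.add_left _ h2
            rw [← Nat.modEq_zero_iff_dvd, ← Nat.modEq_zero_iff_dvd]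
            exact ⟨fun h4 => ⟨h4.1, h3.symm.trans h4.2⟩, fun h4 => ⟨h4.1, h3.trans h4.2⟩⟩
          rw [hj1] at hj
          rw [← compl_compl (clN D N kk 0), ← hk.lp_compl_one, compl_subset_compl]
          apply lp_mono
          intro i hi
          by_contra h3
          exact (mem_compl.1 hi) (hj (mem_compl.2 h3))
    obtain ⟨j, hj⟩ := h1
    rw [KS.nm] at hs
    split_ifs at hs
    · refine ⟨j, ?_⟩
      rw [← hs, compl_compl]
      exact hj.symm
    · exact ⟨j, by rw [← hs]; exact hj⟩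
  have path : ∀ n B, (∃ j, B ⊆ clN D N kk j ∨ Bᶜ ⊆ clN D N kk j) → D.Path E n B C →
      ∃ j, C ⊆ clN D N kk j ∨ Cᶜ ⊆ clN D N kk j := by
    intro n
    induction n with
    | zero => rintro B hB ⟨_, rfl⟩; exact hB
    | succ n ih =>
      rintro B hB ⟨B', h1, h2⟩
      exact ih B' (step B B' h1 hB) h2
  obtain ⟨n, _, hp⟩ := h.full.mix
  refine path n _ ⟨1, Or.inr ?_⟩ (hp _ h.full.base _ hC)
  rw [compl_compl]
  simpa using hk.o_mem

/-- The arms other than the arm of `o` are cuts. -/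
lemma cl_mem (h : Std D E) (hk : IsKN D N kk) {j : ℕ} (h0 : 2 ≤ j) (hj : j ≤ kk D.o + 1) :
    clN D N kk j ∈ E := by
  have key : ∀ m, m + 2 ≤ kk D.o + 1 → clN D N kk (kk D.o + 1 - m) ∈ E := by
    intro m
    induction m with
    | zero =>
      intro _
      rw [Nat.sub_zero, cl_zero]
      have hne : D.o ∈ D.lp true (clN D N kk 1)ᶜ := by
        rw [hk.lp_compl_one, mem_compl]
        exact hk.o_notMem (by omega) (by omega)
      have := h.full.closed _ (hk.al_mem h) true ⟨_, hne⟩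
      rwa [KS.nm, if_pos hne, hk.lp_compl_one, compl_compl] at this
    | succ m ih =>
      intro hm
      have h1 := ih (by omega)
      have h2 : kk D.o + 1 - m = (kk D.o + 1 - (m + 1)) + 1 := by omega
      rw [h2] at h1
      have h3 := hk.lp_cl' (j := kk D.o + 1 - (m + 1)) (by omega) (by omega)
      -- nonempty: an iterate of `o`
      have hne : (clN D N kk (kk D.o + 1 - (m + 1))).Nonempty := by
        have hle : kk D.o - (m + 1) ≤ kk D.o := by omega
        have h4 := hk.iter_kk hk.oN hle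
        refine ⟨_, mem_cl.2 ⟨h4.1, ?_⟩⟩
        have : kk (D.nxt^[kk D.o - (m + 1)] D.o) + (kk D.o + 1 - (m + 1)) = kk D.o + 1 := by
          have := h4.2.1
          omega
        rw [this]
      have h5 := h.full.closed _ h1 true (by rw [h3]; exact hne)
      rwa [h3, KS.nm, if_neg (hk.o_notMem (by omega) (by omega))] at h5
  have := key (kk D.o + 1 - j) (by omega)
  rwa [show kk D.o + 1 - (kk D.o + 1 - j) = j by omega] at this

end IsKN

end Cut

end R4
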