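import Pool.Agent.Work.MP_e3f5d9_al.P1

/-!
# Combinatorial part in cut language, C1: the laminar family and the star of a vertex

`E` is a full class of cuts, `side o = true`.  A vertex is a cut `A` of `E` which is not minimal; its
germs are `Aᶜ` and the maximal cuts below `A`.  `Fs` is the cut at `0`.
-/

set_option autoImplicit false
set_option linter.unusedSectionVars false

open Finset

namespace R4

namespace Cut

variable {L : Type} [Fintype L] [DecidableEq L]

/-- `B` is a maximal cut below `A`. -/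
def Child (E : Finset (Finset L)) (A B : Finset L) : Prop :=
  B ∈ E ∧ B ⊂ A ∧ ∀ C ∈ E, B ⊂ C → ¬ C ⊂ A

/-- Vertices. -/
def Vert (E : Finset (Finset L)) (A : Finset L) : Prop := A ∈ E ∧ ∃ B ∈ E, B ⊂ A

/-- Germs at the vertex `A`. -/
def Germ (E : Finset (Finset L)) (A g : Finset L) : Prop := g = Aᶜ ∨ Child E A g

/-- The smallest cut that contains `S`. -/
def up (E : Finset (Finset L)) (S : Finset L) : Finset L := (E.filter fun C => S ⊆ C).inf id

/-- The largest cut strictly below `A` that contains `S`. -/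
def dc (E : Finset (Finset L)) (A S : Finset L) : Finset L :=
  (E.filter fun C => S ⊆ C ∧ C ⊂ A).sup id

variable (D : KS L)

/-- The letters on the side `false`: the cut at `0`. -/
def Fs : Finset L := univ.filter fun i => D.side i = false

/-- The germ at `A` that contains `0`. -/
def rho (E : Finset (Finset L)) (A : Finset L) : Finset L :=
  if Fs D ⊂ A then dc E A (Fs D) else Aᶜ

/-- The letters that are separated from `0` by the vertex `A`, or at `A`. -/
def dn (E : Finset (Finset L)) (A : Finset L) : Finset L := (rho D E A)ᶜ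

/-- The side of the vertex `A`. -/
def tv (A : Finset L) : Bool := !(decide (A ⊆ Fs D))

/-- The image of the vertex `A`. -/
def fv (E : Finset (Finset L)) (A : Finset L) : Finset L := up E ((dn D E A).image D.nxt)

/-- The image of the germ `g` at `A`. -/
def fs (E : Finset (Finset L)) (A g : Finset L) : Finset L :=
  if g = rho D E A then (fv D E A)ᶜ else dc E (fv D E A) (g.image D.nxt)

/-- The setting. -/
structure Std (E : Finset (Finset L)) : Prop where
  full : D.Full E
  ho : D.side D.o = true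

variable {D} {E : Finset (Finset L)}

namespace Std

lemma path_empty {n : ℕ} {B : Finset L} (h : D.Path E n ∅ B) : B = ∅ := by
  induction n with
  | zero => exact h.2.symm
  | succ n ih =>
    obtain ⟨C, ⟨_, _, s, hs⟩, h2⟩ := h
    have : C = ∅ := by
      rw [← hs]
      have : D.lp s (∅ : Finset L) = ∅ := by simp [KS.lp]
      rw [this, KS.nm, if_neg (by simp)]
    subst this
    exact ih h2

lemma nonempty (h : Std D E) {A : Finset L} (hA : A ∈ E) : A.Nonempty := by
  by_contra hne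
  rw [not_nonempty_iff_eq_empty] at hne
  subst hne
  obtain ⟨n, _, hn⟩ := h.full.mix
  have h1 := path_empty (hn _ hA _ h.full.base)
  have h2 : D.nxt D.o ∈ ({D.o} : Finset L)ᶜ := by simp [D.nxt_ne]
  rw [h1] at h2
  simp at h2

lemma o_notMem (h : Std D E) {A : Finset L} (hA : A ∈ E) : D.o ∉ A := h.full.norm A hA

lemma last_arrow {n : ℕ} {A B : Finset L} (hn : 0 < n) (h : D.Path E n A B) :
    ∃ C, D.Arrow E C B := by
  induction n generalizing A with
  | zero => omega
  | succ n ih =>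
    obtain ⟨C, h1, h2⟩ := h
    rcases Nat.eq_zero_or_pos n with rfl | h0
    · obtain ⟨_, rfl⟩ := h2
      exact ⟨A, h1⟩
    · exact ih h0 h2

lemma arrow (h : Std D E) {B : Finset L} (hB : B ∈ E) : ∃ A ∈ E, ∃ s, D.nm (D.lp s A) = B := by
  obtain ⟨n, h0, hn⟩ := h.full.mix
  obtain ⟨C, h1, _, s, hs⟩ := last_arrow h0 (hn _ h.full.base _ hB)
  exact ⟨C, h1, s, hs⟩

lemma mem_Fs {i : L} : i ∈ Fs D ↔ D.side i = false := by simp [Fs]

lemma lp_base (t : Bool) : D.lp t ({D.o} : Finset L)ᶜ = univ.filter fun i => D.side i = t := by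
  ext i; simp [KS.lp, D.nxt_ne]

lemma lp_base_false : D.lp false ({D.o} : Finset L)ᶜ = Fs D := lp_base false

lemma Fs_nonempty (h : Std D E) : (Fs D).Nonempty := by
  by_contra hne
  rw [not_nonempty_iff_eq_empty] at hne
  have h1 : D.lp true ({D.o} : Finset L)ᶜ = univ := by
    rw [lp_base]
    ext i
    simp only [mem_filter, mem_univ, true_and, iff_true]
    have : i ∉ Fs D := by rw [hne]; simp
    simpa [mem_Fs] using this
  have h2 := h.full.closed _ h.full.base true (by rw [h1]; exact ⟨D.o, mem_univ _⟩)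
  rw [h1, KS.nm, if_pos (mem_univ _), compl_univ] at h2
  exact not_nonempty_empty (h.nonempty h2)

lemma o_notMem_Fs (h : Std D E) : D.o ∉ Fs D := by simp [mem_Fs, h.ho]

lemma Fs_mem (h : Std D E) : Fs D ∈ E := by
  have h2 := h.full.closed _ h.full.base false (by rw [lp_base_false]; exact h.Fs_nonempty)
  rwa [lp_base_false, KS.nm, if_neg h.o_notMem_Fs] at h2

lemma side_of_mem (h : Std D E) {A : Finset L} (hA : A ∈ E) : D.Side E A := by
  rw [KS.Side, KS.nm, if_neg (h.o_notMem hA)]; exact hA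

lemma side_compl (h : Std D E) {A : Finset L} (hA : A ∈ E) : D.Side E Aᶜ := by
  rw [KS.Side, KS.nm, if_pos (by simpa using h.o_notMem hA), compl_compl]; exact hA

lemma side_cases {X : Finset L} (hX : D.Side E X) : (D.o ∉ X ∧ X ∈ E) ∨ (D.o ∈ X ∧ Xᶜ ∈ E) := by
  rw [KS.Side, KS.nm] at hX
  split_ifs at hX with h1
  · exact Or.inr ⟨h1, hX⟩
  · exact Or.inl ⟨h1, hX⟩

lemma lam' (h : Std D E) {A B : Finset L} (hA : A ∈ E) (hB : B ∈ E) {x : L} (hxA : x ∈ A)
    (hxB : x ∈ B) : A ⊆ B ∨ B ⊆ A := by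
  rcases h.full.lam A hA B hB with h1 | h1 | h1
  · exact absurd hxB (disjoint_left.1 h1 hxA)
  · exact Or.inl h1
  · exact Or.inr h1

/-! ### Chains -/

lemma up_spec (h : Std D E) {S : Finset L} (hS : S.Nonempty) {C : Finset L} (hC : C ∈ E)
    (hSC : S ⊆ C) : up E S ∈ E ∧ S ⊆ up E S ∧ ∀ C ∈ E, S ⊆ C → up E S ⊆ C := by
  obtain ⟨M, hM, hmin⟩ := exists_min_image (E.filter fun C => S ⊆ C) card
    ⟨C, mem_filter.2 ⟨hC, hSC⟩⟩
  rw [mem_filter] at hM
  obtain ⟨x, hx⟩ := hS
  have h1 : ∀ C ∈ E, S ⊆ C → M ⊆ C := by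
    intro C hC hSC
    rcases h.lam' hM.1 hC (hM.2 hx) (hSC hx) with h2 | h2
    · exact h2
    · have := hmin C (mem_filter.2 ⟨hC, hSC⟩)
      rw [eq_of_subset_of_card_le h2 this]
  have h2 : up E S = M := by
    apply le_antisymm
    · exact inf_le (f := id) (mem_filter.2 hM)
    · apply Finset.le_inf
      intro C hC
      rw [mem_filter] at hC
      exact h1 C hC.1 hC.2
  rw [h2]
  exact ⟨hM.1, hM.2, h1⟩

lemma dc_spec (h : Std D E) {S A : Finset L} (hS : S.Nonempty) {C : Finset L} (hC : C ∈ E)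
    (hSC : S ⊆ C) (hCA : C ⊂ A) : Child E A (dc E A S) ∧ S ⊆ dc E A S ∧
      ∀ C ∈ E, S ⊆ C → C ⊂ A → C ⊆ dc E A S := by
  obtain ⟨M, hM, hmax⟩ := exists_max_image (E.filter fun C => S ⊆ C ∧ C ⊂ A) card
    ⟨C, mem_filter.2 ⟨hC, hSC, hCA⟩⟩
  rw [mem_filter] at hM
  obtain ⟨x, hx⟩ := hS
  have h1 : ∀ C ∈ E, S ⊆ C → C ⊂ A → C ⊆ M := by
    intro C hC hSC hCA
    rcases h.lam' hM.1 hC (hM.2.1 hx) (hSC hx) with h2 | h2
    · have := hmax C (mem_filter.2 ⟨hC, hSC, hCA⟩)
      rw [eq_of_subset_of_card_le h2 this]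
    · exact h2
  have h2 : dc E A S = M := by
    apply le_antisymm
    · apply Finset.sup_le
      intro C hC
      rw [mem_filter] at hC
      exact h1 C hC.1 hC.2.1 hC.2.2
    · exact le_sup (f := id) (mem_filter.2 hM)
  rw [h2]
  refine ⟨⟨hM.1, hM.2.2, ?_⟩, hM.2.1, h1⟩
  intro C hC hMC hCA
  have := h1 C hC (hM.2.1.trans hMC.1) hCA
  exact hMC.2 this

lemma exists_child (h : Std D E) {A B : Finset L} (hB : B ∈ E) (hBA : B ⊂ A) :
    ∃ C, Child E A C ∧ B ⊆ C := by
  have h1 := h.dc_spec (h.nonempty hB) hB (Subset.refl _) hBA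
  exact ⟨_, h1.1, h1.2.1⟩

lemma child_eq (h : Std D E) {A B C : Finset L} (hB : Child E A B) (hC : Child E A C) {x : L}
    (hxB : x ∈ B) (hxC : x ∈ C) : B = C := by
  rcases h.lam' hB.1 hC.1 hxB hxC with h1 | h1
  · by_contra hne
    exact hB.2.2 C hC.1 (lt_of_le_of_ne h1 hne) hC.2.1
  · by_contra hne
    exact hC.2.2 B hB.1 (lt_of_le_of_ne h1 (Ne.symm hne)) hB.2.1

lemma child_disj (h : Std D E) {A B C : Finset L} (hB : Child E A B) (hC : Child E A C)
    (hne : B ≠ C) : Disjoint B C := by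
  rw [disjoint_left]
  intro x hx hx'
  exact hne (h.child_eq hB hC hx hx')

lemma germ_disj (h : Std D E) {A g g' : Finset L} (hg : Germ E A g) (hg' : Germ E A g')
    (hne : g ≠ g') : Disjoint g g' := by
  rcases hg with rfl | hg
  · rcases hg' with rfl | hg'
    · exact absurd rfl hne
    · rw [disjoint_left]
      intro x hx hx'
      rw [mem_compl] at hx
      exact hx (hg'.2.1.1 hx')
  · rcases hg' with rfl | hg'
    · rw [disjoint_left]
      intro x hx hx'
      rw [mem_compl] at hx'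
      exact hx' (hg.2.1.1 hx)
    · exact h.child_disj hg hg' hne

lemma germ_nonempty (h : Std D E) {A g : Finset L} (hA : A ∈ E) (hg : Germ E A g) :
    g.Nonempty := by
  rcases hg with rfl | hg
  · exact ⟨D.o, by simpa using h.o_notMem hA⟩
  · exact h.nonempty hg.1

lemma germ_side (h : Std D E) {A g : Finset L} (hA : A ∈ E) (hg : Germ E A g) :
    D.Side E g := by
  rcases hg with rfl | hg
  · exact h.side_compl hA
  · exact h.side_of_mem hg.1

lemma germ_eq (h : Std D E) {A g g' : Finset L} (hg : Germ E A g) (hg' : Germ E A g') {x : L}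
    (hx : x ∈ g) (hx' : x ∈ g') : g = g' := by
  by_contra hne
  exact disjoint_left.1 (h.germ_disj hg hg' hne) hx hx'

/-! ### Pull-backs -/

lemma mem_lp {t : Bool} {A : Finset L} {i : L} : i ∈ D.lp t A ↔ D.side i = t ∧ D.nxt i ∈ A := by
  simp [KS.lp]

/-- Every side that lies on one side of `0` is a pull-back. -/
lemma exists_lp (h : Std D E) {X : Finset L} {t : Bool} (hX : D.Side E X) (hne : X.Nonempty)
    (ht : ∀ i ∈ X, D.side i = t) : ∃ A ∈ E, D.lp t A = X := by
  obtain ⟨x, hx⟩ := hne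
  rcases side_cases hX with ⟨ho, hXE⟩ | ⟨ho, hXE⟩
  · obtain ⟨A, hA, s, hs⟩ := h.arrow hXE
    rw [KS.nm] at hs
    split_ifs at hs with h1
    · -- `X = (lp s A)ᶜ`
      have hst : s = true := by rw [← (mem_lp.1 h1).1, h.ho]
      subst hst
      have h2 : Fs D ⊆ X := by
        intro i hi
        rw [← hs, mem_compl, mem_lp]
        rw [mem_Fs] at hi
        simp [hi]
      obtain ⟨f, hf⟩ := h.Fs_nonempty
      have h3 : t = false := by rw [← ht f (h2 hf)]; exact mem_Fs.1 hf
      subst h3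
      refine ⟨_, h.full.base, ?_⟩
      rw [lp_base_false]
      apply Subset.antisymm h2
      intro i hi
      rw [mem_Fs]
      exact ht i hi
    · refine ⟨A, hA, ?_⟩
      rw [← hs]
      have : s = t := by
        rw [← hs, mem_lp] at hx
        rw [← hx.1]
        exact ht x (by rw [← hs, mem_lp]; exact hx)
      rw [this]
  · have ht1 : t = true := by rw [← ht _ ho, h.ho]
    subst ht1
    obtain ⟨A, hA, s, hs⟩ := h.arrow hXE
    have hFX : Fs D ⊆ Xᶜ := by
      intro i hi
      rw [mem_compl]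
      intro hiX
      rw [mem_Fs, ht i hiX] at hi
      exact absurd hi (by simp)
    rw [KS.nm] at hs
    split_ifs at hs with h1
    · have hst : s = true := by rw [← (mem_lp.1 h1).1, h.ho]
      subst hst
      exact ⟨A, hA, compl_injective hs⟩
    · -- `Xᶜ = lp s A` contains `Fs`, hence `Xᶜ = Fs`
      obtain ⟨f, hf⟩ := h.Fs_nonempty
      have hsf : s = false := by
        have := hFX hf
        rw [← hs, mem_lp] at this
        rw [← this.1]; exact mem_Fs.1 hf
      refine ⟨_, h.full.base, ?_⟩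
      rw [lp_base]
      ext i
      simp only [mem_filter, mem_univ, true_and]
      constructor
      · intro hi
        by_contra hiX
        have : i ∈ Xᶜ := by simpa using hiX
        rw [← hs, mem_lp, hsf, hi] at this
        exact absurd this.1 (by simp)
      · intro hi; exact ht i hi

lemma lp_up (h : Std D E) {X : Finset L} {t : Bool} (hX : D.Side E X) (hne : X.Nonempty)
    (ht : ∀ i ∈ X, D.side i = t) : up E (X.image D.nxt) ∈ E ∧ D.lp t (up E (X.image D.nxt)) = X ∧
      ∀ C ∈ E, X ⊆ D.lp t C → up E (X.image D.nxt) ⊆ C := by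
  obtain ⟨A, hA, hAX⟩ := h.exists_lp hX hne ht
  have h1 : X.image D.nxt ⊆ A := by
    intro j hj
    rw [mem_image] at hj
    obtain ⟨i, hi, rfl⟩ := hj
    rw [← hAX, mem_lp] at hi
    exact hi.2
  have h2 := h.up_spec (hne.image _) hA h1
  refine ⟨h2.1, ?_, ?_⟩
  · apply Subset.antisymm
    · intro i hi
      rw [← hAX]
      rw [mem_lp] at hi ⊢
      exact ⟨hi.1, h2.2.2 A hA h1 hi.2⟩
    · intro i hi
      rw [mem_lp]
      exact ⟨ht i hi, h2.2.1 (mem_image_of_mem _ hi)⟩
  · intro C hC hXC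
    apply h2.2.2 C hC
    intro j hj
    rw [mem_image] at hj
    obtain ⟨i, hi, rfl⟩ := hj
    exact (mem_lp.1 (hXC hi)).2

/-! ### The star of a vertex -/

lemma rho_axis {A : Finset L} (hax : Fs D ⊂ A) : rho D E A = dc E A (Fs D) := by
  rw [rho, if_pos hax]

lemma rho_off {A : Finset L} (hax : ¬ Fs D ⊂ A) : rho D E A = Aᶜ := by
  rw [rho, if_neg hax]

lemma rho_child (h : Std D E) {A : Finset L} (hax : Fs D ⊂ A) :
    Child E A (rho D E A) ∧ Fs D ⊆ rho D E A := by
  rw [rho_axis hax]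
  have := h.dc_spec h.Fs_nonempty h.Fs_mem (Subset.refl _) hax
  exact ⟨this.1, this.2.1⟩

lemma rho_germ (h : Std D E) {A : Finset L} : Germ E A (rho D E A) := by
  by_cases hax : Fs D ⊂ A
  · exact Or.inr (h.rho_child hax).1
  · exact Or.inl (rho_off hax)

lemma dn_off {A : Finset L} (hax : ¬ Fs D ⊂ A) : dn D E A = A := by
  rw [dn, rho_off hax, compl_compl]

lemma dn_side_true (h : Std D E) {A : Finset L} (hax : Fs D ⊂ A) {i : L} (hi : i ∈ dn D E A) :
    D.side i = true := by
  rw [dn, mem_compl] at hi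
  by_contra hs
  exact hi ((h.rho_child hax).2 (mem_Fs.2 (by simpa using hs)))

lemma tv_false {A : Finset L} (hA : A ⊆ Fs D) : tv D A = false := by simp [tv, hA]

lemma tv_true {A : Finset L} (hA : ¬ A ⊆ Fs D) : tv D A = true := by simp [tv, hA]

/-- All letters of `dn A` are on the side of the vertex. -/
lemma dn_side (h : Std D E) {A : Finset L} (hA : A ∈ E) {i : L} (hi : i ∈ dn D E A) :
    D.side i = tv D A := by
  by_cases hax : Fs D ⊂ A
  · rw [h.dn_side_true hax hi, tv_true hax.2]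
  · rw [dn_off hax] at hi
    by_cases hAF : A ⊆ Fs D
    · rw [tv_false hAF]; exact mem_Fs.1 (hAF hi)
    · rw [tv_true hAF]
      by_contra hs
      have hiF : i ∈ Fs D := mem_Fs.2 (by simpa using hs)
      rcases h.lam' hA h.Fs_mem hi hiF with h1 | h1
      · exact hAF h1
      · exact hax ⟨h1, hAF⟩

lemma dn_Side (h : Std D E) {A : Finset L} (hA : A ∈ E) : D.Side E (dn D E A) := by
  by_cases hax : Fs D ⊂ A
  · exact h.side_compl (h.rho_child hax).1.1
  · rw [dn_off hax]; exact h.side_of_mem hA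

lemma dn_nonempty (h : Std D E) {A : Finset L} (hA : A ∈ E) : (dn D E A).Nonempty := by
  by_cases hax : Fs D ⊂ A
  · exact ⟨D.o, by rw [dn, mem_compl]; exact h.o_notMem (h.rho_child hax).1.1⟩
  · rw [dn_off hax]; exact h.nonempty hA

lemma fv_mem (h : Std D E) {A : Finset L} (hA : A ∈ E) : fv D E A ∈ E :=
  (h.lp_up (h.dn_Side hA) (h.dn_nonempty hA) fun _ hi => h.dn_side hA hi).1

/-- The pull-back of the image vertex. -/
lemma lp_fv (h : Std D E) {A : Finset L} (hA : A ∈ E) : D.lp (tv D A) (fv D E A) = dn D E A :=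
  (h.lp_up (h.dn_Side hA) (h.dn_nonempty hA) fun _ hi => h.dn_side hA hi).2.1

lemma fv_min (h : Std D E) {A : Finset L} (hA : A ∈ E) {C : Finset L} (hC : C ∈ E)
    (hAC : dn D E A ⊆ D.lp (tv D A) C) : fv D E A ⊆ C :=
  (h.lp_up (h.dn_Side hA) (h.dn_nonempty hA) fun _ hi => h.dn_side hA hi).2.2 C hC hAC

lemma germ_subset_dn (h : Std D E) {A g : Finset L} (hg : Germ E A g) (hne : g ≠ rho D E A) :
    g ⊆ dn D E A := by
  intro x hx
  rw [dn, mem_compl]
  intro hx'
  exact hne (h.germ_eq hg h.rho_germ hx hx')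

/-- A germ different from the germ of `0` is strictly smaller than `dn A`. -/
lemma germ_ssubset_dn (h : Std D E) {A g : Finset L} (hg : Germ E A g)
    (hne : g ≠ rho D E A) : g ⊂ dn D E A := by
  refine ⟨h.germ_subset_dn hg hne, fun h1 => ?_⟩
  by_cases hax : Fs D ⊂ A
  · have h2 := (h.rho_child hax).1
    rcases hg with rfl | hg
    · -- `(rho)ᶜ ⊆ Aᶜ`
      have h3 : A ⊆ rho D E A := by
        intro x hx
        by_contra hx'
        have := h1 (by rw [dn, mem_compl]; exact hx')
        rw [mem_compl] at this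
        exact this hx
      exact h2.2.1.2 h3
    · have : D.o ∈ g := h1 (by rw [dn, mem_compl]; exact h.o_notMem h2.1)
      exact h.o_notMem hg.1 this
  · rw [dn_off hax] at h1
    rw [rho_off hax] at hne
    rcases hg with rfl | hg
    · exact hne rfl
    · exact hg.2.1.2 h1

/-- Laminar dichotomy: a side strictly inside `dn A` lies in one germ. -/
lemma inside (h : Std D E) {A X : Finset L} (hA : A ∈ E) (hX : D.Side E X) (hne : X.Nonempty)
    (hXd : X ⊂ dn D E A) : ∃ g, Germ E A g ∧ g ≠ rho D E A ∧ X ⊆ g := by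
  obtain ⟨x, hx⟩ := hne
  by_cases hax : Fs D ⊂ A
  · have h2 := (h.rho_child hax).1
    obtain ⟨r, hr⟩ := h.nonempty h2.1
    have hrX : ∀ y ∈ rho D E A, y ∉ X := by
      intro y hy hyX
      have := hXd.1 hyX
      rw [dn, mem_compl] at this
      exact this hy
    have hru : Aᶜ ≠ rho D E A := by
      intro h3
      have h4 := h2.2.1.1 hr
      rw [← h3, mem_compl] at hr
      exact hr h4
    rcases side_cases hX with ⟨ho, hXE⟩ | ⟨ho, hXE⟩
    · rcases h.full.lam X hXE A hA with h3 | h3 | h3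
      · refine ⟨Aᶜ, Or.inl rfl, hru, ?_⟩
        intro y hy
        rw [mem_compl]
        exact disjoint_left.1 h3 hy
      · have h4 : X ⊂ A := ⟨h3, fun h5 => hrX r hr (h5 (h2.2.1.1 hr))⟩
        obtain ⟨C, hC, hXC⟩ := h.exists_child hXE h4
        refine ⟨C, Or.inr hC, ?_, hXC⟩
        rintro rfl
        exact hrX x (hXC hx) hx
      · exact absurd (h3 (h2.2.1.1 hr)) (hrX r hr)
    · -- `R ⊂ Xᶜ`
      have h3 : rho D E A ⊂ Xᶜ := by
        constructor
        · intro y hy
          rw [mem_compl]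
          exact hrX y hy
        · intro h4
          apply hXd.2
          intro y hy
          by_contra hyX
          rw [dn, mem_compl] at hy
          exact hy (h4 (by simpa using hyX))
      refine ⟨Aᶜ, Or.inl rfl, hru, ?_⟩
      rcases h.lam' hXE hA (h3.1 hr) (h2.2.1.1 hr) with h4 | h4
      · -- `Xᶜ ⊆ A`: then `Xᶜ = A`
        by_cases h5 : Xᶜ = A
        · rw [← h5, compl_compl]
        · exact absurd (lt_of_le_of_ne h4 h5) (h2.2.2 _ hXE h3)
      · intro y hy
        rw [mem_compl]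
        intro hyA
        have := h4 hyA
        rw [mem_compl] at this
        exact this hy
  · rw [dn_off hax] at hXd
    rcases side_cases hX with ⟨ho, hXE⟩ | ⟨ho, hXE⟩
    · obtain ⟨C, hC, hXC⟩ := h.exists_child hXE hXd
      refine ⟨C, Or.inr hC, ?_, hXC⟩
      rw [rho_off hax]
      rintro rfl
      have := hC.2.1.1 (hXC hx)
      have h5 := hXC hx
      rw [mem_compl] at h5
      exact h5 this
    · exact absurd (hXd.1 ho) (h.o_notMem hA)

/-- A vertex has a germ that does not contain `0`. -/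
lemma exists_germ (h : Std D E) {A : Finset L} (hA : Vert E A) :
    ∃ g, Germ E A g ∧ g ≠ rho D E A := by
  by_cases hax : Fs D ⊂ A
  · refine ⟨Aᶜ, Or.inl rfl, ?_⟩
    have h2 := (h.rho_child hax).1
    obtain ⟨r, hr⟩ := h.nonempty h2.1
    intro h3
    have h4 := h2.2.1.1 hr
    rw [← h3, mem_compl] at hr
    exact hr h4
  · obtain ⟨B, hB, hBA⟩ := hA.2
    obtain ⟨C, hC, hBC⟩ := h.exists_child hB hBA
    refine ⟨C, Or.inr hC, ?_⟩
    rw [rho_off hax]
    rintro rfl
    obtain ⟨r, hr⟩ := h.nonempty hC.1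
    have h4 := hC.2.1.1 hr
    rw [mem_compl] at hr
    exact hr h4

/-- For a germ `g` that does not contain `0` there is a child of the image vertex whose pull-back is
`g`. -/
lemma fs_spec (h : Std D E) {A g : Finset L} (hA : A ∈ E) (hg : Germ E A g)
    (hne : g ≠ rho D E A) : Child E (fv D E A) (fs D E A g) ∧ D.lp (tv D A) (fs D E A g) = g := by
  have hgd := h.germ_ssubset_dn hg hne
  have hgn := h.germ_nonempty hA hg
  have h1 := h.lp_up (h.germ_side hA hg) hgn fun i hi => h.dn_side hA (hgd.1 hi)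
  -- `C = up (nxt g)` is strictly below `fv A`
  have h2 : up E (g.image D.nxt) ⊆ fv D E A := by
    apply h1.2.2 _ (h.fv_mem hA)
    rw [h.lp_fv hA]
    exact hgd.1
  have h3 : up E (g.image D.nxt) ⊂ fv D E A := by
    refine ⟨h2, fun h4 => ?_⟩
    have h5 : up E (g.image D.nxt) = fv D E A := Subset.antisymm h2 h4
    rw [h5, h.lp_fv hA] at h1
    exact hgd.2 (h1.2.1 ▸ Subset.refl _)
  have h4 : g.image D.nxt ⊆ up E (g.image D.nxt) := by
    intro j hj
    rw [mem_image] at hj
    obtain ⟨i, hi, rfl⟩ := hj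
    rw [← h1.2.1, mem_lp] at hi
    exact hi.2
  have h5 := h.dc_spec (hgn.image _) h1.1 h4 h3
  rw [fs, if_neg hne]
  refine ⟨h5.1, ?_⟩
  set c := dc E (fv D E A) (g.image D.nxt) with hc
  -- `g ⊆ lp c`, and `lp c` lies strictly inside `dn A`
  have h6 : g ⊆ D.lp (tv D A) c := by
    intro i hi
    rw [mem_lp]
    exact ⟨h.dn_side hA (hgd.1 hi), h5.2.1 (mem_image_of_mem _ hi)⟩
  have h7 : D.lp (tv D A) c ⊂ dn D E A := by
    constructor
    · rw [← h.lp_fv hA]
      intro i hi
      rw [mem_lp] at hi ⊢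
      exact ⟨hi.1, h5.1.2.1.1 hi.2⟩
    · intro h8
      exact h5.1.2.1.2 (h.fv_min hA h5.1.1 h8)
  have h8 : D.Side E (D.lp (tv D A) c) := h.full.closed _ h5.1.1 _ (hgn.mono h6)
  obtain ⟨g', hg', hne', hX⟩ := h.inside hA h8 (hgn.mono h6) h7
  obtain ⟨x, hx⟩ := hgn
  have : g = g' := h.germ_eq hg hg' hx (hX (h6 hx))
  subst this
  exact Subset.antisymm hX h6

/-- The image of a vertex is a vertex. -/
lemma fv_vert (h : Std D E) {A : Finset L} (hA : Vert E A) : Vert E (fv D E A) := by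
  obtain ⟨g, hg, hne⟩ := h.exists_germ hA
  have h1 := h.fs_spec hA.1 hg hne
  exact ⟨h.fv_mem hA.1, _, h1.1.1, h1.1.2.1⟩

lemma fs_rho (h : Std D E) {A : Finset L} : fs D E A (rho D E A) = (fv D E A)ᶜ := by
  rw [fs, if_pos rfl]

lemma fs_germ (h : Std D E) {A g : Finset L} (hA : A ∈ E) (hg : Germ E A g) :
    Germ E (fv D E A) (fs D E A g) := by
  by_cases hne : g = rho D E A
  · subst hne
    rw [h.fs_rho]
    exact Or.inl rfl
  · exact Or.inr (h.fs_spec hA hg hne).1

lemma fs_inj (h : Std D E) {A g g' : Finset L} (hA : A ∈ E) (hg : Germ E A g)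
    (hg' : Germ E A g') (heq : fs D E A g = fs D E A g') : g = g' := by
  have key : ∀ g g', Germ E A g → Germ E A g' → fs D E A g = fs D E A g' → g = rho D E A →
      g' = rho D E A := by
    intro g g' hg hg' heq h1
    by_contra hne
    subst h1
    rw [h.fs_rho] at heq
    have h2 := (h.fs_spec hA hg' hne).1
    rw [← heq] at h2
    obtain ⟨r, hr⟩ := h.nonempty h2.1
    have h4 := h2.2.1.1 hr
    rw [mem_compl] at hr
    exact hr h4
  by_cases h1 : g = rho D E A
  · rw [h1, key g g' hg hg' heq h1]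
  · by_cases h2 : g' = rho D E A
    · rw [h2, key g' g hg' hg heq.symm h2]
    · rw [← (h.fs_spec hA hg h1).2, ← (h.fs_spec hA hg' h2).2, heq]

/-- A child of the image vertex with nonempty pull-back is the image of a germ. -/
lemma child_lp (h : Std D E) {A c : Finset L} (hA : A ∈ E) (hc : Child E (fv D E A) c)
    (hne : (D.lp (tv D A) c).Nonempty) :
    ∃ g, Germ E A g ∧ g ≠ rho D E A ∧ fs D E A g = c ∧ D.lp (tv D A) c = g := by
  have h7 : D.lp (tv D A) c ⊂ dn D E A := by
    constructor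
    · rw [← h.lp_fv hA]
      intro i hi
      rw [mem_lp] at hi ⊢
      exact ⟨hi.1, hc.2.1.1 hi.2⟩
    · intro h8
      exact hc.2.1.2 (h.fv_min hA hc.1 h8)
  have h8 : D.Side E (D.lp (tv D A) c) := h.full.closed _ hc.1 _ hne
  obtain ⟨g, hg, hgn, hX⟩ := h.inside hA h8 hne h7
  have h1 := h.fs_spec hA hg hgn
  obtain ⟨x, hx⟩ := hne
  have h2 := hX hx
  rw [← h1.2, mem_lp] at h2
  have h3 : fs D E A g = c := h.child_eq h1.1 hc h2.2 (mem_lp.1 hx).2
  exact ⟨g, hg, hgn, h3, by rw [← h3]; exact h1.2⟩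

/-- Every letter of `A` is in a child or a centre. -/
lemma dn_two (h : Std D E) {A : Finset L} (hA : Vert E A) :
    ∃ i ∈ dn D E A, ∃ j ∈ dn D E A, i ≠ j := by
  obtain ⟨g, hg, hne⟩ := h.exists_germ hA
  have h1 := h.germ_ssubset_dn hg hne
  obtain ⟨i, hi⟩ := h.germ_nonempty hA.1 hg
  obtain ⟨j, hj, hj'⟩ := exists_of_ssubset h1
  exact ⟨i, h1.1 hi, j, hj, fun hij => hj' (hij ▸ hi)⟩

lemma nxt_injOn (h : Std D E) {A : Finset L} (hA : A ∈ E) {i j : L} (hi : i ∈ dn D E A)
    (hj : j ∈ dn D E A) (hij : D.nxt i = D.nxt j) : i = j :=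
  D.inj i j hij (by rw [h.dn_side hA hi, h.dn_side hA hj])

lemma nxt_mem_fv (h : Std D E) {A : Finset L} (hA : A ∈ E) {i : L} (hi : i ∈ dn D E A) :
    D.nxt i ∈ fv D E A := by
  rw [← h.lp_fv hA, mem_lp] at hi
  exact hi.2

lemma nxt_mem_fs (h : Std D E) {A g : Finset L} (hA : A ∈ E) (hg : Germ E A g)
    (hne : g ≠ rho D E A) {i : L} (hi : i ∈ g) : D.nxt i ∈ fs D E A g := by
  rw [← (h.fs_spec hA hg hne).2, mem_lp] at hi
  exact hi.2

end Std

end Cut

end R4
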