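import Pool.Agent.Work.MP_e3f5d9_al_h92.C1

/-!
# C2: itineraries, expansivity

* `Std.itin`: letters with the same itinerary are equal.
* `Std.self_map`: a set that is mapped into itself with constant sides has at most one element.
* `Std.exp`: every germ is eventually mapped to the germ of `0`.
-/

set_option autoImplicit false
set_option linter.unusedSectionVars false

open Finset

namespace R4

namespace Cut

variable {L : Type} [Fintype L] [DecidableEq L] {D : KS L} {E : Finset (Finset L)}

/-- The map on pairs (vertex, germ). -/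
def stp (D : KS L) (E : Finset (Finset L)) (z : Finset L × Finset L) : Finset L × Finset L :=
  (fv D E z.1, fs D E z.1 z.2)

namespace Std

lemma arrow_sep {B C : Finset L} {i j : L} (hs : D.side i = D.side j)
    (h : D.Arrow E B C) (hij : ¬ (i ∈ C ↔ j ∈ C)) : ¬ (D.nxt i ∈ B ↔ D.nxt j ∈ B) := by
  obtain ⟨_, _, s, rfl⟩ := h
  intro h1
  apply hij
  have h2 : i ∈ D.lp s B ↔ j ∈ D.lp s B := by
    rw [mem_lp, mem_lp, hs, h1]
  rw [KS.nm]
  split_ifs
  · rw [mem_compl, mem_compl, h2]
  · exact h2

lemma path_sep {n : ℕ} {B A : Finset L} (h : D.Path E n B A) {i j : L}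
    (hs : ∀ k, k < n → D.side (D.nxt^[k] i) = D.side (D.nxt^[k] j)) (hij : ¬ (i ∈ A ↔ j ∈ A)) :
    ¬ (D.nxt^[n] i ∈ B ↔ D.nxt^[n] j ∈ B) := by
  induction n generalizing B with
  | zero => obtain ⟨_, rfl⟩ := h; exact hij
  | succ n ih =>
    obtain ⟨C, h1, h2⟩ := h
    have h3 := ih h2 fun k hk => hs k (by omega)
    rw [Function.iterate_succ_apply', Function.iterate_succ_apply']
    exact arrow_sep (hs n (by omega)) h1 h3

/-- Letters with the same itinerary are equal. -/
lemma itin (h : Std D E) {i j : L}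
    (hs : ∀ k, D.side (D.nxt^[k] i) = D.side (D.nxt^[k] j)) : i = j := by
  by_contra hne
  obtain ⟨A, hA, hAij⟩ := h.full.sep i j hne
  obtain ⟨n, hn, hp⟩ := h.full.mix
  have h1 := path_sep (hp _ h.full.base _ hA) (fun k _ => hs k) hAij
  apply h1
  obtain ⟨m, rfl⟩ : ∃ m, n = m + 1 := ⟨n - 1, by omega⟩
  rw [Function.iterate_succ_apply', Function.iterate_succ_apply']
  simp [D.nxt_ne]

/-- A set that is mapped into itself with constant sides has at most one element. -/
lemma self_map (h : Std D E) {M : Finset L} {n : ℕ} (hn : 0 < n)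
    (hmap : ∀ x ∈ M, D.nxt^[n] x ∈ M)
    (hcs : ∀ k < n, ∀ x ∈ M, ∀ y ∈ M, D.side (D.nxt^[k] x) = D.side (D.nxt^[k] y)) {x y : L}
    (hx : x ∈ M) (hy : y ∈ M) : x = y := by
  apply h.itin
  have key : ∀ k, ∀ x ∈ M, ∀ y ∈ M, D.side (D.nxt^[k] x) = D.side (D.nxt^[k] y) := by
    intro k
    induction k using Nat.strong_induction_on with
    | _ k ih =>
      intro x hx y hy
      rcases Nat.lt_or_ge k n with h1 | h1
      · exact hcs k h1 x hx y hy
      · have h2 := ih (k - n) (by omega) _ (hmap x hx) _ (hmap y hy)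
        rw [← Function.iterate_add_apply, ← Function.iterate_add_apply] at h2
        rwa [show k - n + n = k by omega] at h2
  intro k
  exact key k x hx y hy

/-- A cut whose pull-back lies in the germ `g` lies in the image of `g`. -/
lemma sub_fs (h : Std D E) {A g C : Finset L} (hA : A ∈ E) (hg : Germ E A g)
    (hne : g ≠ rho D E A) (hC : C ∈ E) (hn : (D.lp (tv D A) C).Nonempty)
    (hCg : D.lp (tv D A) C ⊆ g) : C ⊆ fs D E A g := by
  have h1 := h.fs_spec hA hg hne
  obtain ⟨x, hx⟩ := hn
  have hx1 := (mem_lp.1 hx).2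
  have hx2 := h.nxt_mem_fs hA hg hne (hCg hx)
  rcases h.lam' hC h1.1.1 hx1 hx2 with h2 | h2
  · exact h2
  · by_cases h3 : C = fs D E A g
    · rw [h3]
    · exfalso
      have h4 : fs D E A g ⊂ C := lt_of_le_of_ne h2 (Ne.symm h3)
      have h5 := h1.1.2.2 C hC h4
      have h6 : fv D E A ⊆ C := by
        rcases h.lam' hC (h.fv_mem hA) hx1 (h1.1.2.1.1 hx2) with h7 | h7
        · by_cases h8 : C = fv D E A
          · rw [h8]
          · exact absurd (lt_of_le_of_ne h7 h8) h5
        · exact h7
      have h7 : dn D E A ⊆ D.lp (tv D A) C := by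
        rw [← h.lp_fv hA]
        intro i hi
        rw [mem_lp] at hi ⊢
        exact ⟨hi.1, h6 hi.2⟩
      exact (h.germ_ssubset_dn hg hne).2 (h7.trans hCg)

lemma stp_vert (h : Std D E) {z : Finset L × Finset L} (hA : Vert E z.1) (hg : Germ E z.1 z.2)
    (n : ℕ) : Vert E ((stp D E)^[n] z).1 ∧ Germ E ((stp D E)^[n] z).1 ((stp D E)^[n] z).2 := by
  induction n with
  | zero => exact ⟨hA, hg⟩
  | succ n ih =>
    rw [Function.iterate_succ_apply']
    exact ⟨h.fv_vert ih.1, h.fs_germ ih.1.1 ih.2⟩

/-- Every germ is eventually mapped to the germ of `0`. -/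
lemma exp (h : Std D E) {A g : Finset L} (hA : Vert E A) (hg : Germ E A g) :
    ∃ n, ((stp D E)^[n] (A, g)).2 = rho D E ((stp D E)^[n] (A, g)).1 := by
  by_contra hcon
  push Not at hcon
  have hv : ∀ n, Vert E ((stp D E)^[n] (A, g)).1 ∧
      Germ E ((stp D E)^[n] (A, g)).1 ((stp D E)^[n] (A, g)).2 := h.stp_vert hA hg
  -- step: a cut whose pull-back lies in the `n`-th germ lies in the next one
  have hstep : ∀ n C, C ∈ E → (D.lp (tv D ((stp D E)^[n] (A, g)).1) C).Nonempty →
      D.lp (tv D ((stp D E)^[n] (A, g)).1) C ⊆ ((stp D E)^[n] (A, g)).2 →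
      C ⊆ ((stp D E)^[n + 1] (A, g)).2 := by
    intro n C hC hn hCg
    rw [Function.iterate_succ_apply']
    exact h.sub_fs (hv n).1.1 (hv n).2 (hcon n) hC hn hCg
  have hchild : ∀ n, Child E ((stp D E)^[n + 1] (A, g)).1 ((stp D E)^[n + 1] (A, g)).2 := by
    intro n
    rw [Function.iterate_succ_apply']
    exact (h.fs_spec (hv n).1.1 (hv n).2 (hcon n)).1
  have hsg : ∀ n, ∀ i ∈ ((stp D E)^[n] (A, g)).2,
      D.side i = tv D ((stp D E)^[n] (A, g)).1 := by
    intro n i hi
    exact h.dn_side (hv n).1.1 (h.germ_subset_dn (hv n).2 (hcon n) hi)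
  -- a cut `C'` inside the `n`-th germ is a pull-back of the first kind
  have hfst : ∀ n C C', D.Arrow E C C' → C' ⊆ ((stp D E)^[n] (A, g)).2 →
      C ⊆ ((stp D E)^[n + 1] (A, g)).2 := by
    intro n C C' ⟨hC, hC', s, hs⟩ hsub
    have hn := h.nonempty hC'
    rw [KS.nm] at hs
    split_ifs at hs with h1
    · -- `C' = (lp s C)ᶜ ⊇ Fs`
      exfalso
      have hst : s = true := by rw [← (mem_lp.1 h1).1, h.ho]
      subst hst
      have h2 : Fs D ⊆ C' := by
        intro i hi
        rw [← hs, mem_compl, mem_lp]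
        rw [mem_Fs] at hi
        simp [hi]
      obtain ⟨f, hf⟩ := h.Fs_nonempty
      have h3 : tv D ((stp D E)^[n] (A, g)).1 = false := by
        rw [← hsg n f (hsub (h2 hf))]; exact mem_Fs.1 hf
      have h4 : ((stp D E)^[n] (A, g)).1 ⊆ Fs D := by
        by_contra h5
        rw [tv_true h5] at h3
        exact absurd h3 (by simp)
      have h5 := h.germ_ssubset_dn (hv n).2 (hcon n)
      rw [dn_off (fun h6 => h6.2 h4)] at h5
      exact h5.2 (h4.trans (h2.trans hsub))
    · obtain ⟨x, hx⟩ := hn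
      have hst : s = tv D ((stp D E)^[n] (A, g)).1 := by
        have h2 := hsg n x (hsub hx)
        rw [← hs, mem_lp] at hx
        rw [← h2, hx.1]
      subst hst
      exact hstep n C hC ⟨x, by rw [hs]; exact hx⟩ (by rw [hs]; exact hsub)
  have hfirst : ∀ C, D.Arrow E C (D.nm g) → C ⊆ ((stp D E)^[1] (A, g)).2 := by
    intro C harr
    rcases hg with hgA | hgc
    · -- `g = Aᶜ`, hence `A` is on the axis
      have hax : Fs D ⊂ A := by
        by_contra hax
        exact hcon 0 (by simp [hgA, rho_off hax])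
      obtain ⟨hC, hC', s, hs⟩ := harr
      have h1 : D.nm g = A := by
        rw [hgA, KS.nm, if_pos (by simpa using h.o_notMem hA.1), compl_compl]
      rw [h1, KS.nm] at hs
      split_ifs at hs with h2
      · have hst : s = true := by rw [← (mem_lp.1 h2).1, h.ho]
        subst hst
        have h3 : D.lp true C = g := by rw [hgA, ← hs, compl_compl]
        have h4 : tv D ((stp D E)^[0] (A, g)).1 = true := tv_true hax.2
        apply hstep 0 C hC
        · rw [h4, h3]; exact h.germ_nonempty hA.1 (Or.inl hgA)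
        · rw [h4, h3]; exact Subset.refl _
      · exfalso
        obtain ⟨f, hf⟩ := h.Fs_nonempty
        have h3 : s = false := by
          have := hax.1 hf
          rw [← hs, mem_lp] at this
          rw [← this.1]; exact mem_Fs.1 hf
        apply hax.2
        intro i hi
        rw [← hs, mem_lp, h3] at hi
        exact mem_Fs.2 hi.1
    · have h1 : D.nm g = g := by rw [KS.nm, if_neg (h.o_notMem hgc.1)]
      rw [h1] at harr
      exact hfst 0 C g harr (Subset.refl _)
  have hpath : ∀ n C, D.Path E (n + 1) C (D.nm g) → C ⊆ ((stp D E)^[n + 1] (A, g)).2 := by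
    intro n
    induction n with
    | zero =>
      intro C ⟨C', h1, _, h2⟩
      subst h2
      exact hfirst C h1
    | succ n ih =>
      intro C ⟨C', h1, h2⟩
      exact hfst (n + 1) C C' h1 (ih C' h2)
  obtain ⟨n, hn, hp⟩ := h.full.mix
  obtain ⟨m, rfl⟩ : ∃ m, n = m + 1 := ⟨n - 1, by omega⟩
  have h1 := hpath m _ (hp _ h.full.base _ (h.germ_side hA.1 hg))
  have h2 := (hchild m).2.1
  apply h2.2
  intro x hx
  apply h1
  rw [mem_compl, mem_singleton]
  rintro rfl
  exact h.o_notMem (hv (m + 1)).1.1 hx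

end Std

end Cut

end R4
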