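import Pool.Agent.Work.MP_e3f5d9_al_h92.C3

/-!
# C4: the dependency graph of the vertices (Theorem A')

Steps: `A → fv A`, and `A → V` (`VS`) if `V` is a vertex strictly above `fv A` whose vertical pair
(child towards `fv A`, `Vᶜ`) is not monotone.  `Std.acyclic`: periodic walks contain no `VS` step.
-/

set_option autoImplicit false
set_option linter.unusedSectionVars false

open Finset

namespace R4

namespace Cut

variable {L : Type} [Fintype L] [DecidableEq L]

/-- `V` is a vertex strictly above `fv A` with a vertical pair that is not monotone. -/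
def VS (D : KS L) (E : Finset (Finset L)) (A V : Finset L) : Prop :=
  Vert E V ∧ ∃ B, Child E V B ∧ fv D E A ⊆ B ∧ ¬ D.Mono E B Vᶜ

/-- The vertex `alpha`. -/
def IsAl (D : KS L) (N : Finset L) (kk : L → ℕ) (A : Finset L) : Prop :=
  A = (clN D N kk 1)ᶜ ∧ A ≠ clN D N kk 0

/-- The smallest cut that contains `R` strictly. -/
def par (E : Finset (Finset L)) (R : Finset L) : Finset L := (E.filter fun C => R ⊂ C).inf id

variable {D : KS L} {E : Finset (Finset L)} {N : Finset L} {kk : L → ℕ}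

namespace Std

lemma par_spec (h : Std D E) {R C : Finset L} (hR : R ∈ E) (hC : C ∈ E) (hRC : R ⊂ C) :
    par E R ∈ E ∧ Child E (par E R) R ∧ ∀ C ∈ E, R ⊂ C → par E R ⊆ C := by
  obtain ⟨M, hM, hmin⟩ := exists_min_image (E.filter fun C => R ⊂ C) card
    ⟨C, mem_filter.2 ⟨hC, hRC⟩⟩
  rw [mem_filter] at hM
  obtain ⟨x, hx⟩ := h.nonempty hR
  have h1 : ∀ C ∈ E, R ⊂ C → M ⊆ C := by
    intro C hC hSC
    rcases h.lam' hM.1 hC (hM.2.1 hx) (hSC.1 hx) with h2 | h2
    · exact h2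
    · have := hmin C (mem_filter.2 ⟨hC, hSC⟩)
      rw [eq_of_subset_of_card_le h2 this]
  have h2 : par E R = M := by
    apply le_antisymm
    · exact inf_le (f := id) (mem_filter.2 hM)
    · apply Finset.le_inf
      intro C hC
      rw [mem_filter] at hC
      exact h1 C hC.1 hC.2
  rw [h2]
  refine ⟨hM.1, ⟨hR, hM.2, ?_⟩, h1⟩
  intro C hC hRC hCM
  exact hCM.2 (h1 C hC hRC)

lemma rho_eq (h : Std D E) {A R : Finset L} (hR : Child E A R) (hF : Fs D ⊆ R) :
    rho D E A = R := by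
  have hax : Fs D ⊂ A := lt_of_le_of_lt hF hR.2.1
  have h1 := h.rho_child hax
  obtain ⟨f, hf⟩ := h.Fs_nonempty
  exact h.child_eq h1.1 hR (h1.2 hf) (hF hf)

lemma lp_side_o (h : Std D E) {A : Finset L} {t : Bool} (ho : D.o ∈ D.lp t A) : t = true := by
  rw [← (mem_lp.1 ho).1, h.ho]

/-- Factorisation of the `VS` steps. -/
lemma vs_factor (h : Std D E) {A V B : Finset L} (hA : Vert E A) (hV : Vert E V)
    (hB : Child E V B) (hAB : fv D E A ⊆ B) (hM : ¬ D.Mono E B Vᶜ) :
    ∃ w g, Vert E w ∧ fv D E w = V ∧ Germ E w g ∧ g ≠ rho D E w ∧ fs D E w g = B ∧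
      dn D E A ⊆ g ∧ ¬ D.Mono E g (rho D E w) := by
  set t := tv D A with ht
  have hoV : D.o ∈ Vᶜ := by rw [mem_compl]; exact h.o_notMem hV.1
  have hdisj : Disjoint Vᶜ B := by
    rw [disjoint_left]
    intro x hx hx'
    rw [mem_compl] at hx
    exact hx (hB.2.1.1 hx')
  have hdB : dn D E A ⊆ D.lp t B := by
    rw [← h.lp_fv hA.1]
    exact IsKN.lp_mono hAB
  have hBX : D.lp t B ⊆ D.lp t V := IsKN.lp_mono hB.2.1.1
  have hne : (D.lp t B).Nonempty := (h.dn_nonempty hA.1).mono hdB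
  have hXS : D.Side E (D.lp t V) := h.full.closed _ hV.1 _ (hne.mono hBX)
  have hstr : D.lp t B ⊂ D.lp t V := by
    refine ⟨hBX, fun h1 => hM ?_⟩
    have h2 : D.lp t B = D.lp t V := Subset.antisymm hBX h1
    apply KS.Mono.symm
    apply KS.Mono.image t _ _ hoV hdisj
    rw [compl_compl, h2]
    exact KS.Mono.symm _ _ (KS.Mono.triv _ hXS)
  -- the vertex `w`
  obtain ⟨w, hw, hdw, htw⟩ : ∃ w, Vert E w ∧ dn D E w = D.lp t V ∧ tv D w = t := by
    have hXF : ∀ i ∈ D.lp t V, D.side i = t := fun i hi => (mem_lp.1 hi).1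
    rcases side_cases hXS with ⟨ho, hXE⟩ | ⟨ho, hXE⟩
    · have hoff : ¬ Fs D ⊂ D.lp t V := by
        intro h1
        obtain ⟨f, hf⟩ := h.Fs_nonempty
        have h2 := hXF f (h1.1 hf)
        rw [mem_Fs.1 hf] at h2
        apply h1.2
        intro i hi
        rw [mem_Fs, hXF i hi, h2]
      refine ⟨D.lp t V, ⟨hXE, D.lp t B, ?_, hstr⟩, dn_off hoff, ?_⟩
      · have h1 := h.full.closed _ hB.1 t hne
        rwa [KS.nm, if_neg (fun h2 => ho (hBX h2))] at h1
      · obtain ⟨x, hx⟩ := hne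
        have h1 := h.dn_side hXE (i := x) (by rw [dn_off hoff]; exact hBX hx)
        rw [← h1]
        exact hXF x (hBX hx)
    · have ht1 : t = true := h.lp_side_o ho
      have hFR : Fs D ⊆ (D.lp t V)ᶜ := by
        intro i hi
        rw [mem_compl]
        intro h1
        rw [mem_Fs, hXF i h1, ht1] at hi
        exact absurd hi (by simp)
      have hRb : (D.lp t V)ᶜ ⊂ ({D.o} : Finset L)ᶜ := by
        refine ⟨?_, fun h1 => ?_⟩
        · rw [compl_subset_compl]; simpa using ho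
        · rw [compl_subset_compl] at h1
          obtain ⟨x, hx⟩ := hne
          apply hstr.2
          intro y hy
          have h2 := h1 hy
          have h3 := h1 (hBX hx)
          rw [mem_singleton] at h2 h3
          rw [h2, ← h3]; exact hx
      have hp := h.par_spec hXE h.full.base hRb
      have hax : Fs D ⊂ par E (D.lp t V)ᶜ := lt_of_le_of_lt hFR hp.2.1.2.1
      refine ⟨par E (D.lp t V)ᶜ, ⟨hp.1, _, hXE, hp.2.1.2.1⟩, ?_, ?_⟩
      · rw [dn, h.rho_eq hp.2.1 hFR, compl_compl]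
      · exact (tv_true hax.2).trans ht1.symm
  have hfw : fv D E w = V := by
    have h1 : fv D E w ⊆ V := h.fv_min hw.1 hV.1 (by rw [hdw, htw])
    obtain ⟨x, hx⟩ := h.dn_nonempty hA.1
    have hx1 : D.nxt x ∈ B := (mem_lp.1 (hdB hx)).2
    have hx2 : D.nxt x ∈ fv D E w := h.nxt_mem_fv hw.1 (by rw [hdw]; exact hBX (hdB hx))
    rcases h.lam' (h.fv_mem hw.1) hB.1 hx2 hx1 with h2 | h2
    · exfalso
      apply hstr.2
      rw [← hdw, ← h.lp_fv hw.1, htw]
      exact IsKN.lp_mono h2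
    · by_contra hne2
      have h3 : fv D E w ⊂ V := lt_of_le_of_ne h1 hne2
      by_cases h4 : B = fv D E w
      · apply hstr.2
        rw [← hdw, ← h.lp_fv hw.1, htw, ← h4]
      · exact hB.2.2 _ (h.fv_mem hw.1) (lt_of_le_of_ne h2 h4) h3
  obtain ⟨g, hg, hgn, hfg, hlg⟩ := h.child_lp hw.1 (by rw [hfw]; exact hB)
    (by rw [htw]; exact hne)
  rw [htw] at hlg
  refine ⟨w, g, hw, hfw, hg, hgn, hfg, by rw [← hlg]; exact hdB, fun h1 => hM ?_⟩
  apply KS.Mono.symm
  apply KS.Mono.image t _ _ hoV hdisj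
  rw [compl_compl, hlg, ← hdw, dn, compl_compl]
  exact KS.Mono.symm _ _ h1

/-- `not Mono` is carried forward. -/
lemma nm_forward (h : Std D E) {A g : Finset L} (hA : A ∈ E) (hg : Germ E A g)
    (hne : g ≠ rho D E A) (hM : ¬ D.Mono E g (rho D E A)) :
    ¬ D.Mono E (fs D E A g) (fv D E A)ᶜ := by
  intro h1
  apply hM
  have h2 := h.fs_spec hA hg hne
  have hoV : D.o ∈ (fv D E A)ᶜ := by rw [mem_compl]; exact h.o_notMem (h.fv_mem hA)
  have hdisj : Disjoint (fv D E A)ᶜ (fs D E A g) := by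
    rw [disjoint_left]
    intro x hx hx'
    rw [mem_compl] at hx
    exact hx (h2.1.2.1.1 hx')
  have h3 := KS.Mono.lift (E := E) (tv D A) (fv D E A)ᶜ (fs D E A g) hoV hdisj
    (h.side_compl (h.fv_mem hA)) (h.side_of_mem h2.1.1)
    (by rw [compl_compl, h.lp_fv hA, dn, compl_compl]; exact h.germ_side hA h.rho_germ)
    (by rw [h2.2]; exact h.germ_side hA hg) (KS.Mono.symm _ _ h1)
  rw [compl_compl, h.lp_fv hA, dn, compl_compl, h2.2] at h3
  exact KS.Mono.symm _ _ h3

end Std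

/-! ### The vertex alpha -/

namespace IsKN

lemma al_axis (h : Std D E) (hk : IsKN D N kk) {A : Finset L} (hA : IsAl D N kk A) :
    Fs D ⊂ A := by
  have h1 : clN D N kk 0 ⊆ A := by
    rw [hA.1]
    intro i hi
    rw [mem_compl]
    intro h2
    have h3 := cl_eq hi h2
    have h4 := hk.two_le
    rw [Nat.ModEq, Nat.zero_mod, Nat.mod_eq_of_lt (show 1 < kk D.o + 1 by omega)] at h3
    omega
  have h2 : clN D N kk 0 ⊂ A := lt_of_le_of_ne h1 (Ne.symm hA.2)
  exact lt_of_le_of_lt hk.Fs_sub h2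

lemma cl_zero_child (h : Std D E) (hk : IsKN D N kk) {A : Finset L} (hA : IsAl D N kk A) :
    Child E A (clN D N kk 0) := by
  have h1 : clN D N kk 0 ⊆ A := by
    rw [hA.1]
    intro i hi
    rw [mem_compl]
    intro h2
    have h3 := cl_eq hi h2
    have h4 := hk.two_le
    rw [Nat.ModEq, Nat.zero_mod, Nat.mod_eq_of_lt (show 1 < kk D.o + 1 by omega)] at h3
    omega
  refine ⟨?_, lt_of_le_of_ne h1 (Ne.symm hA.2), ?_⟩
  · rw [← cl_zero]; exact hk.cl_mem h hk.two_le (le_refl _)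
  · intro C hC h2 h3
    obtain ⟨j, hj⟩ := hk.arm h hC
    rcases hj with hj | hj
    · obtain ⟨f, hf⟩ := h.Fs_nonempty
      have h4 := cl_eq (hj (h2.1 (hk.Fs_sub hf))) (hk.Fs_sub hf)
      apply h2.2
      intro i hi
      have h5 := hj hi
      rw [mem_cl] at h5 ⊢
      refine ⟨h5.1, ?_⟩
      have h6 : kk i + j ≡ kk i + 0 [MOD kk D.o + 1] := Nat.ModEq.add_left _ h4
      exact Nat.modEq_zero_iff_dvd.1 (h6.symm.trans (Nat.modEq_zero_iff_dvd.2 h5.2))
    · have ho : D.o ∈ Cᶜ := by rw [mem_compl]; exact h.o_notMem hC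
      have h4 := cl_eq (hj ho) hk.o_mem
      apply h3.2
      rw [hA.1]
      intro i hi
      by_contra h5
      have h6 := hj (mem_compl.2 h5)
      rw [mem_compl] at hi
      apply hi
      rw [mem_cl] at h6 ⊢
      refine ⟨h6.1, ?_⟩
      have h7 : kk i + j ≡ kk i + 1 [MOD kk D.o + 1] := Nat.ModEq.add_left _ h4
      exact Nat.modEq_zero_iff_dvd.1 (h7.symm.trans (Nat.modEq_zero_iff_dvd.2 h6.2))

lemma rho_al (h : Std D E) (hk : IsKN D N kk) {A : Finset L} (hA : IsAl D N kk A) :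
    rho D E A = clN D N kk 0 := h.rho_eq (hk.cl_zero_child h hA) hk.Fs_sub

/-- `alpha` is fixed. -/
lemma fv_al (h : Std D E) (hk : IsKN D N kk) {A : Finset L} (hA : IsAl D N kk A) :
    fv D E A = A := by
  have hax := hk.al_axis h hA
  have hAE : A ∈ E := by rw [hA.1]; exact hk.al_mem h
  have h1 : dn D E A = D.lp true A := by
    rw [dn, hk.rho_al h hA, ← hk.lp_compl_one, hA.1]
  have htv : tv D A = true := Std.tv_true hax.2
  have h2 : fv D E A ⊆ A := h.fv_min hAE hAE (by rw [htv, h1])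
  by_contra hne
  have h3 : fv D E A ⊂ A := lt_of_le_of_ne h2 hne
  have h4 := h.lp_fv hAE
  rw [htv] at h4
  have ho : D.o ∈ dn D E A := by
    rw [dn, hk.rho_al h hA, mem_compl]
    exact hk.o_notMem (by omega) (by omega)
  obtain ⟨j, hj⟩ := hk.arm h (h.fv_mem hAE)
  rcases hj with hj | hj
  · -- `fv A ⊆ cl j`, hence all letters outside of `cl 0` are in `cl 1`
    obtain ⟨j', hj'⟩ : ∃ j', clN D N kk j = clN D N kk (j' + 1) := by
      refine ⟨j + kk D.o, ?_⟩
      rw [← cl_mod (D := D) (N := N) (kk := kk) j 1]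
      congr 1
      omega
    rw [hj'] at hj
    have h5 : dn D E A ⊆ clN D N kk j' := by
      rw [← h4]
      have := lp_mono (t := true) (D := D) hj
      rw [hk.lp_cl] at this
      exact this.trans (filter_subset _ _)
    have h6 := cl_eq (h5 ho) hk.o_mem
    apply hA.2
    apply Subset.antisymm
    · rw [hA.1]
      intro i hi
      by_contra h7
      have h8 : i ∈ dn D E A := by rw [dn, hk.rho_al h hA, mem_compl]; exact h7
      have h9 := h5 h8
      rw [mem_compl] at hi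
      apply hi
      rw [mem_cl] at h9 ⊢
      refine ⟨h9.1, ?_⟩
      have h10 : kk i + j' ≡ kk i + 1 [MOD kk D.o + 1] := Nat.ModEq.add_left _ h6
      exact Nat.modEq_zero_iff_dvd.1 (h10.symm.trans (Nat.modEq_zero_iff_dvd.2 h9.2))
    · exact (hk.cl_zero_child h hA).2.1.1
  · have ho1 : D.o ∈ (fv D E A)ᶜ := by rw [mem_compl]; exact h.o_notMem (h.fv_mem hAE)
    have h5 := cl_eq (hj ho1) hk.o_mem
    apply h3.2
    intro i hi
    by_contra h6
    have h7 := hj (mem_compl.2 h6)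
    have hi' : i ∈ (clN D N kk 1)ᶜ := by rw [← hA.1]; exact hi
    rw [mem_compl] at hi'
    apply hi'
    rw [mem_cl] at h7 ⊢
    refine ⟨h7.1, ?_⟩
    have h8 : kk i + j ≡ kk i + 1 [MOD kk D.o + 1] := Nat.ModEq.add_left _ h5
    exact Nat.modEq_zero_iff_dvd.1 (h8.symm.trans (Nat.modEq_zero_iff_dvd.2 h7.2))

/-- The position of an axis cut relative to `alpha`. -/
lemma axis_cases (h : Std D E) (hk : IsKN D N kk) {A : Finset L} (hA : A ∈ E)
    (hax : Fs D ⊂ A) : (clN D N kk 1)ᶜ ⊂ A ∨ A = (clN D N kk 1)ᶜ ∨ A ⊆ clN D N kk 0 := by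
  obtain ⟨j, hj⟩ := hk.arm h hA
  rcases hj with hj | hj
  · right; right
    obtain ⟨f, hf⟩ := h.Fs_nonempty
    have h4 := cl_eq (hj (hax.1 hf)) (hk.Fs_sub hf)
    intro i hi
    have h5 := hj hi
    rw [mem_cl] at h5 ⊢
    refine ⟨h5.1, ?_⟩
    have h6 : kk i + j ≡ kk i + 0 [MOD kk D.o + 1] := Nat.ModEq.add_left _ h4
    exact Nat.modEq_zero_iff_dvd.1 (h6.symm.trans (Nat.modEq_zero_iff_dvd.2 h5.2))
  · have ho : D.o ∈ Aᶜ := by rw [mem_compl]; exact h.o_notMem hA
    have h4 := cl_eq (hj ho) hk.o_mem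
    have h5 : (clN D N kk 1)ᶜ ⊆ A := by
      intro i hi
      by_contra h6
      have h7 := hj (mem_compl.2 h6)
      rw [mem_compl] at hi
      apply hi
      rw [mem_cl] at h7 ⊢
      refine ⟨h7.1, ?_⟩
      have h8 : kk i + j ≡ kk i + 1 [MOD kk D.o + 1] := Nat.ModEq.add_left _ h4
      exact Nat.modEq_zero_iff_dvd.1 (h8.symm.trans (Nat.modEq_zero_iff_dvd.2 h7.2))
    by_cases h6 : A = (clN D N kk 1)ᶜ
    · exact Or.inr (Or.inl h6)
    · exact Or.inl (lt_of_le_of_ne h5 (Ne.symm h6))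

/-- The vertical pair (germ of `0`, germ of `o`) of an axis vertex other than `alpha` is monotone. -/
lemma mono_axis (h : Std D E) (hk : IsKN D N kk) {A : Finset L} (hA : A ∈ E)
    (hax : Fs D ⊂ A) (hal : ¬ IsAl D N kk A) : D.Mono E (rho D E A) Aᶜ := by
  have hr := h.rho_child hax
  have hzero : A ⊆ clN D N kk 0 → D.Mono E (rho D E A) Aᶜ := fun h1 =>
    KS.Mono.symm _ _ (hk.mono_zero h hr.2 hr.1.2.1.1 h1)
  rcases hk.axis_cases h hA hax with h1 | h1 | h1
  · -- above alpha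
    have h2 : (clN D N kk 1)ᶜ ⊆ rho D E A := by
      rw [Std.rho_axis hax]
      apply (h.dc_spec h.Fs_nonempty h.Fs_mem (Subset.refl _) hax).2.2 _ (hk.al_mem h) _ h1
      intro i hi
      rw [mem_compl]
      intro h3
      have h4 := cl_eq (hk.Fs_sub hi) h3
      have h5 := hk.two_le
      rw [Nat.ModEq, Nat.zero_mod, Nat.mod_eq_of_lt (show 1 < kk D.o + 1 by omega)] at h4
      omega
    have h3 := hk.mono_al h (E := E) (Y := Aᶜ) (V := (rho D E A)ᶜ)
      (by rw [mem_compl]; exact h.o_notMem hA) (compl_subset_compl.2 hr.1.2.1.1)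
      (by rw [← compl_compl (clN D N kk 1), compl_subset_compl]; exact h2)
    rwa [compl_compl] at h3
  · by_cases h2 : A = clN D N kk 0
    · exact hzero (by rw [← h2])
    · exact absurd ⟨h1, h2⟩ hal
  · exact hzero h1

/-- The owner at an axis cut above `alpha` (or at `alpha`). -/
lemma mono_own (h : Std D E) (hk : IsKN D N kk) {A : Finset L} (hA : A ∈ E)
    (hal : (clN D N kk 1)ᶜ ⊆ A) : D.Mono E A {D.o} := by
  have h3 := hk.mono_al h (E := E) (Y := {D.o}) (V := Aᶜ) (mem_singleton_self _)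
    (by
      intro x hx
      rw [mem_singleton] at hx
      rw [hx, mem_compl]
      exact h.o_notMem hA)
    (by rw [← compl_compl (clN D N kk 1), compl_subset_compl]; exact hal)
  rwa [compl_compl] at h3

/-- There is no `VS` step from `alpha`. -/
lemma no_vs_al (h : Std D E) (hk : IsKN D N kk) {A V : Finset L} (hA : IsAl D N kk A) :
    ¬ VS D E A V := by
  rintro ⟨hV, B, hB, hAB, hM⟩
  rw [hk.fv_al h hA] at hAB
  apply hM
  have hax := hk.al_axis h hA
  have h1 : rho D E V = B := h.rho_eq hB (hax.1.trans hAB)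
  rw [← h1]
  apply hk.mono_axis h hV.1 (lt_of_lt_of_le hax (hAB.trans hB.2.1.1))
  intro h2
  rw [h2.1, ← hA.1] at hB
  exact hB.2.1.2 hAB

/-- A `VS` step from an axis vertex goes to `alpha`. -/
lemma vs_axis (h : Std D E) (hk : IsKN D N kk) {A V : Finset L} (hA : Vert E A)
    (hax : Fs D ⊂ A) (hs : VS D E A V) : IsAl D N kk V := by
  obtain ⟨hV, B, hB, hAB, hM⟩ := hs
  obtain ⟨w, g, hw, hfw, hg, hgn, hfg, hdg, hMw⟩ := h.vs_factor hA hV hB hAB hM
  have ho : D.o ∈ g := hdg (by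
    rw [dn, mem_compl]
    exact h.o_notMem (h.rho_child hax).1.1)
  rcases hg with rfl | hg
  · have haxw : Fs D ⊂ w := by
      by_contra h1
      exact hgn (Std.rho_off h1).symm
    by_contra hal
    apply hMw
    apply KS.Mono.symm
    apply hk.mono_axis h hw.1 haxw
    intro h1
    apply hal
    rw [← hfw, hk.fv_al h h1]
    exact h1
  · exact absurd ho (h.o_notMem hg.1)

end IsKN

end Cut

end R4
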