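import Pool.Agent.Work.MP_e3f5d9_al_h92.C4

/-!
# C5: periodic walks in the dependency graph contain no `VS` step (Theorem A')
-/

set_option autoImplicit false
set_option linter.unusedSectionVars false

open Finset

namespace R4

namespace Cut

variable {L : Type} [Fintype L] [DecidableEq L]

/-- Walks in the dependency graph. -/
structure Walk (D : KS L) (E : Finset (Finset L)) (x : ℕ → Finset L) : Prop where
  vert : ∀ k, Vert E (x k)
  step : ∀ k, x (k + 1) = fv D E (x k) ∨ VS D E (x k) (x (k + 1))

/-- The set `S` at the position `k` is carried, with constant sides, into one germ of `x n` that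
does not contain `0` or `o`. -/
def Trk (D : KS L) (E : Finset (Finset L)) (x : ℕ → Finset L) (n k : ℕ) (S : Finset L) : Prop :=
  ∃ g, Child E (x n) g ∧ g ≠ rho D E (x n) ∧ (∀ i ∈ S, D.nxt^[n - k] i ∈ g) ∧
    ∀ j < n - k, ∀ i ∈ S, D.nxt^[j] i ∈ dn D E (x (k + j))

variable {D : KS L} {E : Finset (Finset L)} {N : Finset L} {kk : L → ℕ} {x : ℕ → Finset L}

lemma trk_step {n k : ℕ} {S S' : Finset L} (hk : k < n) (h : Trk D E x n (k + 1) S')
    (h1 : ∀ i ∈ S, i ∈ dn D E (x k)) (h2 : ∀ i ∈ S, D.nxt i ∈ S') : Trk D E x n k S := by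
  obtain ⟨g, hg, hne, h3, h4⟩ := h
  refine ⟨g, hg, hne, ?_, ?_⟩
  · intro i hi
    have := h3 _ (h2 i hi)
    rw [← Function.iterate_succ_apply] at this
    rwa [show (n - (k + 1)).succ = n - k by omega] at this
  · intro j hj i hi
    rcases Nat.eq_zero_or_pos j with rfl | h0
    · exact h1 i hi
    · obtain ⟨j, rfl⟩ : ∃ m, j = m + 1 := ⟨j - 1, by omega⟩
      have := h4 j (by omega) _ (h2 i hi)
      rw [← Function.iterate_succ_apply] at this
      rwa [show k + 1 + j = k + (j + 1) by ring] at this

lemma trk_absurd (h : Std D E) (hw : Walk D E x) {n k : ℕ} {S : Finset L} (hk : k < n)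
    (ht : Trk D E x n k S) (hS : dn D E (x n) ⊆ S) : False := by
  obtain ⟨g, hg, hne, h3, h4⟩ := ht
  obtain ⟨i, hi, j, hj, hij⟩ := h.dn_two (hw.vert n)
  apply hij
  apply h.self_map (M := dn D E (x n)) (n := n - k) (by omega) _ _ hi hj
  · intro y hy
    exact h.germ_subset_dn (Or.inr hg) hne (h3 y (hS hy))
  · intro m hm y hy z hz
    rw [h.dn_side (hw.vert _).1 (h4 m hm y (hS hy)), h.dn_side (hw.vert _).1 (h4 m hm z (hS hz))]

lemma child_ne_compl (h : Std D E) {A g : Finset L} (hg : Child E A g) : g ≠ Aᶜ := by
  intro h1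
  obtain ⟨r, hr⟩ := h.nonempty hg.1
  have h2 := hg.2.1.1 hr
  rw [h1, mem_compl] at hr
  exact hr h2

lemma axis_sub (h : Std D E) {A l : Finset L} (hA : A ∈ E) (hax : Fs D ⊂ A) (hl : Fs D ⊂ l)
    (hAl : A ⊂ l) : A ⊆ rho D E l := by
  rw [Std.rho_axis hl]
  exact (h.dc_spec h.Fs_nonempty h.Fs_mem (Subset.refl _) hl).2.2 A hA hax.1 hAl

lemma dn_axis_sub (h : Std D E) {A l : Finset L} (hA : A ∈ E) (hax : Fs D ⊂ A)
    (hl : Fs D ⊂ l) (hAl : A ⊆ l) : dn D E l ⊆ dn D E A := by
  by_cases h1 : A = l
  · rw [h1]
  · rw [dn, dn, compl_subset_compl]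
    exact (h.rho_child hax).1.2.1.1.trans (axis_sub h hA hax hl (lt_of_le_of_ne hAl h1))

lemma fv_sub_next (hw : Walk D E x) (k : ℕ) : fv D E (x k) ⊆ x (k + 1) := by
  rcases hw.step k with h1 | h1
  · rw [h1]
  · obtain ⟨_, B, hB, hAB, _⟩ := h1
    exact hAB.trans hB.2.1.1

section main

variable (h : Std D E) (hk : IsKN D N kk) (hw : Walk D E x) (hal : ∀ k, ¬ IsAl D N kk (x k))
  {l : Finset L} (hl : Fs D ⊂ l) (hmax : ∀ k, Fs D ⊂ x k → x k ⊆ l)

include h hk hw hal hl hmax

/-- The whole of `dn (x k)` cannot be carried to `l`. -/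
lemma no_whole {a n : ℕ} (ha : x a = l) (hn : x n = l) :
    ∀ m k, k = a + m → k < n → ¬ Trk D E x n k (dn D E (x k)) := by
  intro m
  induction m with
  | zero =>
    rintro k rfl hkn ht
    apply trk_absurd h hw hkn ht
    rw [hn, ← ha]
  | succ m ih =>
    rintro k rfl hkn ht
    by_cases hax : Fs D ⊂ x (a + (m + 1))
    · apply trk_absurd h hw hkn ht
      rw [hn]
      exact dn_axis_sub h (hw.vert _).1 hax hl (hmax _ hax)
    · have hlt : a + m < n := by omega
      apply ih (a + m) rfl hlt
      apply trk_step hlt ht (fun i hi => hi)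
      intro i hi
      have h1 : D.nxt i ∈ x (a + m + 1) := fv_sub_next hw _ (h.nxt_mem_fv (hw.vert _).1 hi)
      rw [show a + m + 1 = a + (m + 1) by ring] at h1
      rw [Std.dn_off hax]
      exact h1

/-- A step from an axis vertex is a step of the map. -/
lemma axis_step (k : ℕ) (hax : Fs D ⊂ x k) : x (k + 1) = fv D E (x k) := by
  rcases hw.step k with h1 | h1
  · exact h1
  · exact absurd (hk.vs_axis h (hw.vert k) hax h1) (hal _)

lemma inv {a n : ℕ} (ha : x a = l) (hn : x n = l) (hbet : ∀ k, a < k → k < n → x k ≠ l) :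
    ∀ m k, k + m = n → a < k →
      (∀ j, k ≤ j → j < n → x (j + 1) = fv D E (x j)) ∧
      (∀ g, Child E (x k) g → ¬ D.Mono E g (x k)ᶜ → Trk D E x n k g) ∧
      ∃ r, (Fs D ⊂ x k → r = rho D E (x k)) ∧
        ∀ g, Child E (x k) g → g ≠ r → Trk D E x n k g := by
  intro m
  induction m with
  | zero =>
    rintro k rfl hak
    rw [Nat.add_zero] at hn
    have hax : Fs D ⊂ x k := by rw [hn]; exact hl
    have h3 : ∀ g, Child E (x k) g → g ≠ rho D E (x k) → Trk D E x (k + 0) k g := by
      intro g hg hne
      refine ⟨g, hg, hne, ?_, ?_⟩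
      · intro i hi; simpa using hi
      · intro j hj; omega
    refine ⟨fun j h1 h2 => by omega, ?_, rho D E (x k), fun _ => rfl, h3⟩
    intro g hg hM
    apply h3 g hg
    rintro rfl
    exact hM (hk.mono_axis h (hw.vert k).1 hax (hal k))
  | succ m ih =>
    intro k hkm hak
    obtain ⟨i1, i2, r', hr', i3⟩ := ih (k + 1) (by omega) (by omega)
    have hkn : k < n := by omega
    -- the step at `k` is a step of the map
    have hst : x (k + 1) = fv D E (x k) := by
      rcases hw.step k with h1 | h1
      · exact h1
      · exfalso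
        obtain ⟨_, B, hB, hAB, hM⟩ := h1
        apply no_whole h hk hw hal hl hmax ha hn (k - a) k (by omega) hkn
        apply trk_step hkn (i2 B hB hM) (fun i hi => hi)
        intro i hi
        exact hAB (h.nxt_mem_fv (hw.vert _).1 hi)
    have hfs : ∀ g, Germ E (x k) g → g ≠ rho D E (x k) →
        Child E (x (k + 1)) (fs D E (x k) g) := by
      intro g hg hne
      rw [hst]
      exact (h.fs_spec (hw.vert k).1 hg hne).1
    have htr : ∀ g, Germ E (x k) g → g ≠ rho D E (x k) →
        Trk D E x n (k + 1) (fs D E (x k) g) → Trk D E x n k g := by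
      intro g hg hne ht
      apply trk_step hkn ht
      · intro i hi; exact h.germ_subset_dn hg hne hi
      · intro i hi; exact h.nxt_mem_fs (hw.vert k).1 hg hne hi
    have j1 : ∀ j, k ≤ j → j < n → x (j + 1) = fv D E (x j) := by
      intro j h1 h2
      rcases Nat.eq_or_lt_of_le h1 with h3 | h3
      · rw [← h3]; exact hst
      · exact i1 j (by omega) h2
    by_cases hax : Fs D ⊂ x k
    · have hxl : x k ⊂ l := lt_of_le_of_ne (hmax k hax) (hbet k hak hkn)
      have hune : (x k)ᶜ ≠ rho D E (x k) := by
        intro h1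
        exact child_ne_compl h (h.rho_child hax).1 h1.symm
      have hc : fs D E (x k) (x k)ᶜ = r' := by
        by_contra hc
        have h1 := htr _ (Or.inl rfl) hune (i3 _ (hfs _ (Or.inl rfl) hune) hc)
        apply trk_absurd h hw hkn h1
        rw [hn, dn, compl_subset_compl]
        exact axis_sub h (hw.vert k).1 hax hl hxl
      have h3 : ∀ g, Child E (x k) g → g ≠ rho D E (x k) → Trk D E x n k g := by
        intro g hg hne
        apply htr g (Or.inr hg) hne
        apply i3 _ (hfs g (Or.inr hg) hne)
        intro h4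
        rw [← hc] at h4
        exact child_ne_compl h hg (h.fs_inj (hw.vert k).1 (Or.inr hg) (Or.inl rfl) h4)
      refine ⟨j1, ?_, rho D E (x k), fun _ => rfl, h3⟩
      intro g hg hM
      apply h3 g hg
      rintro rfl
      exact hM (hk.mono_axis h (hw.vert k).1 hax (hal k))
    · have hrho : rho D E (x k) = (x k)ᶜ := Std.rho_off hax
      have hgne : ∀ g, Child E (x k) g → g ≠ rho D E (x k) := by
        intro g hg
        rw [hrho]
        exact child_ne_compl h hg
      refine ⟨j1, ?_, ?_⟩
      · intro g hg hM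
        apply htr g (Or.inr hg) (hgne g hg)
        apply i2 _ (hfs g (Or.inr hg) (hgne g hg))
        rw [hst]
        apply h.nm_forward (hw.vert k).1 (Or.inr hg) (hgne g hg)
        rw [hrho]
        exact hM
      · by_cases hex : ∃ g0, Child E (x k) g0 ∧ fs D E (x k) g0 = r'
        · obtain ⟨g0, hg0, hg0'⟩ := hex
          refine ⟨g0, fun h1 => absurd h1 hax, ?_⟩
          intro g hg hne
          apply htr g (Or.inr hg) (hgne g hg)
          apply i3 _ (hfs g (Or.inr hg) (hgne g hg))
          intro h1
          apply hne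
          apply h.fs_inj (hw.vert k).1 (Or.inr hg) (Or.inr hg0)
          rw [h1, hg0']
        · refine ⟨∅, fun h1 => absurd h1 hax, ?_⟩
          intro g hg _
          apply htr g (Or.inr hg) (hgne g hg)
          apply i3 _ (hfs g (Or.inr hg) (hgne g hg))
          intro h1
          exact hex ⟨g, hg, h1⟩

lemma ml {a n : ℕ} (ha : x a = l) (hn : x n = l)
    (hbet : ∀ k, a < k → k < n → x k ≠ l) :
    ∀ k, a ≤ k → k < n → x (k + 1) = fv D E (x k) := by
  intro k h1 h2
  rcases Nat.eq_or_lt_of_le h1 with h3 | h3
  · subst h3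
    exact axis_step h hk hw hal hl hmax a (by rw [ha]; exact hl)
  · exact (inv h hk hw hal hl hmax ha hn hbet (n - k) k (by omega) h3).1 k (le_refl _) h2

lemma closed_walk : ∀ m a n, n = a + m → x a = l → x n = l →
    ∀ k, a ≤ k → k < n → x (k + 1) = fv D E (x k) := by
  intro m
  induction m using Nat.strong_induction_on with
  | _ m ih =>
    rintro a n rfl ha hn k h1 h2
    by_cases hex : ∃ j, a < j ∧ j < a + m ∧ x j = l
    · obtain ⟨j, hj1, hj2, hj3⟩ := hex
      rcases Nat.lt_or_ge k j with h3 | h3
      · exact ih (j - a) (by omega) a j (by omega) ha hj3 k h1 h3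
      · exact ih (a + m - j) (by omega) j (a + m) (by omega) hj3 hn k h3 h2
    · push Not at hex
      exact ml h hk hw hal hl hmax ha hn (fun j hj1 hj2 => hex j hj1 hj2) k h1 h2

end main

/-- **Theorem A'.** Periodic walks in the dependency graph contain only steps of the map. -/
theorem Std.acyclic (h : Std D E) (hk : IsKN D N kk) (hw : Walk D E x) {p : ℕ} (hp : 0 < p)
    (hper : ∀ k, x (k + p) = x k) (k : ℕ) : x (k + 1) = fv D E (x k) := by
  have hperc : ∀ c k, x (k + p * c) = x k := by
    intro c
    induction c with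
    | zero => intro k; simp
    | succ c ih =>
      intro k
      rw [Nat.mul_succ, ← Nat.add_assoc, hper, ih]
  by_cases hA : ∃ k, IsAl D N kk (x k)
  · obtain ⟨m, hm⟩ := hA
    have hst : ∀ j, x (m + j) = x m := by
      intro j
      induction j with
      | zero => rfl
      | succ j ih =>
        rw [← Nat.add_assoc]
        rcases hw.step (m + j) with h1 | h1
        · rw [h1, ih]
          exact hk.fv_al h hm
        · rw [ih] at h1
          exact absurd h1 (hk.no_vs_al h hm)
    have hall : ∀ j, x j = x m := by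
      intro j
      rw [← hperc m j]
      have : m ≤ j + p * m := by nlinarith
      obtain ⟨c, hc⟩ := Nat.exists_eq_add_of_le this
      rw [hc, hst]
    rw [hall (k + 1), hall k]
    exact (hk.fv_al h hm).symm
  · push Not at hA
    by_cases hax : ∃ k, Fs D ⊂ x k
    · -- there is an axis vertex
      obtain ⟨m1, hm1⟩ := hax
      have hmod : ∀ k, x k = x (k % p) := by
        intro k
        conv_lhs => rw [← Nat.mod_add_div k p]
        exact hperc _ _
      obtain ⟨m0, hm0, hm0'⟩ := exists_max_image ((range p).filter fun k => Fs D ⊂ x k)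
        (fun k => (x k).card) ⟨m1 % p, by
          rw [mem_filter, mem_range, ← hmod]
          exact ⟨Nat.mod_lt _ hp, hm1⟩⟩
      rw [mem_filter, mem_range] at hm0
      have hmax : ∀ k, Fs D ⊂ x k → x k ⊆ x m0 := by
        intro k hk1
        have h1 := hm0' (k % p) (by
          rw [mem_filter, mem_range, ← hmod]
          exact ⟨Nat.mod_lt _ hp, hk1⟩)
        rw [← hmod] at h1
        obtain ⟨f, hf⟩ := h.Fs_nonempty
        rcases h.lam' (hw.vert k).1 (hw.vert m0).1 (hk1.1 hf) (hm0.2.1 hf) with h2 | h2
        · exact h2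
        · rw [eq_of_subset_of_card_le h2 h1]
      have key := closed_walk h hk hw hA hm0.2 hmax
      have h1 := hperc (m0 + 1) k
      have h2 := hperc (m0 + 1) (k + 1)
      have h3 : m0 ≤ k + p * (m0 + 1) := by nlinarith
      set k' := k + p * (m0 + 1) with hk'
      have h4 : x (k' + 1) = x (k + 1) := by
        rw [← h2]
        congr 1
        omega
      rw [← h4, ← h1]
      have h5 := Nat.mod_add_div (k' - m0) p
      have h6 := Nat.mod_lt (k' - m0) hp
      set t := (k' - m0) / p with ht
      refine key p (m0 + p * t) (m0 + p * (t + 1)) ?_ ?_ ?_ k' ?_ ?_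
      · rw [Nat.mul_succ]; ring
      · exact hperc _ _
      · exact hperc _ _
      · omega
      · rw [Nat.mul_succ]; omega
    · -- no axis vertex
      push Not at hax
      have hcard : ∀ k, (x k).card ≤ (x (k + 1)).card := by
        intro k
        have h1 : ((x k).image D.nxt).card = (x k).card := by
          apply card_image_of_injOn
          intro i hi j hj hij
          have h2 := Std.dn_off (E := E) (hax k)
          exact h.nxt_injOn (hw.vert k).1 (by rw [h2]; exact hi) (by rw [h2]; exact hj) hij
        rw [← h1]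
        apply card_le_card
        intro j hj
        rw [mem_image] at hj
        obtain ⟨i, hi, rfl⟩ := hj
        exact fv_sub_next hw k (h.nxt_mem_fv (hw.vert k).1 (by rw [Std.dn_off (hax k)]; exact hi))
      have hmono : ∀ m k, (x k).card ≤ (x (k + m)).card := by
        intro m
        induction m with
        | zero => intro k; exact le_refl _
        | succ m ih => intro k; exact (ih k).trans (hcard _)
      rcases hw.step k with h1 | h1
      · exact h1
      · exfalso
        obtain ⟨hV, B, hB, hAB, hM⟩ := h1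
        obtain ⟨w, g, hwv, hfw, hg, hgn, _, hdg, _⟩ := h.vs_factor (hw.vert k) hV hB hAB hM
        have h2 : (x k).card < (x (k + 1)).card := by
          have h3 : x k ⊂ dn D E w := by
            rw [← Std.dn_off (E := E) (hax k)]
            exact lt_of_le_of_lt hdg (h.germ_ssubset_dn hg hgn)
          have h4 := card_lt_card h3
          have h5 : ((dn D E w).image D.nxt).card = (dn D E w).card := by
            apply card_image_of_injOn
            intro i hi j hj hij
            exact h.nxt_injOn hwv.1 hi hj hij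
          have h6 : ((dn D E w).image D.nxt).card ≤ (x (k + 1)).card := by
            apply card_le_card
            intro j hj
            rw [mem_image] at hj
            obtain ⟨i, hi, rfl⟩ := hj
            rw [← hfw]
            exact h.nxt_mem_fv hwv.1 hi
          omega
        have h7 := hmono (p - 1) (k + 1)
        rw [show k + 1 + (p - 1) = k + p by omega, hper] at h7
        omega

end Cut

end R4
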