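import Pool.Agent.Work.MP_e3f5d9_al.SOUND

/-!
# MKG: the end of the marks

The star of a letter `i` is a class function whose only letter without class is `i` and whose
classes are the maximal sides that do not contain `i`.  If all pairs of disjoint sides are known and
if for every letter which is not a leaf the visits to its star with the parity of the number of
letters `i` are known, then the element is known.

The word `nw W` (first and last letter kept, the interior reduced) has the same visits as `W`.
-/

set_option autoImplicit false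
set_option linter.unusedSectionVars false
set_option linter.unusedSimpArgs false

open Finset

namespace R4

/-- The star of the letter `i`: the classes of `c` are the maximal sides that do not contain `i`. -/
structure IsStar {L : Type} [Fintype L] [DecidableEq L] (D : KS L) (E : Finset (Finset L)) (i : L)
    {β : Type} [DecidableEq β] (c : L → Option β) : Prop where
  none : ∀ x, c x = none ↔ x = i
  side : ∀ b, (cset c b).Nonempty → D.Side E (cset c b)
  max : ∀ X, D.Side E X → X.Nonempty → i ∉ X → ∃ b, X ⊆ cset c b

namespace MKG

section words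

variable {L β : Type} [DecidableEq L] [DecidableEq β]

/-- First and last letter kept, the interior reduced. -/
def nw : List L → List L
  | [] => []
  | x :: w => x :: (red w.dropLast ++ w.getLast?.toList)

lemma nw_nil : nw ([] : List L) = [] := rfl

lemma nw_single (x : L) : nw [x] = [x] := by simp [nw, red]

lemma nw_cons (x y : L) (M : List L) : nw (x :: (M ++ [y])) = x :: (red M ++ [y]) := by
  simp [nw]

lemma cases3 (W : List L) : W = [] ∨ (∃ x, W = [x]) ∨ ∃ x M y, W = x :: (M ++ [y]) := by
  cases W with
  | nil => exact Or.inl rfl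
  | cons x w =>
    right
    rcases List.eq_nil_or_concat w with h | ⟨M, y, h⟩
    · left; exact ⟨x, by rw [h]⟩
    · right; exact ⟨x, M, y, by rw [h, List.concat_eq_append]⟩

/-- Deletion of two adjacent equal letters. -/
def Del (a b : List L) : Prop := ∃ u z v, a = u ++ z :: z :: v ∧ b = u ++ v

omit [DecidableEq L] in
lemma Del.cons {a b : List L} (x : L) (h : Del a b) : Del (x :: a) (x :: b) := by
  obtain ⟨u, z, v, rfl, rfl⟩ := h
  exact ⟨x :: u, z, v, rfl, rfl⟩

lemma del_red (w : List L) : Relation.ReflTransGen Del w (red w) := by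
  induction w with
  | nil => exact Relation.ReflTransGen.refl
  | cons x w ih =>
    have h1 : Relation.ReflTransGen Del (x :: w) (x :: red w) := by
      have h2 : ∀ b, Relation.ReflTransGen Del w b →
          Relation.ReflTransGen Del (x :: w) (x :: b) := by
        intro b hb
        induction hb with
        | refl => exact Relation.ReflTransGen.refl
        | tail _ hd ih2 => exact ih2.tail (Del.cons x hd)
      exact h2 _ ih
    refine h1.trans ?_
    rw [red]
    cases h : red w with
    | nil => exact Relation.ReflTransGen.refl
    | cons y t =>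
      dsimp only
      split_ifs with hxy
      · subst hxy
        exact Relation.ReflTransGen.single ⟨[], x, t, rfl, rfl⟩
      · exact Relation.ReflTransGen.refl

/-- `RClean` for a function to `Bool`. -/
def RC (f : L → Bool) (W : List L) : Prop :=
  ∀ (x : L) (R : List L) (y : L), (x :: (R ++ [y])) <:+: W → R ≠ [] → (∀ j ∈ R, f j ≠ f x) →
    (∀ j ∈ R, f j ≠ f y) → red R ≠ []

lemma rclean_iff (A : Finset L) (W : List L) :
    RClean A W ↔ RC (fun x => decide (x ∈ A)) W := by
  constructor
  · intro h x R y hi hR h1 h2
    refine h x R y hi hR ?_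
    by_cases hx : x ∈ A
    · right
      have h3 : ∀ j ∈ R, j ∉ A := by
        intro j hj hjA
        have := h1 j hj
        simp [hx, hjA] at this
      refine ⟨hx, ?_, h3⟩
      obtain ⟨j, hj⟩ := List.exists_mem_of_ne_nil R hR
      have := h2 j hj
      have h4 := h3 j hj
      simpa [h4] using this
    · left
      have h3 : ∀ j ∈ R, j ∈ A := by
        intro j hj
        have := h1 j hj
        simpa [hx] using this
      refine ⟨hx, ?_, h3⟩
      obtain ⟨j, hj⟩ := List.exists_mem_of_ne_nil R hR
      have := h2 j hj
      have h4 := h3 j hj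
      simpa [h4] using this
  · intro h x R y hi hR h1
    refine h x R y hi hR ?_ ?_
    · intro j hj
      rcases h1 with ⟨h2, h3, h4⟩ | ⟨h2, h3, h4⟩ <;> simp [h2, h4 j hj]
    · intro j hj
      rcases h1 with ⟨h2, h3, h4⟩ | ⟨h2, h3, h4⟩ <;> simp [h3, h4 j hj]

lemma red_cancel' (x : L) (u v : List L) : red (u ++ x :: x :: v) = red (u ++ v) := by
  induction u with
  | nil => exact B1Aux.red_cons_cons x v
  | cons y u ih => exact B1Aux.red_cons_congr y _ _ ih

lemma rc_del {f : L → Bool} {u v : List L} {z : L} (h : RC f (u ++ z :: z :: v)) :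
    RC f (u ++ v) := by
  intro x R y hi hR h1 h2
  obtain ⟨s, t, hst⟩ := hi
  rw [List.append_assoc, List.append_eq_append_iff] at hst
  rcases hst with ⟨a, ha, hb⟩ | ⟨a, ha, hb⟩
  · -- `u = s ++ a`
    rw [List.append_eq_append_iff] at hb
    rcases hb with ⟨b, hb1, hb2⟩ | ⟨b, hb1, hb2⟩
    · -- `a = X ++ b`
      refine h x R y ⟨s, b ++ z :: z :: v, ?_⟩ hR h1 h2
      rw [ha, hb1]; simp
    · -- `X = a ++ b`, `v = b ++ t`
      cases a with
      | nil =>
        rw [List.nil_append] at hb1
        refine h x R y ⟨s ++ [z, z], t, ?_⟩ hR h1 h2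
        rw [ha, hb2, ← hb1]; simp
      | cons x' a =>
        rw [List.cons_append, List.cons.injEq] at hb1
        obtain ⟨rfl, hb3⟩ := hb1
        rcases List.eq_nil_or_concat b with hb4 | ⟨b', y', hb4⟩
        · subst hb4
          rw [List.append_nil] at hb3
          refine h x R y ⟨s, z :: z :: v, ?_⟩ hR h1 h2
          rw [ha, ← hb3]
        · rw [List.concat_eq_append] at hb4
          subst hb4
          rw [← List.append_assoc] at hb3
          obtain ⟨hR', hy⟩ := List.append_inj' hb3 rfl
          rw [List.cons.injEq] at hy
          obtain ⟨rfl, -⟩ := hy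
          -- word: `s ++ x :: a ++ z :: z :: b' ++ y :: t`
          have hfxy : f x = f y := by
            obtain ⟨j, hj⟩ := List.exists_mem_of_ne_nil R hR
            have h3 := h1 j hj
            have h4 := h2 j hj
            revert h3 h4
            cases f j <;> cases f x <;> cases f y <;> simp
          by_cases hz : f z = f x
          · by_cases ha0 : a = []
            · subst ha0
              rw [List.nil_append] at hR'
              refine h z R y ⟨s ++ [x, z], t, ?_⟩ hR (by rw [hz]; exact h1) h2
              rw [ha, hb2, hR']; simp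
            · by_cases hb0 : b' = []
              · subst hb0
                rw [List.append_nil] at hR'
                refine h x R z ⟨s, z :: y :: t, ?_⟩ hR h1 (by rw [hz]; exact h1)
                rw [ha, hb2, hR']; simp
              · exfalso
                obtain ⟨a1, a2, rfl⟩ : ∃ a1 a2, a = a1 ++ [a2] := by
                  rcases List.eq_nil_or_concat a with h5 | ⟨a1, a2, h5⟩
                  · exact absurd h5 ha0
                  · exact ⟨a1, a2, by rw [h5, List.concat_eq_append]⟩
                obtain ⟨b1, b2, rfl⟩ := List.exists_cons_of_ne_nil hb0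
                refine h a2 [z, z] b1 ⟨s ++ x :: a1, b2 ++ y :: t, ?_⟩ (by simp) ?_ ?_
                  (by simp [red])
                · rw [ha, hb2]; simp
                · intro j hj
                  have : j = z := by simpa using hj
                  rw [this, hz]
                  exact (h1 a2 (by rw [hR']; simp)).symm
                · intro j hj
                  have : j = z := by simpa using hj
                  rw [this, hz]
                  exact (h1 b1 (by rw [hR']; simp)).symm
          · have h5 := h x (a ++ z :: z :: b') y ⟨s, t, by rw [ha, hb2]; simp⟩ (by simp) ?_ ?_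
            · rwa [red_cancel', ← hR'] at h5
            · intro j hj
              rw [List.mem_append, List.mem_cons, List.mem_cons] at hj
              rcases hj with hj | rfl | rfl | hj
              · exact h1 j (by rw [hR']; simp [hj])
              · exact hz
              · exact hz
              · exact h1 j (by rw [hR']; simp [hj])
            · rw [← hfxy]
              intro j hj
              rw [List.mem_append, List.mem_cons, List.mem_cons] at hj
              rcases hj with hj | rfl | rfl | hj
              · exact h1 j (by rw [hR']; simp [hj])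
              · exact hz
              · exact hz
              · exact h1 j (by rw [hR']; simp [hj])
  · -- `s = u ++ a`, `v = a ++ X ++ t`
    refine h x R y ⟨u ++ z :: z :: a, t, ?_⟩ hR h1 h2
    rw [hb]; simp

lemma rclean_del {A : Finset L} {u v : List L} {z : L} (h : RClean A (u ++ z :: z :: v)) :
    RClean A (u ++ v) := by
  rw [rclean_iff] at h ⊢
  exact rc_del h

/-- Emission. -/
def emt (p : Option β) (q : Bool) : Option β → List (β × Bool)
  | none => []
  | some b => if p = some b then [] else [(b, q)]

lemma tk_nil (o : L) (c : L → Option β) (p : Option β) (q : Bool) : tk o c p q [] = [] := by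
  simp [tk]

lemma tk_cons (o : L) (c : L → Option β) (p : Option β) (q : Bool) (x : L) (w : List L) :
    tk o c p q (x :: w) = emt p q (c x) ++ tk o c (c x) (xor q (decide (x = o))) w := by
  rw [tk]
  cases h : c x with
  | none => simp [emt]
  | some b =>
    dsimp only [emt]
    split_ifs <;> simp

lemma tk_append (o : L) (c : L → Option β) (a : L) : ∀ (u : List L) (p : Option β) (q : Bool),
    ∃ q', ∀ w, tk o c p q (u ++ a :: w) = tk o c p q (u ++ [a]) ++ tk o c (c a) q' w := by
  intro u
  induction u with
  | nil =>
    intro p q
    refine ⟨xor q (decide (a = o)), fun w => ?_⟩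
    rw [List.nil_append, List.nil_append, tk_cons, tk_cons, tk_nil, List.append_nil]
  | cons y u ih =>
    intro p q
    obtain ⟨q', hq'⟩ := ih (c y) (xor q (decide (y = o)))
    refine ⟨q', fun w => ?_⟩
    rw [List.cons_append, List.cons_append, tk_cons, tk_cons, hq', List.append_assoc]

lemma tk_del_aux (o : L) (c : L → Option β) (p : Option β) (q : Bool) (u v : List L) (a z b : L)
    (H : ∀ q', emt (c a) q' (c z) ++ emt (c z) q' (c b) = emt (c a) q' (c b)) :
    tk o c p q (u ++ a :: z :: z :: b :: v) = tk o c p q (u ++ a :: b :: v) := by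
  obtain ⟨q', hq'⟩ := tk_append o c a u p q
  rw [hq' (z :: z :: b :: v), hq' (b :: v)]
  congr 1
  rw [tk_cons, tk_cons, tk_cons, tk_cons o c (c a) q' b v]
  have h1 : emt (c z) (xor q' (decide (z = o))) (c z) = [] := by
    cases c z with
    | none => rfl
    | some g => simp [emt]
  have h2 : xor (xor q' (decide (z = o))) (decide (z = o)) = q' := by
    cases q' <;> cases decide (z = o) <;> rfl
  rw [h1, List.nil_append, h2, ← List.append_assoc, H]

end words

section star

variable {L β : Type} [Fintype L] [DecidableEq L] [DecidableEq β] {D : KS L}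
  {E : Finset (Finset L)}

lemma rclean_side {X : Finset L} {W : List L} (hX : D.Side E X)
    (hR : ∀ A ∈ E, RClean A W) : RClean X W := by
  unfold KS.Side KS.nm at hX
  split_ifs at hX with ho
  · have h1 := hR _ hX
    rw [rclean_iff] at h1 ⊢
    intro x R y hi hR' h2 h3
    refine h1 x R y hi hR' ?_ ?_
    · intro j hj
      have := h2 j hj
      intro h4
      apply this
      have h5 : (j ∈ X ↔ x ∈ X) := by simpa using h4
      simpa using h5
    · intro j hj
      have := h3 j hj
      intro h4
      apply this
      have h5 : (j ∈ X ↔ y ∈ X) := by simpa using h4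
      simpa using h5
  · exact hR _ hX

lemma mem_cset {c : L → Option β} {b : β} {x : L} : x ∈ cset c b ↔ c x = some b := by
  simp [cset]

/-- Deletion of two adjacent equal letters in the interior does not change the visits. -/
lemma tk_del (o : L) (c : L → Option β) (hc : ∀ b, (cset c b).Nonempty → D.Side E (cset c b))
    (p : Option β) (q : Bool) {u v : List L} {z : L} (hu : u ≠ []) (hv : v ≠ [])
    (hR : ∀ A ∈ E, RClean A (u ++ z :: z :: v)) :
    tk o c p q (u ++ z :: z :: v) = tk o c p q (u ++ v) := by
  obtain ⟨u', a, rfl⟩ : ∃ u' a, u = u' ++ [a] := by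
    rcases List.eq_nil_or_concat u with h5 | ⟨a1, a2, h5⟩
    · exact absurd h5 hu
    · exact ⟨a1, a2, by rw [h5, List.concat_eq_append]⟩
  obtain ⟨b, v', rfl⟩ := List.exists_cons_of_ne_nil hv
  have hw : (a :: ([z, z] ++ [b])) <:+: (u' ++ [a] ++ z :: z :: b :: v') := ⟨u', v', by simp⟩
  have key : ∀ q', emt (c a) q' (c z) ++ emt (c z) q' (c b) = emt (c a) q' (c b) := by
    intro q'
    by_cases h1 : c z = c a
    · rw [h1]
      have : emt (c a) q' (c a) = [] := by
        cases c a with
        | none => rfl
        | some g => simp [emt]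
      rw [this, List.nil_append]
    · by_cases h2 : c z = c b
      · rw [h2]
        have : emt (c b) q' (c b) = [] := by
          cases c b with
          | none => rfl
          | some g => simp [emt]
        rw [this, List.append_nil]
      · cases hz : c z with
        | some g =>
          exfalso
          have hs := rclean_side (hc g ⟨z, mem_cset.2 hz⟩) hR
          refine hs a [z, z] b hw (by simp) (Or.inl ⟨?_, ?_, ?_⟩) (by simp [red])
          · rw [mem_cset, ← hz]; exact fun h3 => h1 h3.symm
          · rw [mem_cset, ← hz]; exact fun h3 => h2 h3.symm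
          · intro j hj
            have : j = z := by simpa using hj
            rw [this, mem_cset, hz]
        | none =>
          cases ha : c a with
          | none => exact absurd (hz.trans ha.symm) h1
          | some g =>
            cases hb : c b with
            | none => exact absurd (hz.trans hb.symm) h2
            | some g' =>
              by_cases hg : g = g'
              · exfalso
                subst hg
                have hs := rclean_side (hc g ⟨a, mem_cset.2 ha⟩) hR
                refine hs a [z, z] b hw (by simp) (Or.inr ⟨?_, ?_, ?_⟩) (by simp [red])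
                · rw [mem_cset, ha]
                · rw [mem_cset, hb]
                · intro j hj
                  have : j = z := by simpa using hj
                  rw [this, mem_cset, hz]
                  simp
              · simp [emt, hg]
  have h3 := tk_del_aux o c p q u' v' a z b key
  simpa using h3

/-- The word `nw W` has the same visits as `W`. -/
lemma tk_nw (o : L) (c : L → Option β) (hc : ∀ b, (cset c b).Nonempty → D.Side E (cset c b))
    (p : Option β) (q : Bool) {W : List L} (hR : ∀ A ∈ E, RClean A W) :
    tk o c p q (nw W) = tk o c p q W := by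
  rcases cases3 W with rfl | ⟨x, rfl⟩ | ⟨x, M, y, rfl⟩
  · rfl
  · rw [nw_single]
  · rw [nw_cons]
    have key : ∀ M', Relation.ReflTransGen Del M M' →
        (∀ A ∈ E, RClean A (x :: (M' ++ [y]))) ∧
          tk o c p q (x :: (M' ++ [y])) = tk o c p q (x :: (M ++ [y])) := by
      intro M' hM'
      induction hM' with
      | refl => exact ⟨hR, rfl⟩
      | tail _ hd ih =>
        obtain ⟨u, z, v, rfl, rfl⟩ := hd
        obtain ⟨h1, h2⟩ := ih
        have e1 : x :: (u ++ z :: z :: v ++ [y]) = (x :: u) ++ z :: z :: (v ++ [y]) := by simp
        have e2 : x :: (u ++ v ++ [y]) = (x :: u) ++ (v ++ [y]) := by simp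
        rw [e1] at h1 h2
        rw [e2]
        refine ⟨fun A hA => rclean_del (h1 A hA), ?_⟩
        rw [← h2]
        exact (tk_del o c hc p q (by simp) (by simp) h1).symm
    exact (key _ (del_red M)).2

lemma vis_nw (hV : VisBasics L) (c : L → Option β)
    (hc : ∀ b, (cset c b).Nonempty → D.Side E (cset c b))
    (p : Option β) {W : List L} (hR : ∀ A ∈ E, RClean A W) :
    vis c p (nw W) = vis c p W := by
  rw [← hV.tk_fst D.o c p false, ← hV.tk_fst D.o c p false, tk_nw D.o c hc p false hR]

end star

section rebuild

variable {L β : Type} [DecidableEq L] [DecidableEq β]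

/-- The visits to the star and to the centre, from the visits with the parities. -/
def rb : Bool → List (β × Bool) → List (Option β)
  | _, [] => []
  | q0, (b, q) :: l => (if q = q0 then [some b] else [none, some b]) ++ rb q l

/-- No factor `i i z`. -/
def NoII (i : L) (R : List L) : Prop := ∀ z, ¬ [i, i, z] <:+: R

lemma NoII.tail {i x : L} {R : List L} (h : NoII i (x :: R)) : NoII i R :=
  fun z hz => h z (hz.trans ⟨[x], [], by simp⟩)

/-- The total class function. -/
abbrev tot' (c : L → Option β) : L → Option (Option β) := fun x => some (c x)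

lemma vis_cons' {γ : Type} [DecidableEq γ] (c : L → Option γ) (p : Option γ) (x : L)
    (w : List L) : vis c p (x :: w) = PV3Aux.em p (c x) ++ vis c (c x) w :=
  PV3Aux.vis_cons c p x w

lemma claim1 (i : L) (c : L → Option β) (hc : ∀ x, c x = none ↔ x = i) : ∀ (n : ℕ) (R : List L),
    R.length ≤ n → NoII i R → ∀ (b : β) (q : Bool),
    vis (tot' c) (some (some b)) R =
      rb q (tk i c (some b) q R) ++ (if R.getLast? = some i then [none] else []) := by
  intro n
  induction n with
  | zero =>
    intro R hR _ b q
    have : R = [] := List.eq_nil_of_length_eq_zero (by omega)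
    subst this
    simp [vis, tk, rb]
  | succ n ih =>
    intro R hR hN b q
    cases R with
    | nil => simp [vis, tk, rb]
    | cons x R =>
      rw [vis_cons', tk_cons]
      by_cases hx : x = i
      · subst hx
        have hcx : c x = none := (hc x).2 rfl
        cases R with
        | nil => simp [hcx, PV3Aux.em, emt, tk, vis, rb]
        | cons y R =>
          by_cases hy : y = x
          · subst hy
            have hR0 : R = [] := by
              by_contra h0
              obtain ⟨z, R', rfl⟩ := List.exists_cons_of_ne_nil h0
              exact hN z ⟨[], R', by simp⟩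
            subst hR0
            simp [tot', hcx, PV3Aux.em, emt, tk, vis, rb]
          · obtain ⟨g, hg⟩ := Option.ne_none_iff_exists'.1 (fun h => hy ((hc y).1 h))
            rw [vis_cons', tk_cons]
            have hyd : decide (y = x) = false := by simpa using hy
            have h1 := ih R (by simp at hR; omega) hN.tail.tail g (!q)
            have h2 : (x :: y :: R).getLast? = some x ↔ R.getLast? = some x := by
              cases R with
              | nil => simp [hy]
              | cons z R => simp [List.getLast?_cons_cons]
            simp only [tot', hcx, hg, PV3Aux.em, emt, h2] at h1 ⊢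
            simp [rb, h1, hyd]
      · obtain ⟨g, hg⟩ := Option.ne_none_iff_exists'.1 (fun h => hx ((hc x).1 h))
        have hxd : decide (x = i) = false := by simpa using hx
        have h1 := ih R (by simp at hR; omega) hN.tail g q
        have h2 : (x :: R).getLast? = some i ↔ R.getLast? = some i := by
          cases R with
          | nil => simp [hx]
          | cons z R => simp [List.getLast?_cons_cons]
        by_cases hgb : b = g
        · subst hgb
          simp only [tot', hg, PV3Aux.em, emt, h2, hxd] at h1 ⊢
          simp [h1]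
        · simp only [tot', hg, PV3Aux.em, emt, h2, hxd] at h1 ⊢
          simp [rb, h1, hgb]

/-- The visits to star and centre are a function of the marks and of two bits. -/
lemma star_dec (i : L) (c : L → Option β) (hc : ∀ x, c x = none ↔ x = i) (x : L) (R : List L)
    (hN : NoII i R) : ∃ q0 t : Bool, vis (tot' c) none (x :: R) =
      rb q0 (tk i c none false (x :: R)) ++ (if t then [none] else []) := by
  rw [vis_cons', tk_cons]
  by_cases hx : x = i
  · subst hx
    have hcx : c x = none := (hc x).2 rfl
    have key : ∀ (y : L) (R : List L) (q : Bool), y ≠ x → NoII x (y :: R) →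
        none :: vis (tot' c) (some none) (y :: R) = rb (!q) (tk x c none q (y :: R)) ++
          (if (y :: R).getLast? = some x then [none] else []) := by
      intro y R q hy hN
      obtain ⟨g, hg⟩ := Option.ne_none_iff_exists'.1 (fun h => hy ((hc y).1 h))
      rw [vis_cons', tk_cons]
      have hyd : decide (y = x) = false := by simpa using hy
      have h1 := claim1 x c hc R.length R le_rfl hN.tail g q
      have h2 : (y :: R).getLast? = some x ↔ R.getLast? = some x := by
        cases R with
        | nil => simp [hy]
        | cons z R => simp [List.getLast?_cons_cons]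
      simp only [tot', hg, PV3Aux.em, emt, h2, hyd] at h1 ⊢
      cases q <;> simp [rb, h1]
    cases R with
    | nil => exact ⟨false, true, by simp [tot', hcx, PV3Aux.em, emt, tk, vis, rb]⟩
    | cons y R =>
      by_cases hy : y = x
      · subst hy
        cases R with
        | nil => exact ⟨false, true, by simp [tot', hcx, PV3Aux.em, emt, tk, vis, rb]⟩
        | cons z R =>
          by_cases hz : z = y
          · subst hz
            have hR0 : R = [] := by
              by_contra h0
              obtain ⟨z', R', rfl⟩ := List.exists_cons_of_ne_nil h0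
              exact hN z' ⟨[], R', by simp⟩
            subst hR0
            exact ⟨false, true, by simp [tot', hcx, PV3Aux.em, emt, tk, vis, rb]⟩
          · have h1 := key z R false hz hN.tail
            refine ⟨true, decide ((z :: R).getLast? = some y), ?_⟩
            have e1 : vis (tot' c) (some none) (y :: z :: R) =
                vis (tot' c) (some none) (z :: R) := by
              rw [vis_cons' (tot' c) (some none) y]
              simp [tot', hcx, PV3Aux.em]
            have e2 : tk y c none (xor false (decide (y = y))) (y :: z :: R) =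
                tk y c none false (z :: R) := by
              rw [tk_cons y c none _ y]
              simp [hcx, emt]
            have e3 : PV3Aux.em none (tot' c y) = [none] := by simp [tot', hcx, PV3Aux.em]
            have e4 : emt (none : Option β) false (c y) = [] := by simp [hcx, emt]
            rw [e3, e4]
            simp only [tot', hcx] at e1 e2 h1 ⊢
            rw [e1, e2]
            simpa using h1
      · have h1 := key y R true hy hN
        refine ⟨false, decide ((y :: R).getLast? = some x), ?_⟩
        have e3 : PV3Aux.em none (tot' c x) = [none] := by simp [tot', hcx, PV3Aux.em]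
        have e4 : emt (none : Option β) false (c x) = [] := by simp [hcx, emt]
        rw [e3, e4]
        simp only [tot', hcx] at h1 ⊢
        simpa using h1
  · obtain ⟨g, hg⟩ := Option.ne_none_iff_exists'.1 (fun h => hx ((hc x).1 h))
    have hxd : decide (x = i) = false := by simpa using hx
    have h1 := claim1 i c hc R.length R le_rfl hN g false
    refine ⟨false, decide (R.getLast? = some i), ?_⟩
    simp only [tot', hg, PV3Aux.em, emt, hxd] at h1 ⊢
    simp [rb, h1]

lemma noII_chain {i : L} {R : List L} (hR : R.IsChain (· ≠ ·)) (y : L) : NoII i (R ++ [y]) := by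
  rintro z ⟨s, t, hst⟩
  rcases List.eq_nil_or_concat t with h | ⟨t', y', h⟩
  · subst h
    have e1 : s ++ [i, i, z] ++ [] = (s ++ [i, i]) ++ [z] := by simp
    rw [e1] at hst
    obtain ⟨h1, -⟩ := List.append_inj' hst rfl
    rw [← h1, List.isChain_append] at hR
    simp at hR
  · rw [List.concat_eq_append] at h
    subst h
    rw [← List.append_assoc] at hst
    obtain ⟨h1, -⟩ := List.append_inj' hst rfl
    have h2 : R = s ++ [i, i] ++ (z :: t') := by rw [← h1]; simp
    rw [h2, List.isChain_append, List.isChain_append] at hR
    simp at hR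

end rebuild

section final

variable {L : Type} [Fintype L] [DecidableEq L] (S : Setup L)

/-- The visits of `nw W` to `X` and to `Y` are known. -/
def KP (X Y : Finset L) : Prop := S.Known fun W => vis (pc X Y) none (nw W)

variable {S}

lemma kp_same (hN : KnownCalc S) (hV : VisBasics L) {β γ : Type} [DecidableEq β]
    [DecidableEq γ] (c : L → Option β) (c' : L → Option γ) (h : SameCls c c')
    (hc : S.Known fun W => vis c none (nw W)) : S.Known fun W => vis c' none (nw W) := by
  obtain ⟨e, he⟩ := hV.same c c' h
  have := hN.map e hc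
  refine hN.det _ _ this ⟨0, 1, fun _ => 0, fun W _ W' _ h1 _ => ?_⟩
  beta_reduce
  rw [he, he]
  exact h1

lemma kp_symm (hN : KnownCalc S) (hV : VisBasics L) {X Y : Finset L} (hXY : Disjoint X Y)
    (h : KP S X Y) : KP S Y X := by
  refine kp_same hN hV _ _ ⟨?_, ?_⟩ h
  · intro i
    unfold pc
    by_cases h1 : i ∈ X <;> by_cases h2 : i ∈ Y <;> simp [h1, h2]
  · intro i j
    unfold pc
    rw [Finset.disjoint_left] at hXY
    have hi := @hXY i
    have hj := @hXY j
    by_cases h1 : i ∈ X <;> by_cases h2 : i ∈ Y <;> by_cases h3 : j ∈ X <;> by_cases h4 : j ∈ Y <;>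
      simp_all

lemma kp_glue (hN : KnownCalc S) (hV : VisBasics L) (hG : VisGlue L) {X Y A : Finset L}
    (hX : X ⊆ Aᶜ) (hY : Y ⊆ A) (h1 : KP S X A) (h2 : KP S Aᶜ Y) : KP S X Y := by
  have hXA : ∀ x ∈ X, x ∉ A := fun x hx => Finset.mem_compl.1 (hX hx)
  obtain ⟨G, hG⟩ := hG A (pc X Y) (by
    intro x hx y hy hc
    unfold pc at hc ⊢
    have h3 : x ∉ X := fun h => hXA x h hx
    have h4 : y ∉ Y := fun h => hy (hY h)
    by_cases h5 : y ∈ X <;> by_cases h6 : x ∈ Y <;> simp_all)
  have k1 : S.Known fun W => vis (glL A (pc X Y)) none (nw W) := by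
    refine kp_same hN hV _ _ ⟨?_, ?_⟩ h1
    · intro i
      unfold glL pc
      have h3 : i ∈ X → i ∉ A := hXA i
      have h4 : i ∈ Y → i ∈ A := fun h => hY h
      by_cases h5 : i ∈ A <;> by_cases h6 : i ∈ X <;> by_cases h7 : i ∈ Y <;> simp_all
    · intro i j
      unfold glL pc
      have h3 : i ∈ X → i ∉ A := hXA i
      have h4 : i ∈ Y → i ∈ A := fun h => hY h
      have h3' : j ∈ X → j ∉ A := hXA j
      have h4' : j ∈ Y → j ∈ A := fun h => hY h
      by_cases h5 : i ∈ A <;> by_cases h6 : i ∈ X <;> by_cases h7 : i ∈ Y <;>
      by_cases h5' : j ∈ A <;> by_cases h6' : j ∈ X <;> by_cases h7' : j ∈ Y <;> simp_all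
  have k2 : S.Known fun W => vis (glR A (pc X Y)) none (nw W) := by
    refine kp_same hN hV _ _ ⟨?_, ?_⟩ h2
    · intro i
      unfold glR pc
      have h3 : i ∈ X → i ∉ A := hXA i
      have h4 : i ∈ Y → i ∈ A := fun h => hY h
      by_cases h5 : i ∈ A <;> by_cases h6 : i ∈ X <;> by_cases h7 : i ∈ Y <;> simp_all
    · intro i j
      unfold glR pc
      have h3 : i ∈ X → i ∉ A := hXA i
      have h4 : i ∈ Y → i ∈ A := fun h => hY h
      have h3' : j ∈ X → j ∉ A := hXA j
      have h4' : j ∈ Y → j ∈ A := fun h => hY h
      by_cases h5 : i ∈ A <;> by_cases h6 : i ∈ X <;> by_cases h7 : i ∈ Y <;>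
      by_cases h5' : j ∈ A <;> by_cases h6' : j ∈ X <;> by_cases h7' : j ∈ Y <;> simp_all
  have k3 := hN.bit (fun b z => G b z.1 z.2) (hN.prod _ _ k1 k2)
    (fun W => (nw W).head?.elim false fun x => decide (x ∈ A))
  refine hN.det _ _ k3 ⟨0, 1, fun _ => 0, fun W _ W' _ h3 _ => ?_⟩
  beta_reduce
  rw [hG, hG]
  exact h3

/-- Pairs of sides. -/
lemma kp_side (hB : NodeBasics S) (hN : KnownCalc S) (hV : VisBasics L) {X Y : Finset L}
    (hX : S.D.Side S.E X) (hY : S.D.Side S.E Y) (hXY : Disjoint X Y) (h : S.K X Y) :
    KP S X Y := by
  have hc : ∀ b, (cset (pc X Y) b).Nonempty → S.D.Side S.E (cset (pc X Y) b) := by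
    rintro (_ | _) -
    · have : cset (pc X Y) false = Y := by
        ext x
        rw [mem_cset]
        unfold pc
        have h0 : x ∈ X → x ∉ Y := fun h3 => Finset.disjoint_left.1 hXY h3
        by_cases h1 : x ∈ X <;> by_cases h2 : x ∈ Y <;> simp_all
      rwa [this]
    · have : cset (pc X Y) true = X := by
        ext x
        rw [mem_cset]
        unfold pc
        by_cases h1 : x ∈ X <;> by_cases h2 : x ∈ Y <;> simp_all
      rwa [this]
  refine hN.det _ _ h ⟨0, 1, fun _ => 0, fun W hW W' hW' h1 _ => ?_⟩
  beta_reduce
  rw [vis_nw hV _ hc none (hB.rclean 0 W hW), vis_nw hV _ hc none (hB.rclean 0 W' hW')]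
  exact h1

/-- The pairs (centre, class). -/
lemma kp_centre (hB : NodeBasics S) (hN : KnownCalc S) (hV : VisBasics L) {i : L} {β : Type}
    [DecidableEq β] {c : L → Option β} (hc : IsStar S.D S.E i c)
    (h : S.Known fun W => tk i c none false W) (b : β) : KP S {i} (cset c b) := by
  have h1 : S.Known fun W => tk i c none false (nw W) := by
    refine hN.det _ _ h ⟨0, 1, fun _ => 0, fun W hW W' hW' h1 _ => ?_⟩
    beta_reduce
    rw [tk_nw i c hc.side none false (hB.rclean 0 W hW),
      tk_nw i c hc.side none false (hB.rclean 0 W' hW')]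
    exact h1
  have h2 : S.Known fun W => vis (tot' c) none (nw W) := by
    have hex : ∀ W : List L, ∃ qt : Bool × Bool, vis (tot' c) none (nw W) =
        rb qt.1 (tk i c none false (nw W)) ++ (if qt.2 then [none] else []) := by
      intro W
      rcases cases3 W with rfl | ⟨x, rfl⟩ | ⟨x, M, y, rfl⟩
      · exact ⟨(false, false), by simp [nw_nil, vis, tk, rb]⟩
      · rw [nw_single]
        obtain ⟨q0, t, h3⟩ := star_dec i c hc.none x [] (by
          intro z hz
          have := hz.length_le
          simp at this)
        exact ⟨(q0, t), h3⟩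
      · rw [nw_cons]
        obtain ⟨q0, t, h3⟩ := star_dec i c hc.none x (red M ++ [y])
          (noII_chain (B1Aux.red_chain M) y)
        exact ⟨(q0, t), h3⟩
    choose f hf using hex
    refine hN.det _ _ h1 ⟨0, 2 * 2, fun W => finProdFinEquiv
      (if (f W).1 then 1 else 0, if (f W).2 then 1 else 0), fun W hW W' hW' h3 h4 => ?_⟩
    beta_reduce at h3 ⊢
    have h5 := finProdFinEquiv.injective h4
    have h6 : f W = f W' := by
      rw [Prod.mk.injEq] at h5
      obtain ⟨h7, h8⟩ := h5
      apply Prod.ext
      · revert h7
        cases (f W).1 <;> cases (f W').1 <;> simp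
      · revert h8
        cases (f W).2 <;> cases (f W').2 <;> simp
    rw [hf W, hf W', h3, h6]
  have h3 : S.Known fun W => (vis (tot' c) none (nw W)).filter
      fun z => decide (z = none ∨ z = some b) := hN.map _ h2
  have h4 : S.Known fun W => vis (fun x => (tot' c x).filter
      fun z => decide (z = none ∨ z = some b)) none (nw W) := by
    refine hN.det _ _ h3 ⟨0, 1, fun _ => 0, fun W hW W' hW' h1 _ => ?_⟩
    beta_reduce
    rw [hV.filter, hV.filter]
    exact h1
  have hci : c i = none := (hc.none i).2 rfl
  refine kp_same hN hV _ _ ⟨?_, ?_⟩ h4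
  · intro x
    by_cases hx : x = i
    · subst hx
      simp [tot', hci, pc]
    · obtain ⟨g, hg⟩ := Option.ne_none_iff_exists'.1 (fun h => hx ((hc.none x).1 h))
      by_cases hgb : g = b
      · simp [tot', hg, pc, hx, hgb, cset]
      · simp [tot', hg, pc, hx, hgb, cset, Option.filter]
  · intro x y
    by_cases hx : x = i
    · by_cases hy : y = i
      · rw [hx, hy]; simp
      · subst hx
        obtain ⟨g, hg⟩ := Option.ne_none_iff_exists'.1 (fun h => hy ((hc.none y).1 h))
        by_cases hgb : g = b
        · simp [tot', hci, hg, pc, hy, hgb, cset, Option.filter]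
        · simp [tot', hci, hg, pc, hy, hgb, cset, Option.filter]
    · obtain ⟨g, hg⟩ := Option.ne_none_iff_exists'.1 (fun h => hx ((hc.none x).1 h))
      by_cases hy : y = i
      · subst hy
        by_cases hgb : g = b
        · simp [tot', hci, hg, pc, hx, hgb, cset, Option.filter]
        · simp [tot', hci, hg, pc, hx, hgb, cset, Option.filter]
      · obtain ⟨g', hg'⟩ := Option.ne_none_iff_exists'.1 (fun h => hy ((hc.none y).1 h))
        by_cases hgb : g = b <;> by_cases hgb' : g' = b <;>
          simp [tot', hg', hg, pc, hx, hy, hgb, hgb', cset, Option.filter]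

open PFB in
/-- The end of the pair calculus for the words `U W`. -/
lemma pf_gen (U : List L → List L) (hC : KnownCalc S) (hV : VisBasics L)
    (hodd : ∀ W ∈ S.N 0, OddRuns (U W)) (hev : ∀ W, S.D.ev (U W) = S.D.ev W)
    (hK : ∀ i j, i ≠ j → S.Known fun W => vis (pc {i} {j}) none (U W)) :
    S.Known S.D.ev := by
  have hL : ∀ x : L, ∃ j, j ≠ x := by
    intro x
    by_cases hx : x = S.D.o
    · exact ⟨S.D.nxt S.D.o, by rw [hx]; exact S.D.nxt_ne _⟩
    · exact ⟨S.D.o, fun h => hx h.symm⟩
  let Ψ : List L → ({p : L × L // p.1 ≠ p.2} → List Bool) :=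
    fun W p => vis (pc {p.1.1} {p.1.2}) none (U W)
  have hΨ : S.Known Ψ := hC.pi (fun (p : {p : L × L // p.1 ≠ p.2}) (W : List L) =>
    vis (pc {p.1.1} {p.1.2}) none (U W)) (fun p => hK p.1.1 p.1.2 p.2)
  refine hC.det Ψ S.D.ev hΨ ⟨0, ?_⟩
  have hex : ∀ W : List L, ∃ ab : Fin 2 × Fin 2, W ∈ S.N 0 →
      S.D.ev W = S.D.ev (ff (dst (U W)) ab.1 ab.2) := by
    intro W
    by_cases hW : W ∈ S.N 0
    · obtain ⟨a, b, h⟩ := ev_ff S.D (U W) (hodd W hW)
      exact ⟨(a, b), fun _ => by rw [← h, hev]⟩
    · exact ⟨(0, 0), fun h => absurd h hW⟩
  choose ab hab using hex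
  refine ⟨2 * 2, fun W => finProdFinEquiv (ab W), fun W hW W' hW' hΨW hρ => ?_⟩
  have hab' : ab W = ab W' := finProdFinEquiv.injective hρ
  have hdst : dst (U W) = dst (U W') := by
    refine filter_inj hL _ _ fun i j hij => ?_
    have h1 : vis (pc {i} {j}) none (U W) = vis (pc {i} {j}) none (U W') :=
      congrFun hΨW ⟨(i, j), hij⟩
    obtain ⟨e, he⟩ := hV.same _ _ (same_pc i j hij)
    have h2 := he (U W)
    have h3 := he (U W')
    rw [hV.filter (fun x => some x)] at h2 h3
    unfold dst
    rw [h2, h3, h1]
  rw [hab W hW, hab W' hW', hab', hdst]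

lemma ev_cons_congr (x : L) (u u' : List L) (h : S.D.ev u = S.D.ev u') :
    S.D.ev (x :: u) = S.D.ev (x :: u') := by
  funext y
  rw [B1Aux.ev_cons', B1Aux.ev_cons', h]

lemma ev_nw (W : List L) : S.D.ev (nw W) = S.D.ev W := by
  rcases cases3 W with rfl | ⟨x, rfl⟩ | ⟨x, M, y, rfl⟩
  · rfl
  · rw [nw_single]
  · rw [nw_cons]
    apply ev_cons_congr
    exact PFB.ev_congr_append S.D _ _ _ (B1Aux.ev_red S.D M)

open PFB in
lemma odd_nw (W : List L) : OddRuns (nw W) := by
  intro y x z m hinf hm hy hz
  rcases cases3 W with rfl | ⟨x', rfl⟩ | ⟨x', M, y', rfl⟩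
  · have := hinf.length_le
    simp [nw_nil] at this
  · rw [nw_single] at hinf
    have := hinf.length_le
    simp at this
  · rw [nw_cons] at hinf
    obtain ⟨s, t, hst⟩ := hinf
    have hR := B1Aux.red_chain M
    -- the run lies in the interior
    have key : ∃ s' t', red M = s' ++ List.replicate m x ++ t' := by
      rcases List.eq_nil_or_concat t with ht | ⟨t', z', ht⟩
      · subst ht
        cases s with
        | nil =>
          simp only [List.nil_append, List.append_nil, List.cons.injEq] at hst
          obtain ⟨h1, -⟩ := List.append_inj' hst.2 rfl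
          exact ⟨[], [], by simp [h1]⟩
        | cons s0 s =>
          simp only [List.cons_append, List.append_nil, List.cons.injEq] at hst
          have h2 : (s ++ y :: List.replicate m x) ++ [z] = red M ++ [y'] := by
            rw [← hst.2]; simp
          obtain ⟨h1, -⟩ := List.append_inj' h2 rfl
          exact ⟨s ++ [y], [], by rw [← h1]; simp⟩
      · rw [List.concat_eq_append] at ht
        subst ht
        cases s with
        | nil =>
          simp only [List.nil_append, List.cons_append, List.cons.injEq] at hst
          have h2 : (List.replicate m x ++ z :: t') ++ [z'] = red M ++ [y'] := by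
            rw [← hst.2]; simp
          obtain ⟨h1, -⟩ := List.append_inj' h2 rfl
          exact ⟨[], z :: t', by rw [← h1]; simp⟩
        | cons s0 s =>
          simp only [List.cons_append, List.cons.injEq] at hst
          have h2 : (s ++ y :: (List.replicate m x ++ z :: t')) ++ [z'] = red M ++ [y'] := by
            rw [← hst.2]; simp
          obtain ⟨h1, -⟩ := List.append_inj' h2 rfl
          exact ⟨s ++ [y], z :: t', by rw [← h1]; simp⟩
    obtain ⟨s', t', h1⟩ := key
    have hm1 : m = 1 := by
      by_contra hne
      obtain ⟨k, rfl⟩ : ∃ k, m = k + 2 := ⟨m - 2, by omega⟩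
      rw [h1, List.replicate_succ, List.replicate_succ, List.isChain_append,
        List.isChain_append] at hR
      simp at hR
    rw [hm1]
    exact odd_one

/-- The letters which are leaves, and `o`. -/
lemma leaf_star {i : L} (hs : S.D.Side S.E {i}) :
    IsStar S.D S.E i (fun x => if x = i then (Option.none : Option Unit) else some ()) ∧
      ∀ b, cset (fun x => if x = i then (Option.none : Option Unit) else some ()) b = {i}ᶜ := by
  have h1 : ∀ b, cset (fun x => if x = i then (Option.none : Option Unit) else some ()) b =
      {i}ᶜ := by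
    intro b
    ext x
    rw [mem_cset]
    by_cases hx : x = i
    · simp [hx]
    · simp [hx]
  have hsc : S.D.Side S.E ({i} : Finset L)ᶜ := by
    unfold KS.Side KS.nm at hs ⊢
    by_cases hi : S.D.o = i
    · subst hi
      simpa using hs
    · have h2 : S.D.o ∉ ({i} : Finset L) := by simpa using hi
      rw [if_neg h2] at hs
      rw [if_pos (Finset.mem_compl.2 h2), compl_compl]
      exact hs
  refine ⟨⟨?_, ?_, ?_⟩, h1⟩
  · intro x
    by_cases hx : x = i <;> simp [hx]
  · intro b _
    rw [h1]
    exact hsc
  · intro X _ _ hX
    refine ⟨(), ?_⟩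
    rw [h1]
    intro x hx
    rw [Finset.mem_compl, Finset.mem_singleton]
    rintro rfl
    exact hX hx

end final

end MKG

open MKG in
/-- MKG. The end of the pair calculus, with marks. -/
theorem mkg {L : Type} [Fintype L] [DecidableEq L] (S : Setup L) (hB : NodeBasics S)
    (hN : KnownCalc S) (hV : VisBasics L) (hG : VisGlue L)
    (hK : ∀ X Y, S.D.Side S.E X → S.D.Side S.E Y → Disjoint X Y → S.K X Y)
    (hm : ∀ i, i ≠ S.D.o → {i} ∉ S.E → ∃ (β : Type) (_ : DecidableEq β) (c : L → Option β),
      IsStar S.D S.E i c ∧ S.Known fun W => tk i c none false W) :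
    S.Known S.D.ev := by
  -- stars
  have hstar : ∀ i, ∃ (β : Type) (_ : DecidableEq β) (c : L → Option β),
      IsStar S.D S.E i c ∧ ∀ b, (cset c b).Nonempty → KP S {i} (cset c b) := by
    intro i
    by_cases hs : S.D.Side S.E {i}
    · obtain ⟨h1, h2⟩ := leaf_star hs
      refine ⟨Unit, inferInstance, _, h1, ?_⟩
      intro b hb
      have h3 := h1.side b hb
      rw [h2] at h3 ⊢
      exact kp_side hB hN hV hs h3 disjoint_compl_right (hK _ _ hs h3 disjoint_compl_right)
    · have hio : i ≠ S.D.o := by
        rintro rfl
        apply hs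
        unfold KS.Side KS.nm
        rw [if_pos (by simp)]
        exact S.full.base
      have hiE : {i} ∉ S.E := by
        intro h1
        apply hs
        unfold KS.Side KS.nm
        rw [if_neg (by simpa using hio.symm)]
        exact h1
      obtain ⟨β, hβ, c, hc, hk⟩ := hm i hio hiE
      exact ⟨β, hβ, c, hc, fun b _ => kp_centre hB hN hV hc hk b⟩
  refine pf_gen nw hN hV (fun W _ => odd_nw W) ev_nw ?_
  intro i j hij
  obtain ⟨β, hβ, c, hc, hci⟩ := hstar i
  obtain ⟨γ, hγ, c', hc', hcj⟩ := hstar j
  obtain ⟨b, hb⟩ := Option.ne_none_iff_exists'.1 (fun h => hij.symm ((hc.none j).1 h))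
  have hjA : j ∈ cset c b := mem_cset.2 hb
  have hiA : i ∉ cset c b := by
    rw [mem_cset, (hc.none i).2 rfl]
    simp
  set A := cset c b with hA
  have hAs : S.D.Side S.E A := hc.side b ⟨j, hjA⟩
  have hAcs : S.D.Side S.E Aᶜ := by
    unfold KS.Side KS.nm at hAs ⊢
    by_cases ho : S.D.o ∈ A
    · rw [if_pos ho] at hAs
      rw [if_neg (by simpa using ho)]
      exact hAs
    · rw [if_neg ho] at hAs
      rw [if_pos (Finset.mem_compl.2 ho), compl_compl]
      exact hAs
  obtain ⟨b', hb'⟩ := hc'.max Aᶜ hAcs ⟨i, Finset.mem_compl.2 hiA⟩ (by simpa using hjA)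
  have hiB : i ∈ cset c' b' := hb' (Finset.mem_compl.2 hiA)
  have hjB : j ∉ cset c' b' := by
    rw [mem_cset, (hc'.none j).2 rfl]
    simp
  set B := cset c' b' with hBdef
  have hBs : S.D.Side S.E B := hc'.side b' ⟨i, hiB⟩
  have hBcs : S.D.Side S.E Bᶜ := by
    unfold KS.Side KS.nm at hBs ⊢
    by_cases ho : S.D.o ∈ B
    · rw [if_pos ho] at hBs
      rw [if_neg (by simpa using ho)]
      exact hBs
    · rw [if_neg ho] at hBs
      rw [if_pos (Finset.mem_compl.2 ho), compl_compl]
      exact hBs
  have k1 : KP S {i} A := hci b ⟨j, hjA⟩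
  have k2 : KP S {j} B := hcj b' ⟨i, hiB⟩
  have k3 : KP S B {j} := kp_symm hN hV (by simpa using hjB) k2
  have hdis : Disjoint Aᶜ Bᶜ := by
    rw [Finset.disjoint_left]
    intro x hx hx'
    exact Finset.mem_compl.1 hx' (hb' hx)
  have k4 : KP S Aᶜ Bᶜ := kp_side hB hN hV hAcs hBcs hdis (hK _ _ hAcs hBcs hdis)
  have k5 : KP S Aᶜ {j} := by
    apply kp_glue hN hV hG (A := Bᶜ) _ _ k4
    · rw [compl_compl]; exact k3
    · rw [compl_compl]; exact hb'
    · simpa using hjB
  exact kp_glue hN hV hG (A := A) (by simpa using hiA) (by simpa using hjA) k1 k5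

end R4
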