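import Pool.Agent.Work.MP_e3f5d9_al.Defs

/-!
# S(alpha): between two visits to the other arms at `alpha`, the critical value is read once

`kk i` is the number of leading `true` sides of the itinerary of the letter `i`; the class of `i`
at the fixed point `alpha` is `- kk i` modulo `q = kk o + 1`.
-/

set_option autoImplicit false

open Finset

namespace R4

variable {L : Type} [Fintype L] [DecidableEq L]

namespace KS

variable (D : KS L)

/-- `kk i` is the number of leading `true` sides of the itinerary of `i`. -/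
structure IsKK (kk : L → ℕ) : Prop where
  zero : ∀ i, D.side i = false → kk i = 0
  succ : ∀ i, D.side i = true → kk i = kk (D.nxt i) + 1
  ho : D.side D.o = true

/-- The number of arms at `alpha`. -/
def qq (kk : L → ℕ) : ℕ := kk D.o + 1

/-- The letters of class `j` at `alpha`. -/
def cls (kk : L → ℕ) (j : ℕ) : Finset L := univ.filter fun i => D.qq kk ∣ kk i + j

/-- The pull-back along the first return of the arm of the critical value. -/
def phiA (kk : L → ℕ) (Y : Finset L) : Finset L :=
  univ.filter fun i => kk i + 1 = D.qq kk ∨ (D.qq kk ≤ kk i ∧ D.nxt^[D.qq kk] i ∈ Y)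

end KS

open KS

variable {D : KS L} {kk : L → ℕ}

lemma KS.IsKK.two_le (h : D.IsKK kk) : 2 ≤ D.qq kk := by
  have := h.succ _ h.ho
  unfold KS.qq
  omega

lemma KS.IsKK.o_mem (h : D.IsKK kk) {j : ℕ} : D.o ∈ D.cls kk j ↔ D.qq kk ∣ kk D.o + j := by
  simp [KS.cls]

lemma KS.IsKK.o_notMem (h : D.IsKK kk) {j : ℕ} (hj : j < D.qq kk) (h1 : j ≠ 1) :
    D.o ∉ D.cls kk j := by
  rw [h.o_mem]
  intro hd
  have h2 := h.two_le
  have h3 : kk D.o + 1 = D.qq kk := rfl
  obtain ⟨c, hc⟩ := hd
  rcases Nat.eq_zero_or_pos c with rfl | hc0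
  · omega
  · rcases Nat.lt_or_ge c 2 with hc1 | hc2
    · have : c = 1 := by omega
      subst this
      omega
    · have : D.qq kk * 2 ≤ D.qq kk * c := Nat.mul_le_mul_left _ hc2
      omega

/-- On the side `true` the class goes up by one. -/
lemma KS.IsKK.lp_cls (h : D.IsKK kk) (j : ℕ) :
    D.lp true (D.cls kk (j + 1)) = (D.cls kk j).filter fun i => D.side i = true := by
  ext i
  simp only [KS.lp, KS.cls, mem_filter, mem_univ, true_and]
  constructor
  · rintro ⟨h1, h2⟩
    refine ⟨?_, h1⟩
    rw [h.succ i h1]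
    have : kk (D.nxt i) + 1 + j = kk (D.nxt i) + (j + 1) := by ring
    rwa [this]
  · rintro ⟨h1, h2⟩
    refine ⟨h2, ?_⟩
    rw [h.succ i h2] at h1
    have : kk (D.nxt i) + (j + 1) = kk (D.nxt i) + 1 + j := by ring
    rwa [this]

lemma KS.IsKK.side_of_cls (h : D.IsKK kk) {i : L} (hi : ¬ D.qq kk ∣ kk i) : D.side i = true := by
  by_contra hs
  apply hi
  rw [h.zero i (by simpa using hs)]
  exact dvd_zero _

lemma KS.IsKK.lp_cls' (h : D.IsKK kk) {j : ℕ} (h0 : 1 ≤ j) (hj : j < D.qq kk) :
    D.lp true (D.cls kk (j + 1)) = D.cls kk j := by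
  rw [h.lp_cls]
  apply filter_true_of_mem
  intro i hi
  apply h.side_of_cls
  intro hd
  simp only [KS.cls, mem_filter, mem_univ, true_and] at hi
  have := (Nat.dvd_add_right hd).1 hi
  exact absurd (Nat.le_of_dvd h0 this) (by omega)

/-- One step: the arm `j + 1` is pulled back to the arm `j`. -/
lemma KS.IsKK.mono_step (h : D.IsKK kk) {E : Finset (Finset L)} {j : ℕ} (h0 : 1 ≤ j)
    (hj : j + 1 ≤ D.qq kk) (hj1 : D.o ∉ D.cls kk (j + 1)) {W : Finset L}
    (hW : W ⊆ D.cls kk (j + 1))
    (hm : D.Mono E (D.cls kk j)ᶜ (D.lp true W)) : D.Mono E (D.cls kk (j + 1))ᶜ W := by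
  apply KS.Mono.image true
  · rw [mem_compl]; exact hj1
  · rw [disjoint_left]
    intro x hx hxW
    rw [mem_compl] at hx
    exact hx (hW hxW)
  · rw [compl_compl, h.lp_cls' h0 (by omega)]
    exact hm

lemma mem_cls_qq {i : L} : i ∈ D.cls kk (D.qq kk) ↔ D.qq kk ∣ kk i := by
  simp [KS.cls]

lemma lp_iter (h : D.IsKK kk) (W : Finset L) (m : ℕ) :
    (fun X => D.lp true X)^[m] W = univ.filter fun i => m ≤ kk i ∧ D.nxt^[m] i ∈ W := by
  induction m with
  | zero => ext i; simp
  | succ m ih =>
    rw [Function.iterate_succ_apply', ih]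
    ext i
    simp only [KS.lp, mem_filter, mem_univ, true_and]
    constructor
    · rintro ⟨h1, h2, h3⟩
      refine ⟨by rw [h.succ i h1]; omega, ?_⟩
      rwa [Function.iterate_succ_apply]
    · rintro ⟨h1, h2⟩
      have hs : D.side i = true := by
        by_contra hs
        rw [h.zero i (by simpa using hs)] at h1
        omega
      rw [h.succ i hs] at h1
      rw [Function.iterate_succ_apply] at h2
      exact ⟨hs, by omega, h2⟩

/-- The chain of pull-backs through the arms `q, q - 1, ..., 1`. -/
lemma KS.IsKK.mono_chain (h : D.IsKK kk) {E : Finset (Finset L)} (m : ℕ) (hm : m + 1 ≤ D.qq kk)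
    (W : Finset L) (hW : W ⊆ D.cls kk (m + 1))
    (hM : D.Mono E (D.cls kk 1)ᶜ ((fun X => D.lp true X)^[m] W)) :
    D.Mono E (D.cls kk (m + 1))ᶜ W := by
  induction m generalizing W with
  | zero => simpa using hM
  | succ m ih =>
    apply h.mono_step (by omega) hm _ hW
    · apply ih (by omega)
      · intro i hi
        simp only [KS.lp, mem_filter, mem_univ, true_and] at hi
        have h1 : i ∈ D.lp true (D.cls kk (m + 1 + 1)) := by
          simp only [KS.lp, mem_filter, mem_univ, true_and]
          exact ⟨hi.1, hW hi.2⟩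
        rw [h.lp_cls' (by omega) (by omega)] at h1
        exact h1
      · rw [← Function.iterate_succ_apply]
        exact hM
    · rcases Nat.lt_or_ge (m + 1 + 1) (D.qq kk) with h1 | h1
      · exact h.o_notMem h1 (by omega)
      · have h2 : m + 1 + 1 = D.qq kk := by omega
        rw [h2, mem_cls_qq]
        intro hd
        have h3 : kk D.o + 1 = D.qq kk := rfl
        have h4 := Nat.le_of_dvd (by omega) hd
        omega

lemma KS.IsKK.cls_one_compl (h : D.IsKK kk) :
    D.lp true (D.cls kk 1)ᶜ = (D.cls kk (D.qq kk))ᶜ := by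
  ext i
  simp only [KS.lp, mem_filter, mem_univ, true_and, mem_compl, mem_cls_qq]
  constructor
  · rintro ⟨h1, h2⟩ hd
    apply h2
    simp only [KS.cls, mem_filter, mem_univ, true_and]
    rwa [h.succ i h1] at hd
  · intro hd
    have hs := h.side_of_cls hd
    refine ⟨hs, fun h2 => hd ?_⟩
    simp only [KS.cls, mem_filter, mem_univ, true_and] at h2
    rw [h.succ i hs]
    exact h2

/-- The pull-back of one side of a cut between `alpha` and `0` to the side of a cut between
`alpha` and the critical value. -/
lemma KS.IsKK.phi_eq (h : D.IsKK kk) (Y : Finset L) :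
    (fun X => D.lp true X)^[D.qq kk - 1] (D.lp true Yᶜ)ᶜ = D.phiA kk Y := by
  rw [lp_iter h]
  ext i
  simp only [KS.phiA, KS.lp, mem_filter, mem_univ, true_and, mem_compl, not_and, not_not]
  have h2 := h.two_le
  have key : ∀ m i, m ≤ kk i → kk (D.nxt^[m] i) + m = kk i := by
    intro m
    induction m with
    | zero => intro i _; simp
    | succ m ih =>
      intro i hi
      have hs : D.side i = true := by
        by_contra hs
        rw [h.zero i (by simpa using hs)] at hi
        omega
      rw [Function.iterate_succ_apply, h.succ i hs]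
      rw [h.succ i hs] at hi
      have := ih (D.nxt i) (by omega)
      omega
  have hq : D.qq kk = (D.qq kk - 1) + 1 := by omega
  constructor
  · rintro ⟨h3, h4⟩
    have h5 := key _ _ h3
    rcases Nat.eq_zero_or_pos (kk (D.nxt^[D.qq kk - 1] i)) with h6 | h6
    · left; omega
    · right
      have hs : D.side (D.nxt^[D.qq kk - 1] i) = true := by
        by_contra hs
        rw [h.zero _ (by simpa using hs)] at h6
        omega
      refine ⟨by omega, ?_⟩
      rw [hq, Function.iterate_succ_apply']
      exact h4 hs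
  · rintro (h3 | ⟨h3, h4⟩)
    · refine ⟨by omega, fun hs => ?_⟩
      have h5 := key (D.qq kk - 1) i (by omega)
      have h6 := h.succ _ hs
      omega
    · refine ⟨by omega, fun _ => ?_⟩
      rw [hq, Function.iterate_succ_apply'] at h4
      exact h4

lemma KS.IsKK.z_subset (h : D.IsKK kk) {Y : Finset L} (hY : Y ⊆ D.cls kk 1) :
    (D.lp true Yᶜ)ᶜ ⊆ D.cls kk (D.qq kk) := by
  intro i hi
  simp only [KS.lp, mem_filter, mem_univ, true_and, mem_compl, not_and, not_not] at hi
  rw [mem_cls_qq]
  by_cases hs : D.side i = true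
  · have h1 := hY (hi hs)
    simp only [KS.cls, mem_filter, mem_univ, true_and] at h1
    rw [h.succ i hs]
    exact h1
  · rw [h.zero i (by simpa using hs)]
    exact dvd_zero _

/-- The pair (arms other than the `0`-arm, part of the `0`-arm). -/
lemma KS.IsKK.mono_zero (h : D.IsKK kk) {E : Finset (Finset L)} {Y : Finset L}
    (hY : Y ⊆ D.cls kk 1) (hM : D.Mono E (D.phiA kk Y) (D.cls kk 1)ᶜ) :
    D.Mono E (D.cls kk (D.qq kk))ᶜ (D.lp true Yᶜ)ᶜ := by
  have h2 := h.two_le
  have hq : D.qq kk = (D.qq kk - 1) + 1 := by omega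
  have h3 := h.mono_chain (E := E) (D.qq kk - 1) (by omega) (D.lp true Yᶜ)ᶜ
    (by rw [← hq]; exact h.z_subset hY) (by rw [h.phi_eq]; exact KS.Mono.symm _ _ hM)
  rwa [← hq] at h3

/-- One turn of the pull-back. -/
lemma KS.IsKK.mono_turn (h : D.IsKK kk) {E : Finset (Finset L)} {Y : Finset L} (ho : D.o ∈ Y)
    (hY : Y ⊆ D.cls kk 1) (hM : D.Mono E (D.phiA kk Y) (D.cls kk 1)ᶜ) :
    D.Mono E Y (D.cls kk 1)ᶜ := by
  apply KS.Mono.image true _ _ ho
  · rw [disjoint_left]
    intro x hx hx1
    rw [mem_compl] at hx1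
    exact hx1 (hY hx)
  · rw [h.cls_one_compl]
    exact KS.Mono.symm _ _ (h.mono_zero hY hM)

/-- The sets `{i in the arm of the critical value : kk i < m q}`, with `o` added. -/
lemma KS.IsKK.phi_iter (h : D.IsKK kk) (m : ℕ) :
    (D.phiA kk)^[m] {D.o} =
      univ.filter fun i => (i = D.o) ∨ (i ∈ D.cls kk 1 ∧ kk i < m * D.qq kk) := by
  have key : ∀ m i, m ≤ kk i → kk (D.nxt^[m] i) + m = kk i := by
    intro m
    induction m with
    | zero => intro i _; simp
    | succ m ih =>
      intro i hi
      have hs : D.side i = true := by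
        by_contra hs
        rw [h.zero i (by simpa using hs)] at hi
        omega
      rw [Function.iterate_succ_apply, h.succ i hs]
      rw [h.succ i hs] at hi
      have := ih (D.nxt i) (by omega)
      omega
  have h2 := h.two_le
  have hno : ∀ n i, 0 < n → D.nxt^[n] i ≠ D.o := by
    intro n i hn
    obtain ⟨n, rfl⟩ : ∃ k, n = k + 1 := ⟨n - 1, by omega⟩
    rw [Function.iterate_succ_apply']
    exact D.nxt_ne _
  induction m with
  | zero => ext i; simp
  | succ m ih =>
    rw [Function.iterate_succ_apply', ih]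
    ext i
    simp only [KS.phiA, KS.cls, mem_filter, mem_univ, true_and]
    constructor
    · rintro (h3 | ⟨h3, h4 | ⟨h4, h5⟩⟩)
      · right
        refine ⟨by rw [h3], ?_⟩
        rw [Nat.add_mul, one_mul]; omega
      · exact absurd h4 (hno _ _ (by omega))
      · right
        have h6 := key _ _ h3
        refine ⟨?_, ?_⟩
        · rw [← h6]
          have : kk (D.nxt^[D.qq kk] i) + D.qq kk + 1 = (kk (D.nxt^[D.qq kk] i) + 1) + D.qq kk := by
            ring
          rw [this]
          exact (Nat.dvd_add_left (dvd_refl _)).2 h4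
        · rw [Nat.add_mul, one_mul]; omega
    · rintro (h3 | ⟨h3, h4⟩)
      · left; rw [h3]; rfl
      · rcases Nat.lt_or_ge (kk i) (D.qq kk) with h5 | h5
        · left
          have := Nat.le_of_dvd (by omega) h3
          omega
        · right
          have h6 := key _ _ h5
          refine ⟨h5, Or.inr ⟨?_, ?_⟩⟩
          · rw [← h6] at h3
            have : kk (D.nxt^[D.qq kk] i) + D.qq kk + 1 =
                (kk (D.nxt^[D.qq kk] i) + 1) + D.qq kk := by ring
            rw [this] at h3
            exact (Nat.dvd_add_left (dvd_refl _)).1 h3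
          · rw [Nat.add_mul, one_mul] at h4; omega

lemma KS.IsKK.o_mem_one (h : D.IsKK kk) : D.o ∈ D.cls kk 1 := by
  rw [h.o_mem]; exact dvd_refl _

/-- For large `m` the pull-back is the whole arm. -/
lemma KS.IsKK.phi_iter_top (h : D.IsKK kk) : ∃ m, (D.phiA kk)^[m] {D.o} = D.cls kk 1 := by
  refine ⟨(univ.sup kk) + 1, ?_⟩
  rw [h.phi_iter]
  ext i
  simp only [mem_filter, mem_univ, true_and]
  constructor
  · rintro (rfl | h1)
    · exact h.o_mem_one
    · exact h1.1
  · intro h1
    right
    refine ⟨h1, ?_⟩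
    have h3 : kk i ≤ univ.sup kk := le_sup (mem_univ i)
    have h2 := h.two_le
    nlinarith

lemma KS.IsKK.phi_iter_subset (h : D.IsKK kk) (m : ℕ) :
    D.o ∈ (D.phiA kk)^[m] {D.o} ∧ (D.phiA kk)^[m] {D.o} ⊆ D.cls kk 1 := by
  rw [h.phi_iter]
  constructor
  · simp
  · intro i hi
    simp only [mem_filter, mem_univ, true_and] at hi
    rcases hi with rfl | hi
    · exact h.o_mem_one
    · exact hi.1

lemma KS.IsKK.mono_iter (h : D.IsKK kk) {E : Finset (Finset L)} (hS : D.Side E (D.cls kk 1))
    (m : ℕ) : D.Mono E ((D.phiA kk)^[m] {D.o}) (D.cls kk 1)ᶜ := by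
  obtain ⟨M, hM⟩ := h.phi_iter_top
  -- large iterates are the whole arm
  have hbig : ∀ n, (D.phiA kk)^[M + n] {D.o} = D.cls kk 1 := by
    intro n
    apply Finset.Subset.antisymm (h.phi_iter_subset _).2
    rw [← hM, h.phi_iter, h.phi_iter]
    intro i hi
    simp only [mem_filter, mem_univ, true_and] at hi ⊢
    rcases hi with hi | ⟨h1, h2⟩
    · exact Or.inl hi
    · refine Or.inr ⟨h1, ?_⟩
      rw [Nat.add_mul]; omega
  have hdown : ∀ n m, m + n = M + m → D.Mono E ((D.phiA kk)^[m] {D.o}) (D.cls kk 1)ᶜ := by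
    intro n m _
    have : ∀ k, k ≤ M + m → D.Mono E ((D.phiA kk)^[M + m - k] {D.o}) (D.cls kk 1)ᶜ := by
      intro k
      induction k with
      | zero =>
        intro _
        rw [Nat.sub_zero, hbig]
        exact KS.Mono.triv _ hS
      | succ k ih =>
        intro hk
        have h1 := ih (by omega)
        have h2 : M + m - k = (M + m - (k + 1)) + 1 := by omega
        rw [h2, Function.iterate_succ_apply'] at h1
        exact h.mono_turn (h.phi_iter_subset _).1 (h.phi_iter_subset _).2 h1
    have h3 := this M (by omega)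
    rwa [show M + m - M = m by omega] at h3
  exact hdown M m (by omega)

/-- **S(alpha).** Every visit to the arm of the critical value at `alpha` contains exactly one
reading of the critical value. -/
theorem sAlpha (h : D.IsKK kk) {E : Finset (Finset L)} (hS : D.Side E (D.cls kk 1)) :
    D.Mono E {D.o} (D.cls kk 1)ᶜ := by
  simpa using h.mono_iter hS 0

/-- Every visit to the `0`-arm at `alpha` crosses `0` exactly once (in and out). -/
theorem sAlphaZero (h : D.IsKK kk) {E : Finset (Finset L)} (hS : D.Side E (D.cls kk 1)) :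
    D.Mono E (D.cls kk (D.qq kk))ᶜ (univ.filter fun i => D.side i = false) := by
  have h1 := h.mono_zero (E := E) (Y := {D.o}) (by simpa using h.o_mem_one)
    (by simpa using h.mono_iter hS 1)
  have h2 : (D.lp true ({D.o} : Finset L)ᶜ)ᶜ = univ.filter fun i => D.side i = false := by
    ext i
    simp only [KS.lp, mem_filter, mem_univ, true_and, mem_compl, mem_singleton, not_and, not_not]
    constructor
    · intro hi
      by_contra hs
      exact D.nxt_ne i (hi (by simpa using hs))
    · intro hi hs
      rw [hi] at hs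
      exact absurd hs (by simp)
  rwa [h2] at h1

/-! ### The cuts between `alpha` and the critical value belong to every closed class -/

/-- The class `E` of cuts is closed under pull-backs. -/
def KS.ClosedE (D : KS L) (E : Finset (Finset L)) : Prop :=
  ∀ A ∈ E, ∀ s, (D.lp s A).Nonempty → D.nm (D.lp s A) ∈ E

lemma KS.IsKK.side_chain (h : D.IsKK kk) {E : Finset (Finset L)} (hE : D.ClosedE E) (m : ℕ)
    (hm : m + 1 ≤ D.qq kk) (W : Finset L) (hW : W ⊆ D.cls kk (m + 1)) (hWo : D.o ∉ W)
    (ho : D.o ∈ (fun X => D.lp true X)^[m] W) (hWE : W ∈ E) :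
    D.Side E ((fun X => D.lp true X)^[m] W) := by
  induction m generalizing W with
  | zero => exact absurd (by simpa using ho) hWo
  | succ m ih =>
    rw [Function.iterate_succ_apply]
    rw [Function.iterate_succ_apply] at ho
    have hne : (D.lp true W).Nonempty := by
      by_contra hne
      rw [not_nonempty_iff_eq_empty] at hne
      rw [hne] at ho
      have : ∀ n, (fun X => D.lp true X)^[n] (∅ : Finset L) = ∅ := by
        intro n
        induction n with
        | zero => rfl
        | succ n ihn =>
          rw [Function.iterate_succ_apply', ihn]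
          simp [KS.lp]
      rw [this] at ho
      simp at ho
    have h1 := hE W hWE true hne
    have h2 : D.lp true W ⊆ D.cls kk (m + 1) := by
      intro i hi
      simp only [KS.lp, mem_filter, mem_univ, true_and] at hi
      have h1 : i ∈ D.lp true (D.cls kk (m + 1 + 1)) := by
        simp only [KS.lp, mem_filter, mem_univ, true_and]
        exact ⟨hi.1, hW hi.2⟩
      rw [h.lp_cls' (by omega) (by omega)] at h1
      exact h1
    rcases Nat.eq_zero_or_pos m with rfl | h0
    · exact h1
    · have h3 : D.o ∉ D.lp true W := fun h4 => h.o_notMem (by omega) (by omega) (h2 h4)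
      apply ih (by omega) _ h2 h3 ho
      rwa [KS.nm, if_neg h3] at h1

/-- The cuts on the way from the critical value to `alpha` are in every closed class that contains
the cut next to the critical value. -/
lemma KS.IsKK.side_iter (h : D.IsKK kk) {E : Finset (Finset L)} (hE : D.ClosedE E)
    (hb : ({D.o} : Finset L)ᶜ ∈ E) (m : ℕ) : D.Side E ((D.phiA kk)^[m] {D.o}) := by
  have h2 := h.two_le
  induction m with
  | zero =>
    simp only [Function.iterate_zero, id]
    rw [KS.Side, KS.nm, if_pos (mem_singleton_self _)]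
    exact hb
  | succ m ih =>
    rw [Function.iterate_succ_apply']
    obtain ⟨ho, hY⟩ := h.phi_iter_subset m
    set Y := (D.phiA kk)^[m] {D.o} with hYdef
    have hYE : Yᶜ ∈ E := by rwa [KS.Side, KS.nm, if_pos ho] at ih
    have ho1 : D.o ∈ D.lp true Yᶜ := by
      simp only [KS.lp, mem_filter, mem_univ, true_and, mem_compl]
      refine ⟨h.ho, fun h3 => ?_⟩
      have h4 := hY h3
      simp only [KS.cls, mem_filter, mem_univ, true_and] at h4
      have h5 := h.succ _ h.ho
      have h6 : kk D.o + 1 = D.qq kk := rfl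
      have h7 := Nat.le_of_dvd (by omega) h4
      omega
    have h3 := hE _ hYE true ⟨_, ho1⟩
    rw [KS.nm, if_pos ho1] at h3
    have hq : D.qq kk = (D.qq kk - 1) + 1 := by omega
    have h4 := h.side_chain hE (D.qq kk - 1) (by omega) (D.lp true Yᶜ)ᶜ
      (by rw [← hq]; exact h.z_subset hY) (by simpa using ho1)
      (by rw [h.phi_eq]; simp only [KS.phiA, mem_filter, mem_univ, true_and]; left; rfl) h3
    rwa [h.phi_eq] at h4

lemma KS.IsKK.side_one (h : D.IsKK kk) {E : Finset (Finset L)} (hE : D.ClosedE E)
    (hb : ({D.o} : Finset L)ᶜ ∈ E) : D.Side E (D.cls kk 1) := by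
  obtain ⟨m, hm⟩ := h.phi_iter_top
  rw [← hm]
  exact h.side_iter hE hb m

end R4
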